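import Pool.Agent.Lib.MP_06b9d2_nt.MD.Defs

/-!
Module MD-HeckeQ (MP_06b9d2_nt, Maeda). The Hecke operator `T_2` on `q`-expansions; the space of cusp forms is finite-dimensional.

`fin_cusp`: `CuspForm.toModularFormₗ_injective` (`Mathlib/NumberTheory/ModularForms/CuspFormSubmodule.lean`) and the instance `FiniteDimensional ℂ (ModularForm 𝒮ℒ k)` (`DimensionFormulas/LevelOne.lean` or `LevelOne/DimensionFormula.lean`): `FiniteDimensional.of_injective`.
`hecke_val`: `Nat.divisors 2 = {1, 2}` (`decide`/`rfl`), `Finset.sum_range_succ`: the term `a = 1` gives `2 ^ (k - 1) * 2 ^ (-k) = 1 / 2` and `f (ofComplex ((τ + b) / 2))`, `b = 0, 1`; `a = 2` gives `2 ^ (k - 1) * 1` and `f (ofComplex (2 τ))`.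
`hecke_q`: `q = qParam 1 τ = exp (2 π i τ)`, `w = exp (π i τ)`, `w ^ 2 = q`. By `hasSum_qExpansion` (the version for `ModularFormClass` in `Mathlib/NumberTheory/ModularForms/QExpansion.lean`, `(1 : ℝ) ∈ 𝒮ℒ.strictPeriods`: `one_mem_strictPeriods_SL` or `simp`) at the points `τ / 2`, `(τ + 1) / 2`, `2 τ` (`ofComplex_apply_of_im_pos`): with `a_m` the coefficients of `f`: `f (τ / 2) = ∑ a_m w ^ m`, `f ((τ + 1) / 2) = ∑ a_m (- w) ^ m`, `f (2 τ) = ∑ a_m q ^ (2 m)`. So
`(1 / 2) (f (τ / 2) + f ((τ + 1) / 2)) = ∑_m a_m (w ^ m + (- w) ^ m) / 2 = ∑_j a_{2 j} q ^ j` (`Function.Injective.hasSum_iff` for `j ↦ 2 j`; the terms with odd `m` vanish), and `f (2 τ) = ∑_j (if 2 ∣ j then a_{j / 2} else 0) q ^ j` (the same for `m ↦ 2 m`). Then `ModularFormClass.qExpansion_coeff_unique` for `T f`.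
-/

namespace Pool.Agent.Lib.MP_06b9d2_nt

open UpperHalfPlane
open scoped MatrixGroups ModularForm

theorem fin_cusp (k : ℤ) : Module.Finite ℂ (CuspForm 𝒮ℒ k) := by
  exact FiniteDimensional.of_injective (CuspForm.toModularFormₗ (Γ := 𝒮ℒ) (k := k))
    CuspForm.toModularFormₗ_injective

theorem hecke_val {k : ℤ} {T : CuspForm 𝒮ℒ k →ₗ[ℂ] CuspForm 𝒮ℒ k} (hT : IsHecke k 2 T)
    (f : CuspForm 𝒮ℒ k) (τ : ℍ) :
    T f τ = 1 / 2 * (f (ofComplex ((τ : ℂ) / 2)) + f (ofComplex (((τ : ℂ) + 1) / 2))) +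
      (2 : ℂ) ^ (k - 1) * f (ofComplex (2 * (τ : ℂ))) := by
  have hd : Nat.divisors 2 = {1, 2} := by decide
  rw [hT f τ, hd, Finset.sum_pair (by norm_num)]
  have h2 : (2 : ℂ) ^ (k - 1) * 2 ^ (-k) = 1 / 2 := by
    rw [← zpow_add₀ (by norm_num : (2 : ℂ) ≠ 0), show k - 1 + -k = -1 by ring]
    norm_num
  simp only [Nat.div_one, Nat.cast_ofNat, Finset.sum_range_succ, Finset.sum_range_zero,
    Nat.div_self (by norm_num : 0 < 2), Nat.cast_one, Nat.cast_zero, one_mul, add_zero, zero_add,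
    one_zpow, mul_one, div_one]
  rw [h2]
  ring

private theorem im_half (τ : ℍ) : 0 < ((τ : ℂ) / 2).im := by
  have := τ.im_pos
  have h : ((τ : ℂ) / 2).im = τ.im / 2 := by
    simp
  rw [h]
  positivity

private theorem im_half' (τ : ℍ) : 0 < (((τ : ℂ) + 1) / 2).im := by
  have := τ.im_pos
  have h : (((τ : ℂ) + 1) / 2).im = τ.im / 2 := by
    simp
  rw [h]
  positivity

private theorem im_two (τ : ℍ) : 0 < (2 * (τ : ℂ)).im := by
  have := τ.im_pos
  have h : (2 * (τ : ℂ)).im = 2 * τ.im := by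
    simp
  rw [h]
  positivity

private theorem hs (k : ℤ) (f : CuspForm 𝒮ℒ k) (z : ℂ) (hz : 0 < z.im) :
    HasSum (fun m ↦ (qExpansion 1 f).coeff m * Complex.exp (2 * Real.pi * Complex.I * z) ^ m)
      (f (ofComplex z)) := by
  have h := ModularForm.hasSum_qExpansion (h := 1) f one_pos one_mem_strictPeriods_SL
    (ofComplex z)
  rw [ofComplex_apply_of_im_pos hz] at h ⊢
  have e : Function.Periodic.qParam 1 ((⟨z, hz⟩ : ℍ) : ℂ) =
      Complex.exp (2 * Real.pi * Complex.I * z) := by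
    unfold Function.Periodic.qParam
    congr 1
    push_cast
    rw [div_one]
  rw [e] at h
  exact h

theorem hecke_q {k : ℤ} {T : CuspForm 𝒮ℒ k →ₗ[ℂ] CuspForm 𝒮ℒ k} (hT : IsHecke k 2 T)
    (f : CuspForm 𝒮ℒ k) (m : ℕ) :
    (qExpansion 1 (T f)).coeff m = (qExpansion 1 f).coeff (2 * m) +
      (2 : ℂ) ^ (k - 1) * (if 2 ∣ m then (qExpansion 1 f).coeff (m / 2) else 0) := by
  symm
  refine ModularFormClass.qExpansion_coeff_unique (h := 1) (f := T f)
    (c := fun m => (qExpansion 1 f).coeff (2 * m) +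
      (2 : ℂ) ^ (k - 1) * (if 2 ∣ m then (qExpansion 1 f).coeff (m / 2) else 0))
    one_pos one_mem_strictPeriods_SL ?_ m
  intro τ
  rw [hecke_val hT f τ]
  set a : ℕ → ℂ := fun m => (qExpansion 1 f).coeff m with ha
  have eq : Function.Periodic.qParam 1 (τ : ℂ) = Complex.exp (2 * Real.pi * Complex.I * τ) := by
    unfold Function.Periodic.qParam
    congr 1
    push_cast
    rw [div_one]
  set w : ℂ := Complex.exp (2 * Real.pi * Complex.I * ((τ : ℂ) / 2)) with hw
  have hw2 : w ^ 2 = Function.Periodic.qParam 1 (τ : ℂ) := by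
    rw [eq, hw, ← Complex.exp_nat_mul]
    congr 1
    push_cast
    ring
  have hw3 : Complex.exp (2 * Real.pi * Complex.I * (((τ : ℂ) + 1) / 2)) = -w := by
    have : 2 * Real.pi * Complex.I * (((τ : ℂ) + 1) / 2) =
        2 * Real.pi * Complex.I * ((τ : ℂ) / 2) + Real.pi * Complex.I := by ring
    rw [this, Complex.exp_add, Complex.exp_pi_mul_I, ← hw]
    ring
  have hw4 : Complex.exp (2 * Real.pi * Complex.I * (2 * (τ : ℂ))) =
      Function.Periodic.qParam 1 (τ : ℂ) ^ 2 := by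
    rw [eq, ← Complex.exp_nat_mul]
    congr 1
    push_cast
    ring
  have h1 := hs k f _ (im_half τ)
  have h2 := hs k f _ (im_half' τ)
  have h3 := hs k f _ (im_two τ)
  rw [← hw] at h1
  rw [hw3] at h2
  rw [hw4] at h3
  set q : ℂ := Function.Periodic.qParam 1 (τ : ℂ) with hq
  -- first part
  have h12 := (h1.add h2).mul_left (1 / 2 : ℂ)
  have hinj : Function.Injective (fun j : ℕ => 2 * j) := fun x y hxy => by
    have : 2 * x = 2 * y := hxy
    omega
  have hA : HasSum (fun j : ℕ => a (2 * j) * q ^ j)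
      (1 / 2 * (f (ofComplex ((τ : ℂ) / 2)) + f (ofComplex (((τ : ℂ) + 1) / 2)))) := by
    have key := (hinj.hasSum_iff (f := fun m : ℕ => 1 / 2 * ((qExpansion 1 f).coeff m * w ^ m +
      (qExpansion 1 f).coeff m * (-w) ^ m)) (a := 1 / 2 * (f (ofComplex ((τ : ℂ) / 2)) +
      f (ofComplex (((τ : ℂ) + 1) / 2)))) ?_).2 h12
    · refine key.congr_fun ?_ |> id
      intro j
      simp only [Function.comp_apply]
      rw [pow_mul, pow_mul, neg_sq, hw2, ha]
      ring
    · intro x hx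
      have hodd : Odd x := by
        rw [← Nat.not_even_iff_odd]
        rintro ⟨y, hy⟩
        exact hx ⟨y, by show 2 * y = x; omega⟩
      rw [hodd.neg_pow]
      ring
  have hB : HasSum (fun j : ℕ => (if 2 ∣ j then a (j / 2) else 0) * q ^ j)
      (f (ofComplex (2 * (τ : ℂ)))) := by
    refine (hinj.hasSum_iff ?_).1 ?_
    · intro x hx
      have : ¬ 2 ∣ x := by
        rintro ⟨y, hy⟩
        exact hx ⟨y, hy.symm⟩
      rw [if_neg this, zero_mul]
    · refine h3.congr_fun ?_ |> id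
      intro j
      simp only [Function.comp_apply]
      rw [if_pos (Dvd.intro _ rfl), Nat.mul_div_cancel_left _ two_pos, pow_mul]
  have hC := hA.add (hB.mul_left ((2 : ℂ) ^ (k - 1)))
  refine hC.congr_fun ?_ |> id
  intro j
  simp only [smul_eq_mul, ha]
  ring

end Pool.Agent.Lib.MP_06b9d2_nt
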