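import Pool.Agent.Lib.MP_06b9d2_nt.MD.Vol

/-!
Module MD-Pos (MP_06b9d2_nt, Maeda). The inner product.

`ip_int`: the function `(wt z).toReal • petersson k f g z` is integrable: measurable (`wt_meas`, `petersson_continuous`), bounded by `C (wt z).toReal` (`CuspFormClass.petersson_bounded_left`), and `wt` is integrable (`wt_int`, `integrable_toReal_of_lintegral_ne_top`).
`ip_conj`: `integral_conj` and `petersson_symm`. `ip_add`, `ip_smul`: linearity of the integral with `ip_int` (additivity in the second argument). `ip_nonneg`: `petersson k f f z = ‖f z‖ ^ 2 * z.im ^ k` is a nonnegative real. `ip_def`: if `ip k f f = 0` then `(wt z).toReal * ‖f z‖ ^ 2 * z.im ^ k = 0` for almost all `z` (`integral_eq_zero_iff_of_nonneg`), so `f z = 0` for almost all `z ∈ 𝒟` (`wt_ne_zero`, `wt_le`). The set `Z = {z | f z ≠ 0}` is open and `Z ∩ 𝒟` is a null set; `Z` is invariant under `SL(2, ℤ)` (`SlashInvariantForm.slash_action_eqn''`: `f (γ z) = denom ^ k f z`) and every `z` is in some `γ⁻¹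 𝒟`, so `Z ⊆ ⋃_γ γ⁻¹ • (Z ∩ 𝒟)` is a null set (countable union, invariant measure: `measure_smul`/`measure_preimage_smul`; `SL(2, ℤ)` acts through `mapGL ℝ`). An open null set of `ℍ` is empty: `volume` on `ℍ` is positive on nonempty open sets (`volume_eq_lintegral`: the integral over a nonempty open subset of `ℂ` of a positive function is positive, e.g. `lintegral_pos_iff_support` or `setLIntegral_pos_iff`). So `f = 0`.
-/

namespace Pool.Agent.Lib.MP_06b9d2_nt

open UpperHalfPlane MeasureTheory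
open scoped MatrixGroups ModularForm ENNReal

private theorem cont_pet {k : ℤ} (f g : CuspForm 𝒮ℒ k) : Continuous (petersson k f g) :=
  petersson_continuous k (ModularFormClass.continuous f) (ModularFormClass.continuous g)

theorem ip_int {k : ℤ} (f g : CuspForm 𝒮ℒ k) :
    Integrable (fun z : ℍ => (wt z).toReal • petersson k f g z) := by
  obtain ⟨C, hC⟩ := CuspFormClass.petersson_bounded_left k 𝒮ℒ f g
  have hm : Measurable (petersson k f g) := (cont_pet f g).measurable
  have h1 : Integrable (fun z : ℍ => (wt z).toReal) :=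
    integrable_toReal_of_lintegral_ne_top wt_meas.aemeasurable wt_int.ne
  refine Integrable.mono' (g := fun z => (wt z).toReal * C) (h1.mul_const C) ?_ ?_
  · exact ((wt_meas.ennreal_toReal).smul hm).aestronglyMeasurable
  · refine Filter.Eventually.of_forall fun z => ?_
    rw [norm_smul, Real.norm_of_nonneg ENNReal.toReal_nonneg]
    exact mul_le_mul_of_nonneg_left (hC z) ENNReal.toReal_nonneg

theorem ip_conj {k : ℤ} (f g : CuspForm 𝒮ℒ k) : (starRingEnd ℂ) (ip k f g) = ip k g f := by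
  unfold ip
  rw [← integral_conj]
  refine integral_congr_ae (Filter.Eventually.of_forall fun z => ?_)
  simp only
  rw [petersson_symm k f g z]
  simp [Complex.real_smul]

theorem ip_add {k : ℤ} (f g h : CuspForm 𝒮ℒ k) : ip k f (g + h : CuspForm 𝒮ℒ k) =
    ip k f g + ip k f h := by
  unfold ip
  rw [← integral_add (ip_int f g) (ip_int f h)]
  refine integral_congr_ae (Filter.Eventually.of_forall fun z => ?_)
  simp only [petersson]
  rw [show (g + h : CuspForm 𝒮ℒ k) z = g z + h z from rfl, ← smul_add]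
  congr 1
  ring

theorem ip_smul {k : ℤ} (f g : CuspForm 𝒮ℒ k) (c : ℂ) : ip k f (c • g : CuspForm 𝒮ℒ k) =
    c * ip k f g := by
  unfold ip
  rw [← integral_const_mul]
  refine integral_congr_ae (Filter.Eventually.of_forall fun z => ?_)
  simp only [petersson]
  rw [show (c • g : CuspForm 𝒮ℒ k) z = c * g z from rfl]
  rw [mul_smul_comm]
  congr 1
  ring

private theorem pet_self (k : ℤ) (f : ℍ → ℂ) (z : ℍ) :
    petersson k f f z = ((‖f z‖ ^ 2 * z.im ^ k : ℝ) : ℂ) := by
  unfold petersson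
  rw [Complex.conj_mul']
  push_cast
  rfl

private theorem ip_self (k : ℤ) (f : ℍ → ℂ) :
    ip k f f = ((∫ z : ℍ, (wt z).toReal * (‖f z‖ ^ 2 * z.im ^ k) : ℝ) : ℂ) := by
  unfold ip
  rw [← integral_complex_ofReal]
  refine integral_congr_ae (Filter.Eventually.of_forall fun z => ?_)
  simp only [pet_self]
  rw [Complex.real_smul, ← Complex.ofReal_mul]

theorem ip_nonneg {k : ℤ} (f : CuspForm 𝒮ℒ k) : 0 ≤ (ip k f f).re := by
  rw [ip_self, Complex.ofReal_re]
  refine integral_nonneg fun z => ?_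
  have := z.im_pos
  positivity

private theorem open_pos (Z : Set ℍ) (hZ : IsOpen Z) (h0 : volume Z = 0) : Z = ∅ := by
  by_contra hne
  obtain ⟨z, hz⟩ := Set.nonempty_iff_ne_empty.mpr hne
  have ho : IsOpen (UpperHalfPlane.coe '' Z) := isOpenEmbedding_coe.isOpenMap Z hZ
  have hp : 0 < volume (UpperHalfPlane.coe '' Z) :=
    ho.measure_pos volume ⟨(z : ℂ), z, hz, rfl⟩
  have hm : Measurable (fun z : ℂ => (↑((1 / ‖z.im‖₊) ^ 2 : NNReal) : ℝ≥0∞)) := by
    refine measurable_coe_nnreal_ennreal.comp ?_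
    exact ((measurable_const.div (Complex.measurable_im.nnnorm)).pow_const 2)
  have h1 : 0 < volume Z := by
    rw [volume_eq_lintegral, setLIntegral_pos_iff hm]
    refine lt_of_lt_of_le hp (measure_mono ?_)
    rintro _ ⟨w, hw, rfl⟩
    refine ⟨?_, w, hw, rfl⟩
    simp only [Function.mem_support]
    have : ‖((w : ℂ).im)‖₊ ≠ 0 := by
      rw [nnnorm_ne_zero_iff]
      exact w.im_pos.ne'
    intro hh
    rw [ENNReal.coe_eq_zero] at hh
    have h2 := pow_eq_zero_iff (two_ne_zero) |>.mp hh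
    rw [div_eq_zero_iff] at h2
    rcases h2 with h2 | h2
    · exact one_ne_zero h2
    · exact this h2
  exact h1.ne' h0

private theorem cnt : Countable SL(2, ℤ) := by
  have : Countable (Matrix (Fin 2) (Fin 2) ℤ) :=
    inferInstanceAs (Countable (Fin 2 → Fin 2 → ℤ))
  exact Subtype.countable

theorem ip_def {k : ℤ} (f : CuspForm 𝒮ℒ k) (h : ip k f f = 0) : f = 0 := by
  have h0 : ∫ z : ℍ, (wt z).toReal * (‖f z‖ ^ 2 * z.im ^ k) = 0 := by
    have := ip_self k f
    rw [h] at this
    exact_mod_cast this.symm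
  have hn : ∀ z : ℍ, 0 ≤ (wt z).toReal * (‖f z‖ ^ 2 * z.im ^ k) := fun z => by
    have := z.im_pos
    positivity
  have hi : Integrable (fun z : ℍ => (wt z).toReal * (‖f z‖ ^ 2 * z.im ^ k)) := by
    have h1 := (ip_int f f).re
    refine h1.congr (Filter.Eventually.of_forall fun z => ?_)
    simp only [pet_self]
    rw [Complex.real_smul, ← Complex.ofReal_mul]
    exact Complex.ofReal_re _
  have hae : (fun z : ℍ => (wt z).toReal * (‖f z‖ ^ 2 * z.im ^ k)) =ᵐ[volume] 0 :=
    (integral_eq_zero_iff_of_nonneg hn hi).mp h0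
  set Z : Set ℍ := {z | f z ≠ 0} with hZ
  have hZo : IsOpen Z := isOpen_ne_fun (ModularFormClass.continuous f) continuous_const
  have hnull : volume (Z ∩ ModularGroup.fd) = 0 := by
    refine measure_mono_null ?_ (ae_iff.mp hae)
    rintro z ⟨hz1, hz2⟩
    have hw : (wt z).toReal ≠ 0 := by
      rw [ENNReal.toReal_ne_zero]
      exact ⟨wt_ne_zero z hz2, (lt_of_le_of_lt (wt_le z) ENNReal.one_lt_top).ne⟩
    have h2 : ‖f z‖ ^ 2 ≠ 0 := pow_ne_zero _ (norm_ne_zero_iff.mpr hz1)
    have h3 : z.im ^ k ≠ 0 := zpow_ne_zero _ z.im_pos.ne'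
    exact mul_ne_zero hw (mul_ne_zero h2 h3)
  have hinv : ∀ (γ : SL(2, ℤ)) (z : ℍ), f z ≠ 0 → f (γ • z) ≠ 0 := by
    intro γ z hz hz0
    have h1 := SlashInvariantFormClass.petersson_smul (k := k) (τ := z) (Γ := 𝒮ℒ) (f := f)
      (f' := f) (g := Matrix.SpecialLinearGroup.mapGL ℝ γ) ⟨γ, rfl⟩
    have h2 : petersson k f f (Matrix.SpecialLinearGroup.mapGL ℝ γ • z) = 0 := by
      have h3 : f (Matrix.SpecialLinearGroup.mapGL ℝ γ • z) = 0 := hz0
      simp [petersson, h3]
    rw [h2, pet_self] at h1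
    have h4 : (‖f z‖ ^ 2 * z.im ^ k : ℝ) = 0 := by exact_mod_cast h1.symm
    exact mul_ne_zero (pow_ne_zero _ (norm_ne_zero_iff.mpr hz))
      (zpow_ne_zero _ z.im_pos.ne') h4
  have := cnt
  have hcov : Z ⊆ ⋃ γ : SL(2, ℤ),
      (fun z : ℍ => (Matrix.SpecialLinearGroup.mapGL ℝ γ) • z) ⁻¹' (Z ∩ ModularGroup.fd) := by
    intro z hz
    obtain ⟨γ, hγ⟩ := ModularGroup.exists_smul_mem_fd z
    exact Set.mem_iUnion.mpr ⟨γ, hinv γ z hz, hγ⟩
  have hZ0 : volume Z = 0 := by
    refine measure_mono_null hcov (measure_iUnion_null fun γ => ?_)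
    exact measure_preimage_smul_null hnull _
  have hZe := open_pos Z hZo hZ0
  ext z
  by_contra hz
  have : z ∈ Z := hz
  rw [hZe] at this
  exact this

end Pool.Agent.Lib.MP_06b9d2_nt
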