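import Pool.Agent.Lib.MP_06b9d2_nt.MD.Self
import Pool.Agent.Lib.MP_06b9d2_nt.MD.Pos
import Pool.Agent.Lib.MP_06b9d2_nt.MD.HeckeQ

/-!
Module MD-Eig (MP_06b9d2_nt, Maeda). The degree of the minimal polynomial of `T_2` is the number of its eigenvalues.

`InnerProductSpace.Core ℂ (CuspForm 𝒮ℒ k)` with `inner f g = ip k f g` (`ip_conj`, `ip_nonneg`, `ip_add`, `ip_smul`, `ip_def`; additivity and conjugate-linearity in the first argument from `ip_conj`). With `letI` the normed group and the inner product space of this core: `T` is symmetric (`self_adj`), so `LinearMap.IsSymmetric.isFinitelySemisimple`, so semisimple (`fin_cusp`), `Module.End.IsSemisimple.minpoly_squarefree`; over `ℂ` a squarefree polynomial is separable and splits, so it has `natDegree` different roots (`Polynomial.card_rootSet_eq_natDegree` or `Multiset.toFinset_card_of_nodup`, `Polynomial.nodup_roots`, `IsAlgClosed.splits`). Every root of the minimal polynomial is a root of the characteristic polynomial (`LinearMap.minpoly_dvd_charpoly`, `Polynomial.roots.le_of_dvd`,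 `LinearMap.charpoly_monic`).
-/

namespace Pool.Agent.Lib.MP_06b9d2_nt

open UpperHalfPlane MeasureTheory
open scoped MatrixGroups ModularForm ENNReal

theorem semi_hecke {k : ℤ} [Module.Finite ℂ (CuspForm 𝒮ℒ k)]
    {T : CuspForm 𝒮ℒ k →ₗ[ℂ] CuspForm 𝒮ℒ k} (hT : IsHecke k 2 T) :
    Module.End.IsSemisimple T := by
  let c : InnerProductSpace.Core ℂ (CuspForm 𝒮ℒ k) :=
    { inner := fun f g => ip k f g
      conj_inner_symm := fun f g => ip_conj g f
      re_inner_nonneg := fun f => ip_nonneg f
      add_left := fun f g h => by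
        show ip k (f + g : CuspForm 𝒮ℒ k) h = ip k f h + ip k g h
        rw [← ip_conj h (f + g), ip_add, map_add, ip_conj, ip_conj]
      smul_left := fun f g r => by
        show ip k (r • f : CuspForm 𝒮ℒ k) g = (starRingEnd ℂ) r * ip k f g
        rw [← ip_conj g (r • f), ip_smul, map_mul, ip_conj]
      definite := fun f hf => ip_def f hf }
  let : NormedAddCommGroup (CuspForm 𝒮ℒ k) := @InnerProductSpace.Core.toNormedAddCommGroup ℂ
    (CuspForm 𝒮ℒ k) _ _ _ c
  let : InnerProductSpace ℂ (CuspForm 𝒮ℒ k) := InnerProductSpace.ofCore c.toCore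
  have hsym : LinearMap.IsSymmetric T := fun f g => self_adj hT f g
  exact Module.End.isFinitelySemisimple_iff_isSemisimple.1 hsym.isFinitelySemisimple

theorem eig {k : ℤ} [Module.Finite ℂ (CuspForm 𝒮ℒ k)] {T : CuspForm 𝒮ℒ k →ₗ[ℂ] CuspForm 𝒮ℒ k}
    (hT : IsHecke k 2 T) : (minpoly ℂ T).natDegree ≤ (LinearMap.charpoly T).roots.toFinset.card := by
  classical
  have hss : Module.End.IsSemisimple T := semi_hecke hT
  have hsq : Squarefree (minpoly ℂ T) := hss.minpoly_squarefree
  have hsep : (minpoly ℂ T).Separable :=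
    (PerfectField.separable_iff_squarefree).2 hsq
  have hne : LinearMap.charpoly T ≠ 0 := (LinearMap.charpoly_monic T).ne_zero
  have hsub : (minpoly ℂ T).roots.toFinset ⊆ (LinearMap.charpoly T).roots.toFinset := by
    intro x hx
    rw [Multiset.mem_toFinset] at hx ⊢
    exact Multiset.mem_of_le (Polynomial.roots.le_of_dvd hne (LinearMap.minpoly_dvd_charpoly T)) hx
  refine le_trans (le_of_eq ?_) (Finset.card_le_card hsub)
  rw [Multiset.toFinset_card_of_nodup (Polynomial.nodup_roots hsep)]
  exact (IsAlgClosed.card_roots_eq_natDegree (p := minpoly ℂ T)).symm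

end Pool.Agent.Lib.MP_06b9d2_nt
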