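import Pool.Agent.Lib.MP_06b9d2_nt.MD.WtA

/-!
Module MD-Vol (MP_06b9d2_nt, Maeda). The fundamental domain has finite hyperbolic area.

`UpperHalfPlane.volume_eq_lintegral` (Mathlib, `Mathlib/Analysis/Complex/UpperHalfPlane/Measure.lean`): `volume 𝒟 = ∫⁻ z in coe '' 𝒟, (1 / ‖z.im‖₊) ^ 2`. The set `coe '' 𝒟` is contained in `{z | |z.re| ≤ 1 / 2 ∧ 1 / 2 ≤ z.im}` (`ModularGroup.coe_fd`, `ModularGroup.three_le_four_mul_im_sq_of_mem_fd`). Use `Complex.volume_preserving_equiv_real_prod` to write the integral over this larger set as `∫⁻ x in Icc (-1/2) (1/2), ∫⁻ y in Ici (1/2), (1 / ‖y‖₊) ^ 2` (`lintegral_prod` for the restricted product measure `(volume.restrict (Icc ..)).prod (volume.restrict (Ici ..))`), and the inner integral is finite: `integrableOn_Ioi_rpow_of_lt` with exponent `-2` (`IntegrableOn` gives `HasFiniteIntegral`).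
`wt_int`: `wt z ≤ 𝒟.indicator 1 z` (`one_le_cN`), `lintegral_indicator`.
-/

namespace Pool.Agent.Lib.MP_06b9d2_nt

open UpperHalfPlane MeasureTheory
open scoped MatrixGroups ModularForm ENNReal

theorem Vol_inner : ∫⁻ y in Set.Ici (1 / 2 : ℝ), (((1 / ‖y‖₊) ^ 2 : NNReal) : ℝ≥0∞) < ∞ := by
  have h := (integrableOn_Ioi_rpow_of_lt (a := -2) (c := 1 / 2) (by norm_num) (by norm_num)).2
  rw [← setLIntegral_congr Ioi_ae_eq_Ici]
  refine lt_of_le_of_lt (le_of_eq ?_) h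
  refine setLIntegral_congr_fun measurableSet_Ioi (fun y hy => ?_)
  have hy0 : (0 : ℝ) < y := lt_trans (by norm_num) hy
  have h1 : (1 / ‖y‖₊ : NNReal) ^ 2 = ‖y ^ (-2 : ℝ)‖₊ := by
    ext
    push_cast
    rw [Real.norm_of_nonneg hy0.le, Real.norm_of_nonneg (Real.rpow_nonneg hy0.le _),
      Real.rpow_neg hy0.le]
    norm_cast
    rw [one_div, inv_pow]
  show (((1 / ‖y‖₊) ^ 2 : NNReal) : ℝ≥0∞) = ‖y ^ (-2 : ℝ)‖ₑ
  rw [h1]
  rfl

theorem vol_fd : volume ModularGroup.fd < ∞ := by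
  rw [volume_eq_lintegral]
  set f : ℝ × ℝ → ℝ≥0∞ := fun p => (((1 / ‖p.2‖₊) ^ 2 : NNReal) : ℝ≥0∞) with hf
  have hfm : Measurable f := by
    rw [hf]
    fun_prop
  set s : Set (ℝ × ℝ) := Set.Icc (-1 / 2) (1 / 2) ×ˢ Set.Ici (1 / 2 : ℝ) with hs
  have hsm : MeasurableSet s := measurableSet_Icc.prod measurableSet_Ici
  have hsub : (UpperHalfPlane.coe '' ModularGroup.fd) ⊆ Complex.measurableEquivRealProd ⁻¹' s := by
    rintro _ ⟨z, hz, rfl⟩
    have h1 := ModularGroup.three_le_four_mul_im_sq_of_mem_fd hz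
    have h2 := abs_le.mp hz.2
    have h3 := z.im_pos
    refine ⟨⟨?_, ?_⟩, ?_⟩
    · show -1 / 2 ≤ z.re
      linarith [h2.1]
    · exact h2.2
    · show 1 / 2 ≤ z.im
      nlinarith
  have h1 : ∫⁻ z in Complex.measurableEquivRealProd ⁻¹' s, f (Complex.measurableEquivRealProd z) =
      ∫⁻ p in s, f p :=
    Complex.volume_preserving_equiv_real_prod.setLIntegral_comp_preimage hsm hfm
  have h2 : ∫⁻ p in s, f p < ∞ := by
    rw [hs, Measure.volume_eq_prod, ← Measure.prod_restrict, lintegral_prod _ (by fun_prop)]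
    have h3 : ∀ x : ℝ, ∫⁻ y in Set.Ici (1 / 2 : ℝ), f (x, y) =
        ∫⁻ y in Set.Ici (1 / 2 : ℝ), (((1 / ‖y‖₊) ^ 2 : NNReal) : ℝ≥0∞) := fun x => rfl
    simp only [h3]
    rw [setLIntegral_const]
    refine ENNReal.mul_lt_top Vol_inner ?_
    rw [Real.volume_Icc]
    exact ENNReal.ofReal_lt_top
  refine lt_of_le_of_lt ?_ h2
  rw [← h1]
  exact lintegral_mono_set hsub

theorem wt_int : ∫⁻ z : ℍ, wt z < ∞ := by
  have h1 : ∀ z, wt z ≤ ModularGroup.fd.indicator (fun _ => (1 : ℝ≥0∞)) z := by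
    intro z
    unfold wt
    refine ENNReal.div_le_of_le_mul ?_
    calc ModularGroup.fd.indicator (fun _ => (1 : ℝ≥0∞)) z
        = ModularGroup.fd.indicator (fun _ => (1 : ℝ≥0∞)) z * 1 := (mul_one _).symm
      _ ≤ _ := mul_le_mul_right (one_le_cN z) _
  refine lt_of_le_of_lt (lintegral_mono h1) ?_
  rw [lintegral_indicator ModularGroup.isClosed_fd.measurableSet, setLIntegral_const, one_mul]
  exact vol_fd

end Pool.Agent.Lib.MP_06b9d2_nt
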