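import Mathlib
import Pool.Agent.Lib.L1.Delta

/-!
MD (MP_06b9d2_nt, Maeda): definitions.
-/

namespace Pool.Agent.Lib.MP_06b9d2_nt

open UpperHalfPlane
open scoped MatrixGroups ModularForm ENNReal

/-- `T` is the Hecke operator `T_n` on the cusp forms of weight `k` for `SL(2, ℤ)`. -/
def IsHecke (k : ℤ) (n : ℕ) (T : CuspForm 𝒮ℒ k →ₗ[ℂ] CuspForm 𝒮ℒ k) : Prop :=
  ∀ (f : CuspForm 𝒮ℒ k) (τ : ℍ),
    T f τ = ∑ a ∈ n.divisors, ∑ b ∈ Finset.range (n / a),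
      ((n : ℂ) ^ (k - 1) * ((n / a : ℕ) : ℂ) ^ (-k)) *
        f (ofComplex (((a : ℂ) * (τ : ℂ) + (b : ℂ)) / ((n / a : ℕ) : ℂ)))

/-- `N_s = (1 + 7 ^ (2 s + 1)) / 8` -/
def Ns (s : ℕ) : ℕ := (1 + 7 ^ (2 * s + 1)) / 8

/-- `∑ (-1) ^ u (2 u + 1) X ^ (u (u + 1) / 2)` -/
noncomputable def Fz : PowerSeries ℤ :=
  PowerSeries.mk fun m => ∑ u ∈ Finset.range (m + 1),
    if u * (u + 1) = 2 * m then (-1) ^ u * (2 * (u : ℤ) + 1) else 0

/-- Lucas sequence: `((1 + √-7) / 2) ^ n = (lV n + lU n √-7) / 2` -/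
def lU : ℕ → ℤ
  | 0 => 0
  | 1 => 1
  | (n + 2) => lU (n + 1) - 2 * lU n

/-- Lucas sequence: `((1 + √-7) / 2) ^ n = (lV n + lU n √-7) / 2` -/
def lV : ℕ → ℤ
  | 0 => 2
  | 1 => 1
  | (n + 2) => lV (n + 1) - 2 * lV n

/-- `∏_{i = 1}^n (1 - X ^ i)` -/
noncomputable def Pn (n : ℕ) : PowerSeries ℤ :=
  ∏ i ∈ Finset.range n, (1 - PowerSeries.X ^ (i + 1))

/-- Gaussian binomial coefficients -/
noncomputable def gb : ℕ → ℕ → PowerSeries ℤ
  | _, 0 => 1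
  | 0, (_ + 1) => 0
  | (m + 1), (j + 1) => gb m (j + 1) + PowerSeries.X ^ (m - j) * gb m j

/-- the number of `γ ∈ SL(2, ℤ)` with `γ z` in the fundamental domain -/
noncomputable def cN (z : ℍ) : ℝ≥0∞ :=
  ∑' γ : SL(2, ℤ), ModularGroup.fd.indicator (fun _ => (1 : ℝ≥0∞)) (γ • z)

/-- the weight function: the indicator of the fundamental domain, divided by `cN` -/
noncomputable def wt (z : ℍ) : ℝ≥0∞ := ModularGroup.fd.indicator (fun _ => (1 : ℝ≥0∞)) z / cN z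

/-- integral matrices of determinant `2` -/
abbrev M2 : Type := FixedDetMatrix (Fin 2) ℤ 2

/-- the matrices `(2 0; 0 1)`, `(1 0; 0 2)`, `(1 1; 0 2)` -/
def dl (j : Fin 3) : M2 :=
  ⟨![!![2, 0; 0, 1], !![1, 0; 0, 2], !![1, 1; 0, 2]] j, by
    fin_cases j <;> simp [Matrix.det_fin_two]⟩

/-- the adjugate -/
def adj (A : M2) : M2 := ⟨A.1.adjugate, by
  rw [Matrix.det_adjugate, A.2]
  simp⟩

/-- a matrix of determinant `2` as an element of `GL(2, ℝ)` -/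
noncomputable def gl (A : M2) : GL (Fin 2) ℝ :=
  Matrix.GeneralLinearGroup.mkOfDetNeZero (A.1.map (Int.castRingHom ℝ)) (by
    have h : (A.1.map (Int.castRingHom ℝ)).det = 2 := by
      have := (RingHom.map_det (Int.castRingHom ℝ) A.1).symm
      rw [A.2] at this
      simpa using this
    rw [h]
    norm_num)

/-- the inner product -/
noncomputable def ip (k : ℤ) (f g : ℍ → ℂ) : ℂ := ∫ z : ℍ, (wt z).toReal • petersson k f g z

end Pool.Agent.Lib.MP_06b9d2_nt
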