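import Pool.Agent.Lib.MP_06b9d2_nt.MD.Slash

/-!
Module MD-Bnd (MP_06b9d2_nt, Maeda). The Petersson functions are bounded and continuous.

`pet_sq`: `‖petersson k F G z‖ ^ 2 = ‖petersson k F F z‖ * ‖petersson k G G z‖` (unfold `petersson`, `norm_mul`, `Complex.norm_conj`).
`pet_bnd`: `CuspFormClass.petersson_bounded_left k 𝒮ℒ f f`: `‖petersson k f f z‖ ≤ C₁`, the same for `g` with `C₂`. `petersson_slash k f f (gl A) z`: `‖petersson k (f ∣[k] gl A) (f ∣[k] gl A) z‖ = 2 ^ (k - 2) ‖petersson k f f (gl A • z)‖ ≤ 2 ^ (k - 2) C₁` (`det_gl`; `σ` preserves the norm: `UpperHalfPlane.norm_σ`). So by `pet_sq` both functions are at most `√(2 ^ (k - 2) C₁ C₂)`.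
`cont_slash`: `ModularForm.slash_def`: the composition with the continuous action, times `|det| ^ (k - 1)`, times `denom ^ (-k)` (continuous and nonzero); or `MDifferentiable.slash` and `.continuous`. Then `petersson_continuous`.
-/

namespace Pool.Agent.Lib.MP_06b9d2_nt

open UpperHalfPlane MeasureTheory
open scoped MatrixGroups ModularForm ENNReal

theorem cont_slash {k : ℤ} (f : CuspForm 𝒮ℒ k) (A : M2) :
    Continuous ((f : ℍ → ℂ) ∣[k] gl A) := by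
  exact ((CuspFormClass.holo f).slash k (gl A)).continuous

private theorem mdPetSq (k : ℤ) (F G : ℍ → ℂ) (z : ℍ) :
    ‖petersson k F G z‖ ^ 2 = ‖petersson k F F z‖ * ‖petersson k G G z‖ := by
  unfold petersson
  simp only [norm_mul, Complex.norm_conj]
  ring

private theorem mdSlashBnd (k : ℤ) (F : ℍ → ℂ) (A : M2) {C : ℝ}
    (hC : ∀ z, ‖petersson k F F z‖ ≤ C) (z : ℍ) :
    ‖petersson k (F ∣[k] gl A) (F ∣[k] gl A) z‖ ≤ 2 ^ (k - 2) * C := by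
  rw [petersson_slash, det_gl]
  rw [norm_mul, norm_σ, norm_zpow, Complex.norm_real, abs_two, Real.norm_eq_abs, abs_two]
  exact mul_le_mul_of_nonneg_left (hC _) (by positivity)

theorem pet_bnd {k : ℤ} (f g : CuspForm 𝒮ℒ k) : ∃ C : ℝ, ∀ (A : M2) (z : ℍ),
    ‖petersson k ((f : ℍ → ℂ) ∣[k] gl A) g z‖ ≤ C ∧
    ‖petersson k f ((g : ℍ → ℂ) ∣[k] gl A) z‖ ≤ C := by
  obtain ⟨C₁, h₁⟩ := CuspFormClass.petersson_bounded_left k 𝒮ℒ f f
  obtain ⟨C₂, h₂⟩ := CuspFormClass.petersson_bounded_left k 𝒮ℒ g g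
  have hC₁ : 0 ≤ C₁ := (norm_nonneg _).trans (h₁ UpperHalfPlane.I)
  have hC₂ : 0 ≤ C₂ := (norm_nonneg _).trans (h₂ UpperHalfPlane.I)
  have h2 : (0 : ℝ) ≤ 2 ^ (k - 2) := by positivity
  refine ⟨Real.sqrt (2 ^ (k - 2) * C₁ * C₂), fun A z => ⟨?_, ?_⟩⟩
  · apply Real.le_sqrt_of_sq_le
    rw [mdPetSq]
    exact mul_le_mul (mdSlashBnd k f A h₁ z) (h₂ z) (norm_nonneg _) (mul_nonneg h2 hC₁)
  · apply Real.le_sqrt_of_sq_le
    rw [mdPetSq]
    calc ‖petersson k f f z‖ * ‖petersson k ((g : ℍ → ℂ) ∣[k] gl A) ((g : ℍ → ℂ) ∣[k] gl A) z‖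
        ≤ C₁ * (2 ^ (k - 2) * C₂) :=
          mul_le_mul (h₁ z) (mdSlashBnd k g A h₂ z) (norm_nonneg _) hC₁
      _ = 2 ^ (k - 2) * C₁ * C₂ := by ring

end Pool.Agent.Lib.MP_06b9d2_nt
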