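import Pool.Agent.Lib.MP_06b9d2_nt.MD.Luc

/-!
Module MD-Val (MP_06b9d2_nt, Maeda). The divisibility of `lU n` by powers of `7`.

Modulo `7`: `4 lU n = n 4 ^ n` and `lV n = 2 * 4 ^ n` in `ZMod 7` (two step induction), so `7 ∤ lV n`, and `7 ∣ lU n` iff `7 ∣ n`.
Seven fold formula: with `U = lU n`, `V = lV n`: `64 lU (7 n) = 7 U (V ^ 6 - 35 V ^ 4 U ^ 2 + 147 V ^ 2 U ^ 4 - 49 U ^ 6)`. Proof: `lU_add`, `lV_add`: `lU (2 n) = U V`, `2 lV (2 n) = V ^ 2 - 7 U ^ 2`, `4 lU (3 n) = 3 U V ^ 2 - 7 U ^ 3`, `4 lV (3 n) = V ^ 3 - 21 U ^ 2 V`, `16 lU (6 n) = (4 lU (3 n)) (4 lV (3 n))`, `32 lV (6 n) = (4 lV (3 n)) ^ 2 - 7 (4 lU (3 n)) ^ 2`, `64 lU (7 n) = 2 (16 lU (6 n)) V + (32 lV (6 n)) U`.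
`dvd_lU`: induction on `s` for all `n ≥ 1` : `s = 0` trivial. `s + 1`: if `7 ∤ n` both sides are false. If `n = 7 m`: the bracket `B` is prime to `7` (`B ≡ V ^ 6`), `64` is prime to `7`, so `7 ^ (s + 1) ∣ lU (7 m)` iff `7 ^ (s + 1) ∣ 7 lU m` iff `7 ^ s ∣ lU m` iff `7 ^ s ∣ m` iff `7 ^ (s + 1) ∣ 7 m` (`IsCoprime.dvd_of_dvd_mul_left`, `mul_dvd_mul_iff_left`).
-/

namespace Pool.Agent.Lib.MP_06b9d2_nt

theorem not_dvd_lV (n : ℕ) : ¬ (7 : ℤ) ∣ lV n := by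
  intro h
  have h1 := lUV_norm n
  have h7 : Prime (7 : ℤ) := by norm_num
  have h2 : (7 : ℤ) ∣ 2 ^ (n + 2) := by
    rw [← h1]
    exact dvd_add (dvd_pow h (by norm_num)) (dvd_mul_right _ _)
  have h3 : (7 : ℤ) ∣ 2 := h7.dvd_of_dvd_pow h2
  norm_num at h3

/-- `4 lU n ≡ n 4 ^ n` modulo `7` -/
private theorem Val_mod (n : ℕ) : (7 : ℤ) ∣ 4 * lU n - n * 4 ^ n := by
  induction n using Nat.twoStepInduction with
  | zero => simp [lU]
  | one => simp [lU]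
  | more n h1 h2 =>
    have c : lU (n + 2) = lU (n + 1) - 2 * lU n := rfl
    obtain ⟨a, ha⟩ := h1
    obtain ⟨b, hb⟩ := h2
    refine ⟨b - 2 * a - 2 * (n + 2) * 4 ^ n, ?_⟩
    rw [c]
    push_cast at hb ⊢
    rw [pow_succ] at hb
    have e : (4 : ℤ) ^ (n + 2) = 16 * 4 ^ n := by ring
    rw [e]
    linear_combination hb - 2 * ha

private theorem Val_seven (n : ℕ) : (7 : ℤ) ∣ lU n ↔ 7 ∣ n := by
  have h7 : Prime (7 : ℤ) := by norm_num
  have h := Val_mod n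
  constructor
  · intro h1
    have h2 : (7 : ℤ) ∣ n * 4 ^ n := by
      have := dvd_sub (dvd_mul_of_dvd_right h1 4) h
      simpa using this
    rcases h7.dvd_or_dvd h2 with h3 | h3
    · exact_mod_cast h3
    · have h4 : (7 : ℤ) ∣ 4 := h7.dvd_of_dvd_pow h3
      norm_num at h4
  · intro h1
    have h0 : (7 : ℤ) ∣ (n : ℤ) := by exact_mod_cast h1
    have h2 : (7 : ℤ) ∣ 4 * lU n := by
      have := dvd_add h (dvd_mul_of_dvd_left h0 (4 ^ n))
      simpa using this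
    rcases h7.dvd_or_dvd h2 with h3 | h3
    · norm_num at h3
    · exact h3

private theorem Val_formula (n : ℕ) : 64 * lU (7 * n) = 7 * (lU n *
    (lV n ^ 6 - 35 * lV n ^ 4 * lU n ^ 2 + 147 * lV n ^ 2 * lU n ^ 4 - 49 * lU n ^ 6)) := by
  have a2 := lU_add n n
  have b2 := lV_add n n
  have a3 := lU_add n (n + n)
  have b3 := lV_add n (n + n)
  have a6 := lU_add (n + (n + n)) (n + (n + n))
  have b6 := lV_add (n + (n + n)) (n + (n + n))
  have a7 := lU_add (n + (n + n) + (n + (n + n))) n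
  have e7 : n + (n + n) + (n + (n + n)) + n = 7 * n := by ring
  rw [e7] at a7
  set U := lU n
  set V := lV n
  have c2 : lU (n + n) = U * V := by linarith
  have d2 : 2 * lV (n + n) = V ^ 2 - 7 * U ^ 2 := by linarith
  have c3 : 4 * lU (n + (n + n)) = 3 * U * V ^ 2 - 7 * U ^ 3 := by
    rw [c2] at a3
    linear_combination 2 * a3 + U * d2
  have d3 : 4 * lV (n + (n + n)) = V ^ 3 - 21 * U ^ 2 * V := by
    rw [c2] at b3
    linear_combination 2 * b3 + V * d2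
  have c6 : 16 * lU (n + (n + n) + (n + (n + n))) =
      (3 * U * V ^ 2 - 7 * U ^ 3) * (V ^ 3 - 21 * U ^ 2 * V) := by
    rw [← c3, ← d3]
    linear_combination 8 * a6
  have d6 : 32 * lV (n + (n + n) + (n + (n + n))) =
      (V ^ 3 - 21 * U ^ 2 * V) ^ 2 - 7 * (3 * U * V ^ 2 - 7 * U ^ 3) ^ 2 := by
    rw [← c3, ← d3]
    linear_combination 16 * b6
  linear_combination 32 * a7 + 2 * V * c6 + U * d6

theorem dvd_lU (s n : ℕ) (hn : 1 ≤ n) : (7 : ℤ) ^ s ∣ lU n ↔ 7 ^ s ∣ n := by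
  have h7 : Prime (7 : ℤ) := by norm_num
  induction s generalizing n with
  | zero => simp
  | succ s ih =>
    by_cases hd : 7 ∣ n
    · obtain ⟨m, rfl⟩ := hd
      have hm : 1 ≤ m := by omega
      set B : ℤ := lV m ^ 6 - 35 * lV m ^ 4 * lU m ^ 2 + 147 * lV m ^ 2 * lU m ^ 4 -
        49 * lU m ^ 6 with hB
      have hf : 64 * lU (7 * m) = 7 * (lU m * B) := Val_formula m
      have hBd : ¬ (7 : ℤ) ∣ B := by
        intro h
        apply not_dvd_lV m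
        apply h7.dvd_of_dvd_pow (n := 6)
        have e : lV m ^ 6 = B + 7 * (5 * lV m ^ 4 * lU m ^ 2 - 21 * lV m ^ 2 * lU m ^ 4 +
            7 * lU m ^ 6) := by
          rw [hB]
          ring
        rw [e]
        exact dvd_add h (dvd_mul_right _ _)
      have hcB : IsCoprime ((7 : ℤ) ^ s) B :=
        ((Prime.coprime_iff_not_dvd h7).2 hBd).pow_left
      have hc64 : IsCoprime ((7 : ℤ) ^ (s + 1)) 64 := by
        apply IsCoprime.pow_left
        rw [Prime.coprime_iff_not_dvd h7]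
        norm_num
      have e1 : (7 : ℤ) ^ (s + 1) ∣ lU (7 * m) ↔ (7 : ℤ) ^ (s + 1) ∣ 64 * lU (7 * m) :=
        ⟨fun h => dvd_mul_of_dvd_right h 64, fun h => hc64.dvd_of_dvd_mul_left h⟩
      have e2 : (7 : ℤ) ^ (s + 1) ∣ 7 * (lU m * B) ↔ (7 : ℤ) ^ s ∣ lU m * B := by
        rw [pow_succ']
        exact mul_dvd_mul_iff_left (by norm_num)
      have e3 : (7 : ℤ) ^ s ∣ lU m * B ↔ (7 : ℤ) ^ s ∣ lU m :=
        ⟨fun h => hcB.dvd_of_dvd_mul_right h, fun h => dvd_mul_of_dvd_left h B⟩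
      have e4 : 7 ^ (s + 1) ∣ 7 * m ↔ 7 ^ s ∣ m := by
        rw [pow_succ']
        exact Nat.mul_dvd_mul_iff_left (by norm_num)
      rw [← hf] at e2
      exact e1.trans (e2.trans (e3.trans ((ih m hm).trans e4.symm)))
    · constructor
      · intro h
        exfalso
        exact hd ((Val_seven n).1 (dvd_trans (dvd_pow_self _ (Nat.succ_ne_zero s)) h))
      · intro h
        exfalso
        exact hd (dvd_trans (dvd_pow_self _ (Nat.succ_ne_zero s)) h)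

end Pool.Agent.Lib.MP_06b9d2_nt
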