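import Pool.Agent.Lib.MP_06b9d2_nt.MD.Frob
import Pool.Agent.Lib.MP_06b9d2_nt.MD.Val

/-!
Module MD-Coef (MP_06b9d2_nt, Maeda). The coefficients of `q ^ (2 ^ j)` of `Δ ^ N` modulo `7`.

`Fz_tri`: in the definition of `Fz` only `u' = u` has `u' (u' + 1) = 2 (u (u + 1) / 2) = u (u + 1)` (`Nat.even_mul_succ_self`), and `u ≤ u (u + 1) / 2` (so `u` lies in the range). `Fz_ne`: `Finset.exists_ne_zero_of_sum_ne_zero`.
`coef_zero`: if `2 ^ j < Ns s`: `coef_small`. Otherwise `coef_formula`: suppose the term of `(i, l)`, `i + l = 2 ^ j - Ns s`, is not `0`. Then `u (u + 1) = 2 i`, `P ∣ l`, `v (v + 1) = 2 (l / P)` for some `u, v` (`P = 7 ^ (2 s + 1)`), and with `eight_Ns`: `(2 u + 1) ^ 2 + P (2 v + 1) ^ 2 = 8 i + 1 + 8 l + P = 8 * 2 ^ j = 2 ^ ((j + 1) + 2)`, and `P (2 v + 1) ^ 2 = 7 (7 ^ s (2 v + 1)) ^ 2`. `lUV_unique (j + 1)`: `(7 ^ s (2 v + 1)) ^ 2 = lU (j + 1) ^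 2`, so `7 ^ s ∣ lU (j + 1)` and by `dvd_lU` `7 ^ s ∣ j + 1`: contradiction to `j + 1 < 7 ^ s`.
`coef_ne`: `n = j + 1 = 7 ^ s`. `dvd_lU s n`, `dvd_lU (s + 1) n` (`7 ^ (s + 1) ∤ 7 ^ s`), `lUV_odd`: `|lU n| = 7 ^ s (2 v₀ + 1)`, `|lV n| = 2 u₀ + 1` for some `u₀, v₀`, `7 ∤ 2 v₀ + 1`, `7 ∤ 2 u₀ + 1` (`not_dvd_lV`). `lUV_norm`: `(2 u₀ + 1) ^ 2 + P (2 v₀ + 1) ^ 2 = 8 * 2 ^ j`, so with `i₀ = u₀ (u₀ + 1) / 2`, `l₀ = P (v₀ (v₀ + 1) / 2)`: `Ns s + i₀ + l₀ = 2 ^ j`. In `coef_formula` every other term is `0` (as above: `(2 u + 1) ^ 2 = lV n ^ 2 = (2 u₀ + 1) ^ 2` and `(2 v + 1) ^ 2 = (2 v₀ + 1) ^ 2`, so `u = u₀`, `v = v₀`, `i = i₀`, `l = l₀`): `Finset.sum_eq_single (i₀, l₀)`; the value is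
`(-1) ^ u₀ (2 u₀ + 1) * ((-1) ^ v₀ (2 v₀ + 1)) ≠ 0` in `ZMod 7`.
-/

namespace Pool.Agent.Lib.MP_06b9d2_nt

open Pool.Agent.L1

theorem Fz_tri (u : ℕ) : PowerSeries.coeff (u * (u + 1) / 2) Fz = (-1) ^ u * (2 * (u : ℤ) + 1) := by
  obtain ⟨m, hm⟩ : ∃ m, u * (u + 1) = 2 * m := (Nat.even_mul_succ_self u).two_dvd
  rw [hm, Nat.mul_div_cancel_left _ two_pos, Fz, PowerSeries.coeff_mk]
  rw [Finset.sum_eq_single u]
  · rw [if_pos hm]
  · intro b _ hb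
    rw [if_neg]
    intro h
    apply hb
    have h2 : b * (b + 1) = u * (u + 1) := by rw [h, hm]
    rcases lt_trichotomy b u with h3 | h3 | h3
    · nlinarith
    · exact h3
    · nlinarith
  · intro h
    exfalso
    apply h
    rw [Finset.mem_range]
    rcases Nat.eq_zero_or_pos u with h0 | h0
    · omega
    · nlinarith

theorem Fz_ne (m : ℕ) (h : PowerSeries.coeff m Fz ≠ 0) : ∃ u : ℕ, u * (u + 1) = 2 * m := by
  rw [Fz, PowerSeries.coeff_mk] at h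
  obtain ⟨u, _, hu⟩ := Finset.exists_ne_zero_of_sum_ne_zero h
  refine ⟨u, ?_⟩
  by_contra hc
  exact hu (if_neg hc)

private theorem term_ne (P i l : ℕ) (h : ((PowerSeries.coeff i Fz : ℤ) : ZMod 7) *
        (if P ∣ l then ((PowerSeries.coeff (l / P) Fz : ℤ) : ZMod 7) else 0) ≠ 0) :
    ∃ u v : ℕ, u * (u + 1) = 2 * i ∧ P ∣ l ∧ v * (v + 1) = 2 * (l / P) := by
  have h1 := left_ne_zero_of_mul h
  have h2 := right_ne_zero_of_mul h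
  have h3 : P ∣ l := by
    by_contra hc
    exact h2 (if_neg hc)
  rw [if_pos h3] at h2
  obtain ⟨u, hu⟩ := Fz_ne i (fun hc => h1 (by rw [hc, Int.cast_zero]))
  obtain ⟨v, hv⟩ := Fz_ne (l / P) (fun hc => h2 (by rw [hc, Int.cast_zero]))
  exact ⟨u, v, hu, h3, hv⟩

private theorem key (s i l u v : ℕ) (hu : u * (u + 1) = 2 * i) (hl : 7 ^ (2 * s + 1) ∣ l)
    (hv : v * (v + 1) = 2 * (l / 7 ^ (2 * s + 1))) :
    (2 * (u : ℤ) + 1) ^ 2 + 7 * ((7 : ℤ) ^ s * (2 * (v : ℤ) + 1)) ^ 2 =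
      8 * ((Ns s + i + l : ℕ) : ℤ) := by
  obtain ⟨w, hw⟩ := hl
  have hP : 0 < 7 ^ (2 * s + 1) := by positivity
  have hw2 : l / 7 ^ (2 * s + 1) = w := by
    rw [hw, Nat.mul_div_cancel_left _ hP]
  rw [hw2] at hv
  have h8 := eight_Ns s
  have hu' : (u : ℤ) * (u + 1) = 2 * i := by exact_mod_cast hu
  have hv' : (v : ℤ) * (v + 1) = 2 * w := by exact_mod_cast hv
  have h8' : 8 * (Ns s : ℤ) = 1 + 7 ^ (2 * s + 1) := by exact_mod_cast h8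
  have hw' : (l : ℤ) = 7 ^ (2 * s + 1) * w := by exact_mod_cast hw
  have hp : (7 : ℤ) ^ (2 * s + 1) = 7 * ((7 : ℤ) ^ s) ^ 2 := by
    rw [← pow_mul, pow_succ, mul_comm s 2]
    ring
  push_cast
  rw [hw', hp]
  rw [hp] at h8'
  linear_combination 4 * hu' + 28 * ((7 : ℤ) ^ s) ^ 2 * hv' - h8'

private theorem odd_pow_mul (s v : ℕ) : Odd ((7 : ℤ) ^ s * (2 * (v : ℤ) + 1)) := by
  apply Odd.mul
  · apply Odd.pow
    decide
  · exact ⟨v, rfl⟩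

theorem coef_zero (s j : ℕ) (hj : j + 1 < 7 ^ s) :
    ((PowerSeries.coeff (2 ^ j) (Delz ^ Ns s) : ℤ) : ZMod 7) = 0 := by
  rcases lt_or_ge (2 ^ j) (Ns s) with h | h
  · rw [coef_small s _ h, Int.cast_zero]
  rw [coef_formula s _ h]
  apply Finset.sum_eq_zero
  intro p hp
  by_contra hc
  obtain ⟨u, v, hu, hl, hv⟩ := term_ne _ _ _ hc
  have hk := key s p.1 p.2 u v hu hl hv
  have hsum : Ns s + p.1 + p.2 = 2 ^ j := by
    have := Finset.HasAntidiagonal.mem_antidiagonal.1 hp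
    omega
  rw [hsum] at hk
  have h1 := lUV_unique (j + 1) (by omega) (2 * (u : ℤ) + 1) ((7 : ℤ) ^ s * (2 * (v : ℤ) + 1))
    ⟨u, rfl⟩ (odd_pow_mul s v) (by
      rw [hk]
      push_cast
      ring)
  have h2 : (7 : ℤ) ^ s ∣ lU (j + 1) := by
    rcases sq_eq_sq_iff_eq_or_eq_neg.1 h1.2 with h3 | h3
    · rw [← h3]
      exact Dvd.intro _ rfl
    · have : lU (j + 1) = -((7 : ℤ) ^ s * (2 * (v : ℤ) + 1)) := by linarith
      rw [this, dvd_neg]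
      exact Dvd.intro _ rfl
  have h3 := (dvd_lU s (j + 1) (by omega)).1 h2
  have h4 := Nat.le_of_dvd (by omega) h3
  omega

private theorem eq_of_sq (u u' : ℕ) (h : (2 * (u : ℤ) + 1) ^ 2 = (2 * (u' : ℤ) + 1) ^ 2) : u = u' := by
  have := (sq_eq_sq₀ (by positivity) (by positivity)).1 h
  omega

private theorem exists_abs (a : ℤ) (ha : Odd a) : ∃ v : ℕ, a ^ 2 = (2 * (v : ℤ) + 1) ^ 2 := by
  obtain ⟨k, hk⟩ := (Int.natAbs_odd.2 ha)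
  refine ⟨k, ?_⟩
  rw [← Int.natAbs_sq a, hk]
  push_cast
  ring

theorem coef_ne (s j : ℕ) (hj : j + 1 = 7 ^ s) :
    ((PowerSeries.coeff (2 ^ j) (Delz ^ Ns s) : ℤ) : ZMod 7) ≠ 0 := by
  have hF : Fact (Nat.Prime 7) := ⟨by norm_num⟩
  have hn : 1 ≤ j + 1 := by omega
  obtain ⟨hoU, hoV⟩ := lUV_odd (j + 1) hn
  obtain ⟨c, hc⟩ := (dvd_lU s (j + 1) hn).2 (by rw [hj])
  have hc7 : ¬ (7 : ℤ) ∣ c := by
    rintro ⟨d, hd⟩
    have h1 : (7 : ℤ) ^ (s + 1) ∣ lU (j + 1) := ⟨d, by rw [hc, hd]; ring⟩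
    have h2 := (dvd_lU (s + 1) (j + 1) hn).1 h1
    rw [hj] at h2
    have h3 := Nat.le_of_dvd (by positivity) h2
    have h4 : 0 < 7 ^ s := by positivity
    rw [pow_succ] at h3
    omega
  have hV7 := not_dvd_lV (j + 1)
  have hoc : Odd c := by
    rw [hc] at hoU
    exact (Int.odd_mul.1 hoU).2
  obtain ⟨u₀, hu₀⟩ := exists_abs _ hoV
  obtain ⟨v₀, hv₀⟩ := exists_abs _ hoc
  have h7 : Prime (7 : ℤ) := by norm_num
  have hu7 : ¬ (7 : ℤ) ∣ 2 * (u₀ : ℤ) + 1 := by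
    intro h
    have h1 : (7 : ℤ) ∣ lV (j + 1) ^ 2 := by
      rw [hu₀]
      exact dvd_pow h two_ne_zero
    exact hV7 (h7.dvd_of_dvd_pow h1)
  have hv7 : ¬ (7 : ℤ) ∣ 2 * (v₀ : ℤ) + 1 := by
    intro h
    have h1 : (7 : ℤ) ∣ c ^ 2 := by
      rw [hv₀]
      exact dvd_pow h two_ne_zero
    exact hc7 (h7.dvd_of_dvd_pow h1)
  obtain ⟨i₀, hi₀⟩ : ∃ m, u₀ * (u₀ + 1) = 2 * m := (Nat.even_mul_succ_self u₀).two_dvd
  obtain ⟨w₀, hw₀⟩ : ∃ m, v₀ * (v₀ + 1) = 2 * m := (Nat.even_mul_succ_self v₀).two_dvd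
  have hP : 0 < 7 ^ (2 * s + 1) := by positivity
  have hdiv : 7 ^ (2 * s + 1) * w₀ / 7 ^ (2 * s + 1) = w₀ := Nat.mul_div_cancel_left _ hP
  have hk₀ := key s i₀ (7 ^ (2 * s + 1) * w₀) u₀ v₀ hi₀ (Dvd.intro _ rfl) (by rw [hdiv]; exact hw₀)
  have hnorm := lUV_norm (j + 1)
  have hU2 : lU (j + 1) ^ 2 = ((7 : ℤ) ^ s * (2 * (v₀ : ℤ) + 1)) ^ 2 := by
    rw [hc, mul_pow, mul_pow, hv₀]
  rw [hu₀, hU2, hk₀] at hnorm
  have hsum₀ : Ns s + i₀ + 7 ^ (2 * s + 1) * w₀ = 2 ^ j := by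
    have h1 : (8 : ℤ) * ((Ns s + i₀ + 7 ^ (2 * s + 1) * w₀ : ℕ) : ℤ) = 8 * ((2 ^ j : ℕ) : ℤ) := by
      rw [hnorm]
      push_cast
      ring
    have h2 := mul_left_cancel₀ (by norm_num : (8 : ℤ) ≠ 0) h1
    exact_mod_cast h2
  have hle : Ns s ≤ 2 ^ j := by omega
  rw [coef_formula s _ hle, Finset.sum_eq_single (i₀, 7 ^ (2 * s + 1) * w₀)]
  · have hi : i₀ = u₀ * (u₀ + 1) / 2 := by omega
    have hw : w₀ = v₀ * (v₀ + 1) / 2 := by omega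
    have e1 : PowerSeries.coeff i₀ Fz = (-1) ^ u₀ * (2 * (u₀ : ℤ) + 1) := by rw [hi, Fz_tri]
    have e2 : PowerSeries.coeff w₀ Fz = (-1) ^ v₀ * (2 * (v₀ : ℤ) + 1) := by rw [hw, Fz_tri]
    simp only
    rw [if_pos (Dvd.intro _ rfl), hdiv, e1, e2]
    rw [← Int.cast_mul]
    intro h0
    rw [ZMod.intCast_zmod_eq_zero_iff_dvd] at h0
    have h0' : (7 : ℤ) ∣ (-1) ^ u₀ * (2 * (u₀ : ℤ) + 1) * ((-1) ^ v₀ * (2 * (v₀ : ℤ) + 1)) := by
      exact_mod_cast h0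
    rcases h7.dvd_or_dvd h0' with h | h
    · rcases h7.dvd_or_dvd h with h | h
      · have := h7.dvd_of_dvd_pow h
        norm_num at this
      · exact hu7 h
    · rcases h7.dvd_or_dvd h with h | h
      · have := h7.dvd_of_dvd_pow h
        norm_num at this
      · exact hv7 h
  · intro p hp hne
    by_contra hcon
    obtain ⟨u, v, hu, hl, hv⟩ := term_ne _ _ _ hcon
    have hk := key s p.1 p.2 u v hu hl hv
    have hsum : Ns s + p.1 + p.2 = 2 ^ j := by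
      have := Finset.HasAntidiagonal.mem_antidiagonal.1 hp
      omega
    rw [hsum] at hk
    have h1 := lUV_unique (j + 1) (by omega) (2 * (u : ℤ) + 1)
      ((7 : ℤ) ^ s * (2 * (v : ℤ) + 1)) ⟨u, rfl⟩ (odd_pow_mul s v) (by
        rw [hk]
        push_cast
        ring)
    have hu' : u = u₀ := eq_of_sq u u₀ (by rw [h1.1, hu₀])
    have hv' : v = v₀ := by
      apply eq_of_sq v v₀
      have h2 := h1.2
      rw [hU2, mul_pow, mul_pow] at h2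
      exact mul_left_cancel₀ (by positivity) h2
    apply hne
    obtain ⟨w, hw⟩ := hl
    have hw2 : p.2 / 7 ^ (2 * s + 1) = w := by
      rw [hw, Nat.mul_div_cancel_left _ hP]
    rw [hw2, hv', hw₀] at hv
    have hww : w = w₀ := by omega
    rw [hu', hi₀] at hu
    apply Prod.ext
    · show p.1 = i₀
      omega
    · show p.2 = _
      rw [hw, hww]
  · intro h
    exfalso
    apply h
    rw [Finset.HasAntidiagonal.mem_antidiagonal]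
    simp only
    omega

end Pool.Agent.Lib.MP_06b9d2_nt
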