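import Pool.Agent.Lib.MP_06b9d2_nt.MD.HeckeQ

/-!
Module MD-Crit (MP_06b9d2_nt, Maeda). The criterion: many distinct powers of `2` give many independent `T ^ i f`.

Write `c_m(g)` for the coefficient `m` of the `q`-expansion (linear in `g`). Define integers `b n m`: `b 0 m = coeff m a`, `b (n + 1) m = b n (2 m) + 2 ^ (k - 1).toNat * (if 2 ∣ m then b n (m / 2) else 0)`; by `hecke_q` and induction `c_m(T ^ n f) = b n m` (`2 ^ (k - 1) = 2 ^ (k - 1).toNat` because `1 ≤ k`). By induction on `n`: for all `i` with `n + i < J` `p ∣ b n (2 ^ i)`, and for `n + i = J` `b n (2 ^ i) ≡ coeff (2 ^ J) a` modulo `p` (for `i ≥ 1` the second term is `b n (2 ^ (i - 1))`, `n + (i - 1) < J`; for `i = 0` it is `0` as `2 ∤ 1`). Put `h n = b n 1`: `p ∣ h n` for `n < J`, `p ∤ h J`.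
Suppose `(minpoly ℂ T).natDegree ≤ J`. With `x i = (minpoly ℂ T).coeff i`: `∑_{i ≤ J} x_i T ^ i = 0`, `x ≠ 0` (`minpoly` is monic, because `T` is integral: `fin_cusp`). The integral matrix `M i j = h (i + (J - j))`, `i, j : Fin (J + 1)`: over `ZMod p` it is lower triangular (`i < j` gives `i + (J - j) < J`) with diagonal `h J ≠ 0`, so its determinant is not `0` (`Matrix.det_of_lowerTriangular`), so `M.det ≠ 0` in `ℤ` (`Int.cast` / `RingHom.map_det`) and the determinant over `ℂ` is not `0`. But `∑_i x_i h (i + (J - j)) = c_1(T ^ (J - j) (∑_i x_i T ^ i f)) = 0` for all `j`, i.e. `Matrix.vecMul x M = 0`: contradiction (`Matrix.eq_zero_of_vecMul_eq_zero`).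
-/

namespace Pool.Agent.Lib.MP_06b9d2_nt

open UpperHalfPlane
open scoped MatrixGroups ModularForm

/-- the coefficients of the iterates of the Hecke operator -/
private noncomputable def critB (a : PowerSeries ℤ) (e : ℕ) : ℕ → ℕ → ℤ
  | 0, m => PowerSeries.coeff m a
  | (n + 1), m => critB a e n (2 * m) + 2 ^ e * (if 2 ∣ m then critB a e n (m / 2) else 0)

private theorem critB_coeff {k : ℤ} (hk : 1 ≤ k) {T : CuspForm 𝒮ℒ k →ₗ[ℂ] CuspForm 𝒮ℒ k}
    (hT : IsHecke k 2 T) (f : CuspForm 𝒮ℒ k) (a : PowerSeries ℤ)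
    (ha : PowerSeries.map (Int.castRingHom ℂ) a = qExpansion 1 f) (n : ℕ) :
    ∀ m : ℕ, (qExpansion 1 ((T ^ n) f)).coeff m = ((critB a (k - 1).toNat n m : ℤ) : ℂ) := by
  induction n with
  | zero =>
    intro m
    rw [pow_zero]
    show (qExpansion 1 f).coeff m = _
    rw [← ha, PowerSeries.coeff_map]
    rfl
  | succ n ih =>
    intro m
    rw [pow_succ']
    show (qExpansion 1 (T ((T ^ n) f))).coeff m = _
    rw [hecke_q hT, ih (2 * m), ih (m / 2)]
    have he : (2 : ℂ) ^ (k - 1) = (2 : ℂ) ^ (k - 1).toNat := by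
      have : k - 1 = (((k - 1).toNat : ℕ) : ℤ) := by omega
      conv_lhs => rw [this]
      rw [zpow_natCast]
    rw [he]
    show _ = ((critB a (k - 1).toNat n (2 * m) + 2 ^ (k - 1).toNat *
      (if 2 ∣ m then critB a (k - 1).toNat n (m / 2) else 0) : ℤ) : ℂ)
    push_cast
    rfl

private theorem critB_mod (a : PowerSeries ℤ) (e : ℕ) (p : ℕ) (J : ℕ)
    (h0 : ∀ j < J, ((PowerSeries.coeff (2 ^ j) a : ℤ) : ZMod p) = 0) (n : ℕ) :
    ∀ i : ℕ, (n + i < J → ((critB a e n (2 ^ i) : ℤ) : ZMod p) = 0) ∧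
      (n + i = J → ((critB a e n (2 ^ i) : ℤ) : ZMod p) =
        ((PowerSeries.coeff (2 ^ J) a : ℤ) : ZMod p)) := by
  induction n with
  | zero =>
    intro i
    refine ⟨fun h => ?_, fun h => ?_⟩
    · show ((PowerSeries.coeff (2 ^ i) a : ℤ) : ZMod p) = 0
      exact h0 i (by omega)
    · have : i = J := by omega
      subst this
      rfl
  | succ n ih =>
    intro i
    have e1 : critB a e (n + 1) (2 ^ i) = critB a e n (2 ^ (i + 1)) +
        2 ^ e * (if 2 ∣ 2 ^ i then critB a e n (2 ^ i / 2) else 0) := by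
      show critB a e n (2 * 2 ^ i) + _ = _
      rw [pow_succ, mul_comm 2 (2 ^ i)]
    have e2 : n + 1 + i ≤ J →
        ((if 2 ∣ 2 ^ i then critB a e n (2 ^ i / 2) else 0 : ℤ) : ZMod p) = 0 := by
      intro h
      rcases Nat.eq_zero_or_pos i with h1 | h1
      · subst h1
        rw [if_neg (by norm_num)]
        simp
      · obtain ⟨j, rfl⟩ : ∃ j, i = j + 1 := ⟨i - 1, by omega⟩
        rw [if_pos (by rw [pow_succ]; exact dvd_mul_left 2 _), pow_succ,
          Nat.mul_div_cancel _ (by norm_num)]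
        exact (ih j).1 (by omega)
    refine ⟨fun h => ?_, fun h => ?_⟩
    · rw [e1, Int.cast_add, Int.cast_mul, e2 (by omega), mul_zero, add_zero]
      exact (ih (i + 1)).1 (by omega)
    · rw [e1, Int.cast_add, Int.cast_mul, e2 (by omega), mul_zero, add_zero]
      exact (ih (i + 1)).2 (by omega)

/-- the first coefficient as a linear map -/
private noncomputable def critC (k : ℤ) : CuspForm 𝒮ℒ k →ₗ[ℂ] ℂ where
  toFun g := (qExpansion 1 g).coeff 1
  map_add' f g := by
    rw [FunLike.coe_add, ModularForm.qExpansion_add one_pos one_mem_strictPeriods_SL, map_add]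
  map_smul' c f := by
    rw [FunLike.coe_smul, ModularForm.qExpansion_smul one_pos one_mem_strictPeriods_SL,
      PowerSeries.coeff_smul]
    rfl

theorem crit {k : ℤ} (hk : 1 ≤ k) {T : CuspForm 𝒮ℒ k →ₗ[ℂ] CuspForm 𝒮ℒ k} (hT : IsHecke k 2 T)
    (f : CuspForm 𝒮ℒ k) (a : PowerSeries ℤ)
    (ha : PowerSeries.map (Int.castRingHom ℂ) a = qExpansion 1 f) (p : ℕ) [Fact p.Prime] (J : ℕ)
    (h0 : ∀ j < J, ((PowerSeries.coeff (2 ^ j) a : ℤ) : ZMod p) = 0)
    (h1 : ((PowerSeries.coeff (2 ^ J) a : ℤ) : ZMod p) ≠ 0) :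
    J + 1 ≤ (minpoly ℂ T).natDegree := by
  by_contra hlt
  have hdeg : (minpoly ℂ T).natDegree < J + 1 := not_le.1 hlt
  have hfin : Module.Finite ℂ (CuspForm 𝒮ℒ k) := fin_cusp k
  have hint : IsIntegral ℂ T := Algebra.IsIntegral.isIntegral T
  have hmonic := minpoly.monic hint
  set e := (k - 1).toNat with he
  let M : Matrix (Fin (J + 1)) (Fin (J + 1)) ℤ := fun i j => critB a e ((i : ℕ) + (J - (j : ℕ))) 1
  -- the determinant modulo `p`
  have hdetp : (M.map (Int.castRingHom (ZMod p))).det ≠ 0 := by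
    rw [Matrix.det_of_isLowerTriangular]
    · rw [Finset.prod_ne_zero_iff]
      intro i _
      have h2 := (critB_mod a e p J h0 ((i : ℕ) + (J - (i : ℕ))) 0).2 (by
        have := i.2
        omega)
      show ((critB a e ((i : ℕ) + (J - (i : ℕ))) 1 : ℤ) : ZMod p) ≠ 0
      rw [pow_zero] at h2
      rw [h2]
      exact h1
    · intro i j hij
      have hij' : i < j := hij
      have h2 := (critB_mod a e p J h0 ((i : ℕ) + (J - (j : ℕ))) 0).1 (by
        have h3 : (i : ℕ) < j := hij'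
        have := j.2
        omega)
      rw [pow_zero] at h2
      exact h2
  have hdet : M.det ≠ 0 := by
    intro h
    apply hdetp
    have := RingHom.map_det (Int.castRingHom (ZMod p)) M
    rw [h, map_zero] at this
    exact this.symm
  have hdetC : (M.map (Int.castRingHom ℂ)).det ≠ 0 := by
    have h2 := RingHom.map_det (Int.castRingHom ℂ) M
    have h3 : (M.map (Int.castRingHom ℂ)).det = ((M.det : ℤ) : ℂ) := h2.symm
    rw [h3]
    exact_mod_cast hdet
  -- the relation
  let x : Fin (J + 1) → ℂ := fun i => (minpoly ℂ T).coeff i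
  have hrel : ∑ i ∈ Finset.range (J + 1), (minpoly ℂ T).coeff i • T ^ i = 0 := by
    rw [← Polynomial.aeval_eq_sum_range' hdeg]
    exact minpoly.aeval ℂ T
  have hv : Matrix.vecMul x (M.map (Int.castRingHom ℂ)) = 0 := by
    funext j
    have h2 := congrArg (fun S : CuspForm 𝒮ℒ k →ₗ[ℂ] CuspForm 𝒮ℒ k =>
      critC k (S ((T ^ (J - (j : ℕ))) f))) hrel
    simp only [LinearMap.sum_apply, LinearMap.smul_apply, map_sum, map_smul, LinearMap.zero_apply,
      map_zero] at h2
    rw [Finset.sum_range] at h2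
    show ∑ i, x i * (M.map (Int.castRingHom ℂ)) i j = 0
    refine Eq.trans (Finset.sum_congr rfl fun i _ => ?_) h2
    rw [smul_eq_mul]
    congr 1
    have h3 : (T ^ (i : ℕ)) ((T ^ (J - (j : ℕ))) f) = (T ^ ((i : ℕ) + (J - (j : ℕ)))) f := by
      rw [pow_add]
      rfl
    rw [h3]
    exact (critB_coeff hk hT f a ha ((i : ℕ) + (J - (j : ℕ))) 1).symm
  have hx := Matrix.eq_zero_of_vecMul_eq_zero hdetC hv
  have h2 := congrFun hx ⟨(minpoly ℂ T).natDegree, hdeg⟩
  have h3 : (minpoly ℂ T).coeff (minpoly ℂ T).natDegree = 1 := hmonic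
  have h4 : (minpoly ℂ T).coeff (minpoly ℂ T).natDegree = 0 := h2
  rw [h3] at h4
  exact one_ne_zero h4

end Pool.Agent.Lib.MP_06b9d2_nt
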