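import Pool.Agent.Lib.MP_06b9d2_nt.MD.Jac
import Pool.Agent.Lib.MP_72e75e_nt.DeltaSeries

/-!
Module MD-DelF (MP_06b9d2_nt, Maeda). The discriminant: `Δ = X * Fz ^ 8`.

`Pool/Agent/Lib/MP_72e75e_nt/DeltaSeries.lean` (namespace `SixReg`) has `DeltaZ = X * (pentagonalSeries ℤ) ^ 24` and that its image over `ℂ` is the `q`-expansion of the discriminant; `Pool/Agent/Lib/L1/Delta.lean` has `map_Delz` for `Delz`; `PowerSeries.map (Int.castRingHom ℂ)` is injective (`Pool.Agent.L1.map_injective_C`). Then `jacobi`.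
-/

namespace Pool.Agent.Lib.MP_06b9d2_nt

open Pool.Agent.L1 in
theorem Delz_eq_F : Delz = PowerSeries.X * Fz ^ 8 := by
  have h : Delz = SixReg.DeltaZ := by
    apply map_injective_C
    rw [map_Delz, SixReg.qExpansion_discriminant]
  rw [h, SixReg.DeltaZ, ← jacobi, ← pow_mul]

end Pool.Agent.Lib.MP_06b9d2_nt
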