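import Pool.Agent.Lib.MP_06b9d2_nt.MD.DelF

/-!
Module MD-Frob (MP_06b9d2_nt, Maeda). The coefficients of `Δ ^ N` modulo `7`, `N = Ns s`, `8 N = 1 + P`, `P = 7 ^ (2 s + 1)`.

`eight_Ns`: `7 ^ (2 s + 1) = 7 * 49 ^ s ≡ 7` modulo `8` (`Nat.pow_mod`), so `8 ∣ 1 + 7 ^ (2 s + 1)`.
`Delz ^ N = X ^ N * (Fz * Fz ^ P)` (`Delz_eq_F`, `Fz ^ (8 N) = Fz ^ (1 + P)`). Over `ZMod 7`: `G ^ P = PowerSeries.expand P _ G` for `G = PowerSeries.map (Int.castRingHom (ZMod 7)) Fz`: see the lemma `coeff_sq_zmod2` in `Pool/Agent/Lib/MP_72e75e_nt/DeltaSeries.lean` (`MvPowerSeries.map_frobenius_expand`, `ZMod.frobenius_zmod`) for the exponent `2`; here induction on the exponent of `7`, or: show by induction on `e` that `coeff m (G ^ (7 ^ e)) = if 7 ^ e ∣ m then coeff (m / 7 ^ e) G else 0`.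
Then `PowerSeries.coeff_X_pow_mul'` and `PowerSeries.coeff_mul`.
-/

namespace Pool.Agent.Lib.MP_06b9d2_nt

open Pool.Agent.L1

private theorem frob_p (p : ℕ) [hp : Fact p.Prime] (f : PowerSeries (ZMod p)) (n : ℕ) :
    PowerSeries.coeff n (f ^ p) = if p ∣ n then PowerSeries.coeff (n / p) f else 0 := by
  have h := @MvPowerSeries.map_frobenius_expand Unit (ZMod p) _ p hp.out.ne_zero _ f
  have h2 : f ^ p = PowerSeries.expand p hp.out.ne_zero f := by
    rw [ZMod.frobenius_zmod] at h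
    rw [MvPowerSeries.map_id] at h
    exact h.symm
  rw [h2, PowerSeries.coeff_expand]

private theorem frob_pe (p : ℕ) [hp : Fact p.Prime] (f : PowerSeries (ZMod p)) (e n : ℕ) :
    PowerSeries.coeff n (f ^ p ^ e) =
      if p ^ e ∣ n then PowerSeries.coeff (n / p ^ e) f else 0 := by
  induction e generalizing n with
  | zero => simp
  | succ e ih =>
    rw [pow_succ, pow_mul, frob_p]
    by_cases h : p ∣ n
    · obtain ⟨m, rfl⟩ := h
      rw [if_pos (dvd_mul_right _ _), Nat.mul_div_cancel_left _ hp.out.pos, ih,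
        mul_comm (p ^ e) p]
      have e1 : p * p ^ e ∣ p * m ↔ p ^ e ∣ m := Nat.mul_dvd_mul_iff_left hp.out.pos
      simp only [e1, Nat.mul_div_mul_left _ _ hp.out.pos]
    · rw [if_neg h, if_neg]
      intro h2
      exact h ((dvd_pow_self p (Nat.succ_ne_zero e)).trans h2)

theorem eight_Ns (s : ℕ) : 8 * Ns s = 1 + 7 ^ (2 * s + 1) := by
  unfold Ns
  have h : 8 ∣ 1 + 7 ^ (2 * s + 1) := by
    rw [pow_succ, pow_mul]
    have h1 : (7 ^ 2) ^ s % 8 = 1 := by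
      rw [Nat.pow_mod]
      norm_num
    omega
  exact Nat.mul_div_cancel' h

private theorem frob_eq (s : ℕ) : Delz ^ Ns s = PowerSeries.X ^ Ns s *
    (Fz * Fz ^ 7 ^ (2 * s + 1)) := by
  rw [Delz_eq_F, mul_pow, ← pow_mul, eight_Ns, pow_add, pow_one]

theorem coef_small (s M : ℕ) (hM : M < Ns s) : PowerSeries.coeff M (Delz ^ Ns s) = 0 := by
  rw [frob_eq, PowerSeries.coeff_X_pow_mul', if_neg (by omega)]

theorem coef_formula (s M : ℕ) (hM : Ns s ≤ M) :
    ((PowerSeries.coeff M (Delz ^ Ns s) : ℤ) : ZMod 7) =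
      ∑ p ∈ Finset.HasAntidiagonal.antidiagonal (M - Ns s), ((PowerSeries.coeff p.1 Fz : ℤ) : ZMod 7) *
        (if 7 ^ (2 * s + 1) ∣ p.2 then
          ((PowerSeries.coeff (p.2 / 7 ^ (2 * s + 1)) Fz : ℤ) : ZMod 7) else 0) := by
  have hF : Fact (Nat.Prime 7) := ⟨by norm_num⟩
  rw [frob_eq, PowerSeries.coeff_X_pow_mul', if_pos hM]
  have h1 : ((PowerSeries.coeff (M - Ns s) (Fz * Fz ^ 7 ^ (2 * s + 1)) : ℤ) : ZMod 7) =
      PowerSeries.coeff (M - Ns s) (PowerSeries.map (Int.castRingHom (ZMod 7))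
        (Fz * Fz ^ 7 ^ (2 * s + 1))) := by
    rw [PowerSeries.coeff_map]
    rfl
  rw [h1, map_mul, map_pow, PowerSeries.coeff_mul]
  refine Finset.sum_congr rfl fun q _ => ?_
  rw [frob_pe, PowerSeries.coeff_map, PowerSeries.coeff_map]
  rfl

end Pool.Agent.Lib.MP_06b9d2_nt
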