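import Pool.Agent.Lib.MP_06b9d2_nt.MD.Defs

/-!
Module MD-GauA (MP_06b9d2_nt, Maeda). Gaussian binomial coefficients.

Definition: `gb m 0 = 1`, `gb 0 (j + 1) = 0`, `gb (m + 1) (j + 1) = gb m (j + 1) + X ^ (m - j) * gb m j`; `Pn n = ∏_{i < n} (1 - X ^ (i + 1))`.

`gb_zero`: induction on `m`.
`gb_mul` (for `j ≤ m`: `gb m j * (Pn j * Pn (m - j)) = Pn m`): induction on `m`, for all `j`. `j = 0`: `Pn 0 = 1`. Step for `j + 1 ≤ m + 1`: if `j = m`: `gb m (m + 1) = 0` (`gb_zero`), the claim is `gb m m * (Pn (m + 1) * 1) = Pn (m + 1)`, and `gb m m * Pn m = Pn m` gives `gb m m = 1` (or use `Pn (m + 1) = Pn m * (1 - X ^ (m + 1))`).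
If `j < m`: `Pn (m - j) = Pn (m - j - 1) * (1 - X ^ (m - j))`, `Pn (j + 1) = Pn j * (1 - X ^ (j + 1))`, so
`gb (m + 1) (j + 1) * (Pn (j + 1) * Pn (m - j)) = (gb m (j + 1) * (Pn (j + 1) * Pn (m - j - 1))) * (1 - X ^ (m - j)) + X ^ (m - j) * (gb m j * (Pn j * Pn (m - j))) * (1 - X ^ (j + 1)) = Pn m * (1 - X ^ (m - j) + X ^ (m - j) - X ^ (m + 1)) = Pn (m + 1)`.
`gb_prod`: induction on `m`: multiply the sum by `a - b * φ X ^ m` and compare (`Finset.sum_range_succ`, `Finset.sum_range_succ'`): the coefficient of `a ^ (m + 1 - (j + 1)) * b ^ (j + 1)` is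
`(-1) ^ (j + 1) * φ X ^ ((j + 1) * j / 2) * φ (gb m (j + 1)) - φ X ^ m * (-1) ^ j * φ X ^ (j * (j - 1) / 2) * φ (gb m j)`, and `(j + 1) * j / 2 + (m - j) = m + j * (j - 1) / 2` for `j ≤ m` (because `(j + 1) * j / 2 = j * (j - 1) / 2 + j`).
-/

namespace Pool.Agent.Lib.MP_06b9d2_nt

open Finset

private lemma GauA_gz (m : ℕ) : gb m 0 = 1 := by
  cases m <;> simp [gb]

private lemma GauA_gs (m j : ℕ) :
    gb (m + 1) (j + 1) = gb m (j + 1) + PowerSeries.X ^ (m - j) * gb m j := by
  rw [gb]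

private lemma GauA_P0 : Pn 0 = 1 := by
  simp [Pn]

private lemma GauA_Ps (n : ℕ) : Pn (n + 1) = Pn n * (1 - PowerSeries.X ^ (n + 1)) := by
  unfold Pn
  rw [Finset.prod_range_succ]

theorem gb_zero (m j : ℕ) (h : m < j) : gb m j = 0 := by
  induction m generalizing j with
  | zero =>
    obtain ⟨j', rfl⟩ : ∃ j', j = j' + 1 := ⟨j - 1, by omega⟩
    simp [gb]
  | succ m ih =>
    obtain ⟨j', rfl⟩ : ∃ j', j = j' + 1 := ⟨j - 1, by omega⟩
    rw [GauA_gs, ih (j' + 1) (by omega), ih j' (by omega)]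
    simp

theorem gb_mul (m j : ℕ) (h : j ≤ m) : gb m j * (Pn j * Pn (m - j)) = Pn m := by
  induction m generalizing j with
  | zero =>
    obtain rfl : j = 0 := by omega
    simp [GauA_gz, GauA_P0]
  | succ m ih =>
    rcases Nat.eq_zero_or_pos j with rfl | hj
    · simp [GauA_gz, GauA_P0]
    · obtain ⟨j', rfl⟩ : ∃ j', j = j' + 1 := ⟨j - 1, by omega⟩
      have hsub : m + 1 - (j' + 1) = m - j' := by omega
      rw [GauA_gs, hsub]
      rcases Nat.lt_or_ge j' m with hlt | hge
      · obtain ⟨d, rfl⟩ : ∃ d, m = j' + d + 1 := ⟨m - j' - 1, by omega⟩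
        have h1 := ih (j' + 1) (by omega)
        have h2 := ih j' (by omega)
        have e1 : j' + d + 1 - (j' + 1) = d := by omega
        have e2 : j' + d + 1 - j' = d + 1 := by omega
        rw [e1] at h1
        rw [e2] at h2 ⊢
        rw [GauA_Ps d] at h2 ⊢
        rw [GauA_Ps (j' + d + 1)]
        rw [GauA_Ps j'] at h1 ⊢
        have e3 : (PowerSeries.X : PowerSeries ℤ) ^ (j' + d + 1 + 1) =
            PowerSeries.X ^ (d + 1) * PowerSeries.X ^ (j' + 1) := by
          rw [← pow_add]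
          congr 1
          omega
        rw [e3]
        linear_combination (1 - PowerSeries.X ^ (d + 1)) * h1 +
          PowerSeries.X ^ (d + 1) * (1 - PowerSeries.X ^ (j' + 1)) * h2
      · obtain rfl : j' = m := by omega
        have h2 := ih j' le_rfl
        rw [Nat.sub_self, GauA_P0, mul_one] at h2
        rw [gb_zero j' (j' + 1) (by omega), Nat.sub_self, GauA_P0, mul_one, pow_zero, one_mul,
          zero_add, GauA_Ps]
        linear_combination (1 - PowerSeries.X ^ (j' + 1)) * h2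

theorem gb_prod {A : Type*} [CommRing A] (φ : PowerSeries ℤ →+* A) (a b : A) (m : ℕ) :
    ∏ i ∈ range m, (a - b * φ PowerSeries.X ^ i) =
      ∑ j ∈ range (m + 1), (-1) ^ j * φ PowerSeries.X ^ (j * (j - 1) / 2) * φ (gb m j) *
        a ^ (m - j) * b ^ j := by
  induction m with
  | zero => simp [GauA_gz]
  | succ m ih =>
    rw [Finset.prod_range_succ, ih]
    set x := φ PowerSeries.X with hx
    -- the coefficients
    have hc : ∀ j, j ≤ m → (-1 : A) ^ (j + 1) * x ^ ((j + 1) * (j + 1 - 1) / 2) *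
        φ (gb (m + 1) (j + 1)) = (-1) ^ (j + 1) * x ^ ((j + 1) * (j + 1 - 1) / 2) *
        φ (gb m (j + 1)) - x ^ m * ((-1) ^ j * x ^ (j * (j - 1) / 2) * φ (gb m j)) := by
      intro j hj
      rw [GauA_gs, map_add, map_mul, map_pow, ← hx]
      have e1 : (j + 1) * (j + 1 - 1) / 2 = j * (j - 1) / 2 + j := by
        rcases Nat.eq_zero_or_pos j with rfl | hj0
        · rfl
        · obtain ⟨t, rfl⟩ : ∃ t, j = t + 1 := ⟨j - 1, by omega⟩
          have : (t + 1 + 1) * (t + 1 + 1 - 1) = (t + 1) * (t + 1 - 1) + (t + 1) * 2 := by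
            simp only [Nat.add_sub_cancel]
            ring
          rw [this, Nat.add_mul_div_right _ _ (by norm_num)]
      have e2 : x ^ m = x ^ j * x ^ (m - j) := by
        rw [← pow_add]
        congr 1
        omega
      rw [e1, e2, pow_add]
      ring
    have hR : ∑ j ∈ range (m + 1 + 1), (-1) ^ j * x ^ (j * (j - 1) / 2) * φ (gb (m + 1) j) *
        a ^ (m + 1 - j) * b ^ j =
        ∑ j ∈ range (m + 1), ((-1) ^ (j + 1) * x ^ ((j + 1) * (j + 1 - 1) / 2) *
          φ (gb m (j + 1)) * a ^ (m - j) * b ^ (j + 1)) -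
        ∑ j ∈ range (m + 1), (x ^ m * ((-1) ^ j * x ^ (j * (j - 1) / 2) * φ (gb m j)) *
          a ^ (m - j) * b ^ (j + 1)) + a ^ (m + 1) := by
      rw [Finset.sum_range_succ', ← Finset.sum_sub_distrib]
      congr 1
      · apply Finset.sum_congr rfl
        intro j hj
        have hj' : j ≤ m := Nat.lt_succ_iff.mp (Finset.mem_range.mp hj)
        rw [hc j hj', show m + 1 - (j + 1) = m - j by omega]
        ring
      · simp [GauA_gz]
    have hA : a * ∑ j ∈ range (m + 1), (-1) ^ j * x ^ (j * (j - 1) / 2) * φ (gb m j) *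
        a ^ (m - j) * b ^ j =
        ∑ j ∈ range (m + 1), ((-1) ^ (j + 1) * x ^ ((j + 1) * (j + 1 - 1) / 2) *
          φ (gb m (j + 1)) * a ^ (m - j) * b ^ (j + 1)) + a ^ (m + 1) := by
      have h1 : a * ∑ j ∈ range (m + 1), (-1) ^ j * x ^ (j * (j - 1) / 2) * φ (gb m j) *
          a ^ (m - j) * b ^ j =
          ∑ j ∈ range (m + 1 + 1), (-1) ^ j * x ^ (j * (j - 1) / 2) * φ (gb m j) *
            a ^ (m + 1 - j) * b ^ j := by
        rw [Finset.sum_range_succ _ (m + 1), gb_zero m (m + 1) (by omega), map_zero]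
        simp only [mul_zero, zero_mul, add_zero]
        rw [Finset.mul_sum]
        apply Finset.sum_congr rfl
        intro j hj
        have hj' : j ≤ m := Nat.lt_succ_iff.mp (Finset.mem_range.mp hj)
        rw [show m + 1 - j = (m - j) + 1 by omega, pow_succ]
        ring
      rw [h1, Finset.sum_range_succ']
      congr 1
      · apply Finset.sum_congr rfl
        intro j hj
        rw [show m + 1 - (j + 1) = m - j by omega]
      · simp [GauA_gz]
    have hB : b * x ^ m * ∑ j ∈ range (m + 1), (-1) ^ j * x ^ (j * (j - 1) / 2) * φ (gb m j) *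
        a ^ (m - j) * b ^ j =
        ∑ j ∈ range (m + 1), (x ^ m * ((-1) ^ j * x ^ (j * (j - 1) / 2) * φ (gb m j)) *
          a ^ (m - j) * b ^ (j + 1)) := by
      rw [Finset.mul_sum]
      apply Finset.sum_congr rfl
      intro j _
      ring
    rw [hR, ← hB]
    linear_combination hA

end Pool.Agent.Lib.MP_06b9d2_nt
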