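import Pool.Agent.Lib.MP_06b9d2_nt.MD.GauA

/-!
Module MD-GauB (MP_06b9d2_nt, Maeda). The finite form of the identity of Jacobi.

Let `m = 2 n + 1`, `R = PowerSeries ℤ`, `A = Polynomial R`, `φ = Polynomial.C`, `a = C (X ^ n)`, `b = Y` (`Polynomial.X`). By `gb_prod`:
`∏_{i < 2 n + 1} (C (X ^ n) - Y * C (X ^ i)) = ∑_{j ≤ 2 n + 1} c_j Y ^ j` with `c_j = (-1) ^ j X ^ (j (j - 1) / 2) gb(2 n + 1, j) X ^ (n (2 n + 1 - j))`. The factor with `i = n` is `C (X ^ n) * (1 - Y)`. So the derivative at `Y = 1` of the left side is `- X ^ n * Q` with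
`Q = ∏_{i < n} (X ^ n - X ^ i) * ∏_{i < n} (X ^ n - X ^ (n + 1 + i))` (`Finset.prod_range_add`; product rule for `(1 - Y) * G`: the value at `1` is `- G(1)`).
`X ^ n - X ^ i = - X ^ i * (1 - X ^ (n - i))` for `i < n`, `∏_{i < n} (1 - X ^ (n - i)) = Pn n` (`Finset.prod_range_reflect`), `∏_{i < n} X ^ i = X ^ (n (n - 1) / 2)` (`Finset.sum_range_id`), `X ^ n - X ^ (n + 1 + i) = X ^ n * (1 - X ^ (i + 1))`: `Q = (-1) ^ n X ^ (n (n - 1) / 2) Pn n * X ^ (n n) Pn n`.
The derivative at `1` of the right side is `∑_j j c_j`. Split `j = n - k` and `j = n + 1 + k`, `0 ≤ k ≤ n` (`Finset.sum_range_add`, `Finset.sum_range_reflect`). Here `gb (2 n + 1) (n - k) = gb (2 n + 1) (n + 1 + k)` (`gb_mul` twice and cancellation: `Pn _ ≠ 0`, the constant coefficient is `1`, `PowerSeries ℤ` is a domain), both exponents are equal to `E + k (k + 1) / 2` with `E = n (n + 1) / 2 + n n`, and the signs give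
`∑_j j c_j = X ^ E * (-1) ^ n * ∑_k (-1) ^ k ((n - k) - (n + 1 + k)) X ^ (k (k + 1) / 2) gb (2 n + 1) (n - k)`. Since `n + n (n - 1) / 2 + n n = E`, cancel `- (-1) ^ n X ^ E`.
(Hint for the exponents: prove the doubled identities in `ℕ` with `Nat.div_mul_cancel`/`Nat.even_mul_succ_self`, or write `k (k + 1) / 2` as `∑ i ∈ range (k + 1), i`.)
-/

namespace Pool.Agent.Lib.MP_06b9d2_nt

open Finset

private lemma GauB_tri (k : ℕ) : 2 * (k * (k + 1) / 2) = k * (k + 1) :=
  Nat.mul_div_cancel' (Nat.even_mul_succ_self k).two_dvd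

private lemma GauB_tri' (k : ℕ) : 2 * (k * (k - 1) / 2) = k * (k - 1) := by
  rcases k with _ | k
  · rfl
  · simp only [Nat.add_sub_cancel]
    rw [Nat.mul_comm (k + 1) k]
    exact GauB_tri k

private lemma GauB_P_ne (n : ℕ) : Pn n ≠ 0 := by
  intro h
  have h1 := congrArg (PowerSeries.constantCoeff (R := ℤ)) h
  unfold Pn at h1
  rw [map_prod, map_zero] at h1
  have h2 : ∀ i ∈ range n, PowerSeries.constantCoeff (R := ℤ)
      (1 - PowerSeries.X ^ (i + 1)) = 1 := by
    intro i _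
    simp
  rw [Finset.prod_congr rfl h2] at h1
  simp at h1

private lemma GauB_symm (n k : ℕ) (hk : k ≤ n) :
    gb (2 * n + 1) (n + 1 + k) = gb (2 * n + 1) (n - k) := by
  have h1 := gb_mul (2 * n + 1) (n + 1 + k) (by omega)
  have h2 := gb_mul (2 * n + 1) (n - k) (by omega)
  rw [show 2 * n + 1 - (n + 1 + k) = n - k by omega] at h1
  rw [show 2 * n + 1 - (n - k) = n + 1 + k by omega, mul_comm (Pn (n - k))] at h2
  exact mul_right_cancel₀ (mul_ne_zero (GauB_P_ne _) (GauB_P_ne _)) (h1.trans h2.symm)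

private lemma GauB_exp1 (n k : ℕ) (hk : k ≤ n) :
    (n - k) * (n - k - 1) / 2 + n * (2 * n + 1 - (n - k)) =
      (n * (n + 1) / 2 + n * n) + k * (k + 1) / 2 := by
  obtain ⟨d, rfl⟩ : ∃ d, n = k + d := ⟨n - k, by omega⟩
  have e1 : k + d - k = d := by omega
  have e2 : 2 * (k + d) + 1 - d = 2 * k + d + 1 := by omega
  rw [e1, e2]
  have h1 := GauB_tri' d
  have h2 := GauB_tri (k + d)
  have h3 := GauB_tri k
  have h4 : d * (d - 1) + d = d * d := by
    rcases d with _ | d
    · rfl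
    · simp only [Nat.add_sub_cancel]
      ring
  nlinarith [h1, h2, h3, h4]

private lemma GauB_exp2 (n k : ℕ) (hk : k ≤ n) :
    (n + 1 + k) * (n + 1 + k - 1) / 2 + n * (2 * n + 1 - (n + 1 + k)) =
      (n * (n + 1) / 2 + n * n) + k * (k + 1) / 2 := by
  obtain ⟨d, rfl⟩ : ∃ d, n = k + d := ⟨n - k, by omega⟩
  have e1 : 2 * (k + d) + 1 - (k + d + 1 + k) = d := by omega
  rw [e1]
  have h1 := GauB_tri' (k + d + 1 + k)
  have h2 := GauB_tri (k + d)
  have h3 := GauB_tri k
  rw [show k + d + 1 + k - 1 = k + d + k by omega] at h1 ⊢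
  nlinarith [h1, h2, h3]

private lemma GauB_prod1 (n : ℕ) :
    ∏ i ∈ range n, ((PowerSeries.X : PowerSeries ℤ) ^ n - PowerSeries.X ^ i) =
      (-1) ^ n * PowerSeries.X ^ (n * (n - 1) / 2) * Pn n := by
  have h1 : ∀ i ∈ range n, ((PowerSeries.X : PowerSeries ℤ) ^ n - PowerSeries.X ^ i) =
      (-1) * PowerSeries.X ^ i * (1 - PowerSeries.X ^ (n - 1 - i + 1)) := by
    intro i hi
    have hi' := Finset.mem_range.mp hi
    have e : (PowerSeries.X : PowerSeries ℤ) ^ n =
        PowerSeries.X ^ i * PowerSeries.X ^ (n - 1 - i + 1) := by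
      rw [← pow_add]
      congr 1
      omega
    rw [e]
    ring
  rw [Finset.prod_congr rfl h1, Finset.prod_mul_distrib, Finset.prod_mul_distrib,
    Finset.prod_const, Finset.card_range, Finset.prod_pow_eq_pow_sum, Finset.sum_range_id]
  congr 1
  exact Finset.prod_range_reflect (fun i => (1 - (PowerSeries.X : PowerSeries ℤ) ^ (i + 1))) n

private lemma GauB_prod2 (n : ℕ) :
    ∏ i ∈ range n, ((PowerSeries.X : PowerSeries ℤ) ^ n - PowerSeries.X ^ (n + 1 + i)) =
      PowerSeries.X ^ (n * n) * Pn n := by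
  have h1 : ∀ i ∈ range n, ((PowerSeries.X : PowerSeries ℤ) ^ n - PowerSeries.X ^ (n + 1 + i)) =
      PowerSeries.X ^ n * (1 - PowerSeries.X ^ (i + 1)) := by
    intro i _
    rw [show n + 1 + i = n + (i + 1) by omega, pow_add]
    ring
  rw [Finset.prod_congr rfl h1, Finset.prod_mul_distrib, Finset.prod_const, Finset.card_range,
    ← pow_mul]
  rfl

private lemma GauB_left (n : ℕ) :
    (Polynomial.derivative (∏ i ∈ range (2 * n + 1),
      (Polynomial.C ((PowerSeries.X : PowerSeries ℤ) ^ n) - (Polynomial.X : Polynomial (PowerSeries ℤ)) *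
        Polynomial.C (PowerSeries.X : PowerSeries ℤ) ^ i))).eval 1 =
      - ((-1) ^ n * PowerSeries.X ^ (n * (n + 1) / 2 + n * n) * Pn n ^ 2) := by
  have hs : 2 * n + 1 = n + 1 + n := by omega
  rw [hs, Finset.prod_range_add, Finset.prod_range_succ]
  set G1 := ∏ i ∈ range n,
      (Polynomial.C ((PowerSeries.X : PowerSeries ℤ) ^ n) - (Polynomial.X : Polynomial (PowerSeries ℤ)) *
        Polynomial.C (PowerSeries.X : PowerSeries ℤ) ^ i) with hG1
  set G2 := ∏ i ∈ range n,
      (Polynomial.C ((PowerSeries.X : PowerSeries ℤ) ^ n) - (Polynomial.X : Polynomial (PowerSeries ℤ)) *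
        Polynomial.C (PowerSeries.X : PowerSeries ℤ) ^ (n + 1 + i)) with hG2
  have e1 : G1.eval 1 = (-1) ^ n * PowerSeries.X ^ (n * (n - 1) / 2) * Pn n := by
    rw [hG1, Polynomial.eval_prod, ← GauB_prod1]
    apply Finset.prod_congr rfl
    intro i _
    simp
  have e2 : G2.eval 1 = PowerSeries.X ^ (n * n) * Pn n := by
    rw [hG2, Polynomial.eval_prod, ← GauB_prod2]
    apply Finset.prod_congr rfl
    intro i _
    simp
  have e3 : G1 * (Polynomial.C ((PowerSeries.X : PowerSeries ℤ) ^ n) -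
      (Polynomial.X : Polynomial (PowerSeries ℤ)) *
        Polynomial.C (PowerSeries.X : PowerSeries ℤ) ^ n) * G2 =
      (1 - Polynomial.X) * (Polynomial.C ((PowerSeries.X : PowerSeries ℤ) ^ n) * (G1 * G2)) := by
    rw [map_pow]
    ring
  rw [e3, Polynomial.derivative_mul, Polynomial.eval_add, Polynomial.eval_mul, Polynomial.eval_mul,
    Polynomial.eval_mul]
  rw [Polynomial.eval_mul (p := (1 - Polynomial.X : Polynomial (PowerSeries ℤ)))]
  have e4 : (Polynomial.derivative (1 - Polynomial.X : Polynomial (PowerSeries ℤ))).eval 1 = -1 := by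
    simp
  have e5 : ((1 - Polynomial.X : Polynomial (PowerSeries ℤ))).eval 1 = 0 := by
    simp
  rw [e4, e5, Polynomial.eval_C, e1, e2]
  have e6 : n * (n + 1) / 2 + n * n = n + n * (n - 1) / 2 + n * n := by
    have h1 := GauB_tri n
    have h2 := GauB_tri' n
    have h4 : n * (n - 1) + n = n * n := by
      rcases n with _ | d
      · rfl
      · simp only [Nat.add_sub_cancel]
        ring
    nlinarith
  rw [e6, pow_add, pow_add]
  ring

private lemma GauB_right (n : ℕ) :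
    (Polynomial.derivative (∑ j ∈ range (2 * n + 1 + 1), (-1) ^ j *
      Polynomial.C (PowerSeries.X : PowerSeries ℤ) ^ (j * (j - 1) / 2) *
        Polynomial.C (gb (2 * n + 1) j) *
        Polynomial.C ((PowerSeries.X : PowerSeries ℤ) ^ n) ^ (2 * n + 1 - j) *
          (Polynomial.X : Polynomial (PowerSeries ℤ)) ^ j)).eval 1 =
      ∑ j ∈ range (2 * n + 1 + 1), (-1) ^ j * (j : PowerSeries ℤ) *
        PowerSeries.X ^ (j * (j - 1) / 2 + n * (2 * n + 1 - j)) * gb (2 * n + 1) j := by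
  rw [Polynomial.derivative_sum, Polynomial.eval_finsetSum]
  apply Finset.sum_congr rfl
  intro j _
  have h1 : (-1 : Polynomial (PowerSeries ℤ)) ^ j *
      Polynomial.C (PowerSeries.X : PowerSeries ℤ) ^ (j * (j - 1) / 2) *
        Polynomial.C (gb (2 * n + 1) j) *
        Polynomial.C ((PowerSeries.X : PowerSeries ℤ) ^ n) ^ (2 * n + 1 - j) *
          (Polynomial.X : Polynomial (PowerSeries ℤ)) ^ j =
      Polynomial.C ((-1) ^ j * PowerSeries.X ^ (j * (j - 1) / 2) * gb (2 * n + 1) j *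
        (PowerSeries.X ^ n) ^ (2 * n + 1 - j)) * Polynomial.X ^ j := by
    simp only [map_mul, map_pow, map_neg, map_one]
  rw [h1, Polynomial.derivative_C_mul, Polynomial.derivative_X_pow, Polynomial.eval_mul,
    Polynomial.eval_C, Polynomial.eval_mul, Polynomial.eval_pow, Polynomial.eval_X, one_pow,
    mul_one, Polynomial.eval_C, pow_add, ← pow_mul]
  ring

theorem fin_jacobi (n : ℕ) :
    ∑ k ∈ range (n + 1), (-1) ^ k * (2 * (k : PowerSeries ℤ) + 1) *
      PowerSeries.X ^ (k * (k + 1) / 2) * gb (2 * n + 1) (n - k) = Pn n ^ 2 := by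
  have hL := GauB_left n
  have hR := GauB_right n
  have hP := gb_prod (A := Polynomial (PowerSeries ℤ)) Polynomial.C
    (Polynomial.C ((PowerSeries.X : PowerSeries ℤ) ^ n)) Polynomial.X (2 * n + 1)
  rw [hP] at hL
  rw [hR] at hL
  have hsplit : ∑ j ∈ range (2 * n + 1 + 1), (-1) ^ j * (j : PowerSeries ℤ) *
        PowerSeries.X ^ (j * (j - 1) / 2 + n * (2 * n + 1 - j)) * gb (2 * n + 1) j =
      - ((-1) ^ n * PowerSeries.X ^ (n * (n + 1) / 2 + n * n)) *
      ∑ k ∈ range (n + 1), (-1) ^ k * (2 * (k : PowerSeries ℤ) + 1) *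
      PowerSeries.X ^ (k * (k + 1) / 2) * gb (2 * n + 1) (n - k) := by
    rw [show 2 * n + 1 + 1 = (n + 1) + (n + 1) by omega, Finset.sum_range_add,
      ← Finset.sum_range_reflect _ (n + 1), ← Finset.sum_add_distrib, Finset.mul_sum]
    apply Finset.sum_congr rfl
    intro k hk
    have hk' : k ≤ n := Nat.lt_succ_iff.mp (Finset.mem_range.mp hk)
    rw [show n + 1 - 1 - k = n - k by omega, GauB_symm n k hk', GauB_exp1 n k hk',
      GauB_exp2 n k hk', pow_add]
    have s1 : (-1 : PowerSeries ℤ) ^ (n - k) = (-1) ^ n * (-1) ^ k := by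
      obtain ⟨d, rfl⟩ : ∃ d, n = k + d := ⟨n - k, by omega⟩
      rw [show k + d - k = d by omega, pow_add, mul_right_comm, ← pow_add, ← two_mul, pow_mul]
      simp
    have s2 : (-1 : PowerSeries ℤ) ^ (n + 1 + k) = - ((-1) ^ n * (-1) ^ k) := by
      rw [pow_add, pow_add, pow_one]
      ring
    have s3 : ((n - k : ℕ) : PowerSeries ℤ) = (n : PowerSeries ℤ) - k := by
      rw [Nat.cast_sub hk']
    rw [s1, s2, s3]
    push_cast
    ring
  rw [hsplit] at hL
  have hne : - ((-1 : PowerSeries ℤ) ^ n * PowerSeries.X ^ (n * (n + 1) / 2 + n * n)) ≠ 0 := by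
    apply neg_ne_zero.mpr
    apply mul_ne_zero
    · exact pow_ne_zero _ (by norm_num)
    · exact pow_ne_zero _ PowerSeries.X_ne_zero
  apply mul_left_cancel₀ hne
  rw [hL]
  ring

end Pool.Agent.Lib.MP_06b9d2_nt
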