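import Pool.Agent.Lib.MP_06b9d2_nt.MD.GauB

/-!
Module MD-Jac (MP_06b9d2_nt, Maeda). The identity of Jacobi `∏ (1 - X ^ n) ^ 3 = ∑ (-1) ^ k (2 k + 1) X ^ (k (k + 1) / 2)`; `∏ (1 - X ^ n)` is `PowerSeries.pentagonalSeries ℤ` (Mathlib, `Mathlib/Combinatorics/Enumerative/Pentagonal/PowerSeries.lean`).

Fix `n`; we show `X ^ (n + 1) ∣ pentagonalSeries ^ 3 - Fz`, i.e. the coefficients `0, ..., n` agree (`PowerSeries.X_pow_dvd_iff`).
(i) `X ^ (n + 1) ∣ Pn n - pentagonalSeries ℤ`: for `i ≤ n` use `PowerSeries.coeff_prod_one_sub_X_pow_eventually_eq ℤ i`: for all large finsets `s` (take one that contains `range n`) the coefficient `i` of `∏_{l ∈ s} (1 - X ^ (l + 1))` is that of `pentagonalSeries`; and `∏_{l ∈ s} = Pn n * ∏_{l ∈ s, n ≤ l} (1 - X ^ (l + 1))`, where the second factor is `1` modulo `X ^ (n + 1)`.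
(ii) For `k ≤ n`: `Pn n = Pn (n - k) * R₁` with `X ^ (n - k + 1) ∣ R₁ - 1`, `Pn (2 n + 1) = Pn (n + k + 1) * R₂` with `X ^ (n + k + 2) ∣ R₂ - 1`. `gb_mul (2 n + 1) (n - k)`: `gb (2 n + 1) (n - k) * (Pn (n - k) * Pn (n + k + 1)) = Pn (2 n + 1)` (`2 n + 1 - (n - k) = n + k + 1`), so after cancellation of `Pn (n + k + 1)` (constant coefficient `1`): `gb (2 n + 1) (n - k) * Pn (n - k) = R₂` and `gb (2 n + 1) (n - k) * Pn n = R₂ R₁ ≡ 1` modulo `X ^ (n - k + 1)`.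
(iii) Multiply `fin_jacobi n` by `Pn n`: `Pn n ^ 3 = ∑_{k ≤ n} (-1) ^ k (2 k + 1) X ^ (k (k + 1) / 2) (gb (2 n + 1) (n - k) * Pn n) ≡ ∑_{k ≤ n} (-1) ^ k (2 k + 1) X ^ (k (k + 1) / 2)` modulo `X ^ (n + 1)`, because `k (k + 1) / 2 + (n - k + 1) ≥ n + 1` (`k (k + 1) / 2 ≥ k`).
(iv) The coefficient `i ≤ n` of `∑_{k ≤ n} (-1) ^ k (2 k + 1) X ^ (k (k + 1) / 2)` is that of `Fz`: only `k` with `k (k + 1) = 2 i` count and these satisfy `k ≤ i`.
-/

namespace Pool.Agent.Lib.MP_06b9d2_nt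

open Finset

private theorem prod_sub_one (s : Finset ℕ) (m : ℕ) (h : ∀ l ∈ s, m ≤ l) :
    (PowerSeries.X : PowerSeries ℤ) ^ (m + 1) ∣
      ∏ l ∈ s, (1 - (PowerSeries.X : PowerSeries ℤ) ^ (l + 1)) - 1 := by
  classical
  induction s using Finset.induction_on with
  | empty => simp
  | insert a s ha ih =>
    rw [prod_insert ha]
    have h1 := ih (fun l hl => h l (mem_insert_of_mem hl))
    have h2 : (PowerSeries.X : PowerSeries ℤ) ^ (m + 1) ∣ PowerSeries.X ^ (a + 1) :=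
      pow_dvd_pow _ (by have := h a (mem_insert_self _ _); omega)
    have h3 : (1 - (PowerSeries.X : PowerSeries ℤ) ^ (a + 1)) *
        ∏ l ∈ s, (1 - (PowerSeries.X : PowerSeries ℤ) ^ (l + 1)) - 1 =
        (∏ l ∈ s, (1 - (PowerSeries.X : PowerSeries ℤ) ^ (l + 1)) - 1) -
          (PowerSeries.X : PowerSeries ℤ) ^ (a + 1) *
            ∏ l ∈ s, (1 - (PowerSeries.X : PowerSeries ℤ) ^ (l + 1)) := by ring
    rw [h3]
    exact dvd_sub h1 (h2.mul_right _)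

private theorem Pn_add (a b : ℕ) : ∃ R : PowerSeries ℤ, Pn (a + b) = Pn a * R ∧
    (PowerSeries.X : PowerSeries ℤ) ^ (a + 1) ∣ R - 1 := by
  refine ⟨∏ i ∈ (range b).map (addLeftEmbedding a), (1 - PowerSeries.X ^ (i + 1)), ?_, ?_⟩
  · rw [Pn, Pn, prod_range_add, prod_map]
    rfl
  · apply prod_sub_one
    intro l hl
    rw [mem_map] at hl
    obtain ⟨i, _, rfl⟩ := hl
    simp

private theorem Pn_ne (n : ℕ) : Pn n ≠ 0 := by
  obtain ⟨R, h1, h2⟩ := Pn_add 0 n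
  intro h
  rw [zero_add] at h1
  have h3 : Pn 0 = 1 := by simp [Pn]
  rw [h3, one_mul, h] at h1
  rw [← h1] at h2
  have h4 := PowerSeries.X_pow_dvd_iff.1 h2 0 (by omega)
  simp at h4

private theorem Pn_pent (n : ℕ) :
    (PowerSeries.X : PowerSeries ℤ) ^ (n + 1) ∣ Pn n - PowerSeries.pentagonalSeries ℤ := by
  rw [PowerSeries.X_pow_dvd_iff]
  intro i hi
  have h1 := PowerSeries.coeff_prod_one_sub_X_pow_eventually_eq ℤ i
  rw [Filter.eventually_atTop] at h1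
  obtain ⟨s₀, hs₀⟩ := h1
  have h2 := hs₀ (s₀ ∪ range n) subset_union_left
  have h3 : (s₀ ∪ range n) = range n ∪ (s₀ \ range n) := by
    ext x
    simp only [mem_union, mem_sdiff, mem_range]
    tauto
  rw [h3, prod_union disjoint_sdiff] at h2
  have h4 : (PowerSeries.X : PowerSeries ℤ) ^ (n + 1) ∣
      ∏ l ∈ s₀ \ range n, (1 - (PowerSeries.X : PowerSeries ℤ) ^ (l + 1)) - 1 := by
    apply prod_sub_one
    intro l hl
    rw [mem_sdiff, mem_range] at hl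
    omega
  have h5 : (PowerSeries.X : PowerSeries ℤ) ^ (n + 1) ∣
      Pn n - Pn n * ∏ l ∈ s₀ \ range n, (1 - (PowerSeries.X : PowerSeries ℤ) ^ (l + 1)) := by
    have h6 : Pn n - Pn n * ∏ l ∈ s₀ \ range n, (1 - (PowerSeries.X : PowerSeries ℤ) ^ (l + 1)) =
      -(Pn n * (∏ l ∈ s₀ \ range n, (1 - (PowerSeries.X : PowerSeries ℤ) ^ (l + 1)) - 1)) := by
      ring
    rw [h6, dvd_neg]
    exact h4.mul_left _
  have h7 := PowerSeries.X_pow_dvd_iff.1 h5 i hi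
  rw [map_sub] at h7 ⊢
  rw [← h2]
  exact h7

private theorem gb_Pn (n k : ℕ) (hk : k ≤ n) :
    (PowerSeries.X : PowerSeries ℤ) ^ (n - k + 1) ∣ gb (2 * n + 1) (n - k) * Pn n - 1 := by
  obtain ⟨R₁, h1, h1'⟩ := Pn_add (n - k) k
  obtain ⟨R₂, h2, h2'⟩ := Pn_add (n + k + 1) (n - k)
  rw [show n - k + k = n by omega] at h1
  rw [show n + k + 1 + (n - k) = 2 * n + 1 by omega] at h2
  have h3 := gb_mul (2 * n + 1) (n - k) (by omega)
  rw [show 2 * n + 1 - (n - k) = n + k + 1 by omega, h2] at h3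
  have h4 : gb (2 * n + 1) (n - k) * Pn (n - k) = R₂ := by
    apply mul_left_cancel₀ (Pn_ne (n + k + 1))
    rw [← h3]
    ring
  have h5 : gb (2 * n + 1) (n - k) * Pn n = R₂ * R₁ := by
    rw [h1, ← h4]
    ring
  rw [h5]
  have h6 : R₂ * R₁ - 1 = (R₂ - 1) * R₁ + (R₁ - 1) := by ring
  rw [h6]
  refine dvd_add (Dvd.dvd.mul_right ?_ _) h1'
  exact (pow_dvd_pow _ (by omega)).trans h2'

private theorem le_tri (k : ℕ) : k ≤ k * (k + 1) / 2 := by
  rw [Nat.le_div_iff_mul_le two_pos]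
  rcases Nat.eq_zero_or_pos k with h | h
  · simp [h]
  · nlinarith

private theorem Pn_cube (n : ℕ) : (PowerSeries.X : PowerSeries ℤ) ^ (n + 1) ∣
    Pn n ^ 3 - ∑ k ∈ range (n + 1), (-1) ^ k * (2 * (k : PowerSeries ℤ) + 1) *
      PowerSeries.X ^ (k * (k + 1) / 2) := by
  have h1 : Pn n ^ 3 = Pn n ^ 2 * Pn n := by ring
  rw [h1, ← fin_jacobi n, sum_mul, ← sum_sub_distrib]
  apply dvd_sum
  intro k hk
  rw [mem_range] at hk
  have h2 : (-1) ^ k * (2 * (k : PowerSeries ℤ) + 1) * PowerSeries.X ^ (k * (k + 1) / 2) *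
      gb (2 * n + 1) (n - k) * Pn n -
      (-1) ^ k * (2 * (k : PowerSeries ℤ) + 1) * PowerSeries.X ^ (k * (k + 1) / 2) =
      (-1) ^ k * (2 * (k : PowerSeries ℤ) + 1) * (PowerSeries.X ^ (k * (k + 1) / 2) *
        (gb (2 * n + 1) (n - k) * Pn n - 1)) := by ring
  rw [h2]
  apply Dvd.dvd.mul_left
  have h3 : (PowerSeries.X : PowerSeries ℤ) ^ (n + 1) ∣
      PowerSeries.X ^ (k * (k + 1) / 2) * PowerSeries.X ^ (n - k + 1) := by
    rw [← pow_add]
    apply pow_dvd_pow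
    have := le_tri k
    omega
  exact h3.trans (mul_dvd_mul_left _ (gb_Pn n k (by omega)))

private theorem coeff_sum (n i : ℕ) (hi : i < n + 1) :
    PowerSeries.coeff i (∑ k ∈ range (n + 1), (-1) ^ k * (2 * (k : PowerSeries ℤ) + 1) *
      (PowerSeries.X : PowerSeries ℤ) ^ (k * (k + 1) / 2)) = PowerSeries.coeff i Fz := by
  have hterm : ∀ k : ℕ, PowerSeries.coeff i ((-1) ^ k * (2 * (k : PowerSeries ℤ) + 1) *
      (PowerSeries.X : PowerSeries ℤ) ^ (k * (k + 1) / 2)) =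
      if k * (k + 1) = 2 * i then (-1) ^ k * (2 * (k : ℤ) + 1) else 0 := by
    intro k
    have h1 : (-1) ^ k * (2 * (k : PowerSeries ℤ) + 1) =
        PowerSeries.C ((-1) ^ k * (2 * (k : ℤ) + 1)) := by
      simp
    rw [h1, PowerSeries.coeff_C_mul, PowerSeries.coeff_X_pow]
    have h2 : (i = k * (k + 1) / 2) ↔ k * (k + 1) = 2 * i := by
      have := (Nat.even_mul_succ_self k).two_dvd
      omega
    by_cases h3 : i = k * (k + 1) / 2
    · rw [if_pos h3, if_pos (h2.1 h3), mul_one]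
    · rw [if_neg h3, if_neg (fun h => h3 (h2.2 h)), mul_zero]
  rw [map_sum, sum_congr rfl (fun k _ => hterm k), Fz, PowerSeries.coeff_mk]
  symm
  apply sum_subset
  · intro x hx
    rw [mem_range] at hx ⊢
    omega
  · intro x _ hx
    rw [mem_range] at hx
    rw [if_neg]
    intro h
    have := le_tri x
    rw [h, Nat.mul_div_cancel_left _ two_pos] at this
    omega

theorem jacobi : (PowerSeries.pentagonalSeries ℤ) ^ 3 = Fz := by
  ext n
  rw [← coeff_sum n n (by omega)]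
  have h1 := Pn_pent n
  have h2 : (PowerSeries.X : PowerSeries ℤ) ^ (n + 1) ∣
      Pn n ^ 3 - PowerSeries.pentagonalSeries ℤ ^ 3 := h1.trans (sub_dvd_pow_sub_pow _ _ 3)
  have h3 := Pn_cube n
  have h4 := PowerSeries.X_pow_dvd_iff.1 h2 n (by omega)
  have h5 := PowerSeries.X_pow_dvd_iff.1 h3 n (by omega)
  rw [map_sub, sub_eq_zero] at h4 h5
  rw [← h4, h5]

end Pool.Agent.Lib.MP_06b9d2_nt
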