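import Pool.Agent.Lib.MP_06b9d2_nt.MD.Frob

/-!
Module MD-Real (MP_06b9d2_nt, Maeda). Cusp forms of all even weights `k ≥ 12 N + 16` congruent to `θ ^ e Δ ^ N` modulo `7`.

`D = Dq` is `q d/dq` (`Pool/Agent/Lib/L1`). Modulo `7`: `E6z = 1` (`504 = 7 * 72`), so `ramZ6` (`2 D E6z = E2z E6z - E4z ^ 2`) gives `E2z = E4z ^ 2`. `Dq_Delz`: `D Delz = E2z Delz`, so `D (Delz ^ N) = N E2z Delz ^ N` and `N = 1` modulo `7` (`eight_Ns`: `8 N = 1 + 7 ^ ..`). So modulo `7`: `E4z ^ 2 Delz ^ N = D (Delz ^ N)`; with `ramZ2` (`12 D E2z = E2z ^ 2 - E4z`): `12 D D (Delz ^ N) = 12 D (N E2z Delz ^ N) = N (E2z ^ 2 - E4z) Delz ^ N + 12 N ^ 2 E2z ^ 2 Delz ^ N = (13 E2z ^ 2 - E4z) Delz ^ N = - (E4z ^ 4 + E4z) Delz ^ N` modulo `7`, i.e. `(E4z ^ 4 + E4z E6z ^ 2) Delz ^ N = - 12 D D (Delz ^ N) = 2 D D (Delz ^ N)`.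
Let `d = k - 12 N ≥ 16`, even. `d = 6 r + 8 e` with `e ∈ {0, 1, 2}`, `r ≥ 0` (`d ≡ 2 e` modulo `6`). Take `a = Delz ^ N * E6z ^ r * (1, E4z ^ 2, E4z ^ 4 + E4z * E6z ^ 2)` for `e = 0, 1, 2` and `c = 1, 1, 2`: the coefficient `m` of `D ^ e (Delz ^ N)` is `m ^ e` times that of `Delz ^ N` (`coeff_Dq`).
`a` is the `q`-expansion of a cusp form of weight `k`: let `Mf k g := ∃ f : ModularForm 𝒮ℒ k, qExpansion 1 f = PowerSeries.map (Int.castRingHom ℂ) g`. Products: `ModularForm.mul` and `ModularForm.qExpansion_mul` (`one_pos`, `(1 : ℝ) ∈ 𝒮ℒ.strictPeriods`), sums: `ModularForm.qExpansion_add`; equality of weights: `ModularForm.mcast`, or state `Mf` with a variable weight and an equation. `Delz`, `E4z`, `E6z` are in `Mf 12`, `Mf 4`, `Mf 6` (`map_Delz` and `CuspForm.discriminant`/`discriminant` as a modular form, `map_E4z`, `map_E6z`), `1` in `Mf 0`. Finally the constant coefficient of `a` is `0` (`coeff_zero_Delz`,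 `N ≥ 1`), so `toCuspForm` (Mathlib, `CuspFormSubmodule.lean`) gives the cusp form.
-/

namespace Pool.Agent.Lib.MP_06b9d2_nt

open UpperHalfPlane
open scoped MatrixGroups ModularForm

open Pool.Agent.L1

/-- `g` is the `q`-expansion of a modular form of weight `k` -/
private def Mf (k : ℤ) (g : PowerSeries ℤ) : Prop :=
  ∃ f : ModularForm 𝒮ℒ k, qExpansion 1 f = PowerSeries.map (Int.castRingHom ℂ) g

private theorem Mf_mul {k l : ℤ} {g h : PowerSeries ℤ} (hg : Mf k g) (hh : Mf l h) :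
    Mf (k + l) (g * h) := by
  obtain ⟨f, hf⟩ := hg
  obtain ⟨f', hf'⟩ := hh
  refine ⟨f.mul f', ?_⟩
  rw [ModularForm.qExpansion_mul one_pos one_mem_strictPeriods_SL, hf, hf', map_mul]

private theorem Mf_add {k : ℤ} {g h : PowerSeries ℤ} (hg : Mf k g) (hh : Mf k h) :
    Mf k (g + h) := by
  obtain ⟨f, hf⟩ := hg
  obtain ⟨f', hf'⟩ := hh
  refine ⟨f + f', ?_⟩
  rw [FunLike.coe_add, ModularForm.qExpansion_add one_pos one_mem_strictPeriods_SL, hf, hf',
    map_add]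

private theorem Mf_pow {k : ℤ} {g : PowerSeries ℤ} (hg : Mf k g) (n : ℕ) :
    Mf (n * k) (g ^ n) := by
  induction n with
  | zero =>
    rw [Nat.cast_zero, zero_mul, pow_zero]
    exact ⟨1, by rw [ModularForm.qExpansion_one, map_one]⟩
  | succ n ih =>
    have h := Mf_mul ih hg
    have e : (n : ℤ) * k + k = ((n + 1 : ℕ) : ℤ) * k := by push_cast; ring
    rw [e] at h
    exact h

private theorem Mf_Delz : Mf 12 Delz := by
  refine ⟨CuspForm.toModularFormₗ CuspForm.discriminant, ?_⟩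
  rw [map_Delz]
  rfl

private theorem Mf_E4z : Mf 4 E4z := ⟨_, map_E4z.symm⟩

private theorem Mf_E6z : Mf 6 E6z := ⟨_, map_E6z.symm⟩

private theorem rl_E6 : PowerSeries.map (Int.castRingHom (ZMod 7)) E6z = 1 := by
  ext n
  rw [PowerSeries.coeff_map, coeff_E6z, PowerSeries.coeff_one]
  split_ifs with h
  · simp
  · have h504 : ((-504 : ℤ) : ZMod 7) = 0 := by decide
    rw [eq_intCast, Int.cast_mul, h504, zero_mul]

private theorem rl_E2 : PowerSeries.map (Int.castRingHom (ZMod 7)) E2z =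
    PowerSeries.map (Int.castRingHom (ZMod 7)) E4z ^ 2 := by
  have h := congrArg (PowerSeries.map (Int.castRingHom (ZMod 7))) ramZ6
  rw [map_mul, ← Dq_map, map_sub, map_mul, map_pow, rl_E6, Dq_one, mul_zero, mul_one] at h
  exact (sub_eq_zero.1 h.symm)

private theorem rl_pow (N : ℕ) : Dq (Delz ^ N) = (N : PowerSeries ℤ) * (E2z * Delz ^ N) := by
  induction N with
  | zero => rw [pow_zero, Dq_one, Nat.cast_zero, zero_mul]
  | succ n ih =>
    rw [pow_succ, Dq_mul, ih, Dq_Delz, Nat.cast_add, Nat.cast_one]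
    ring

private theorem rl_N (s : ℕ) : ((Ns s : ℕ) : ZMod 7) = 1 := by
  have h := congrArg (Nat.cast : ℕ → ZMod 7) (eight_Ns s)
  have h7 : (7 : ZMod 7) = 0 := by decide
  have h8 : (8 : ZMod 7) = 1 := by decide
  push_cast at h
  rw [h7, h8, one_mul, zero_pow (by omega), add_zero] at h
  exact h

/-- the derivative of `Δ ^ N` modulo `7` -/
private theorem rl_D1 (s : ℕ) :
    Dq (PowerSeries.map (Int.castRingHom (ZMod 7)) (Delz ^ Ns s)) =
      PowerSeries.map (Int.castRingHom (ZMod 7)) E2z *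
        PowerSeries.map (Int.castRingHom (ZMod 7)) (Delz ^ Ns s) := by
  have h1 : ((Ns s : ℕ) : PowerSeries (ZMod 7)) = 1 := by
    have h2 := congrArg (PowerSeries.C : ZMod 7 → PowerSeries (ZMod 7)) (rl_N s)
    rw [map_natCast, map_one] at h2
    exact h2
  rw [Dq_map, rl_pow, map_mul, map_natCast, h1, one_mul, map_mul]

private theorem rl_D2 (s : ℕ) :
    2 * Dq (Dq (PowerSeries.map (Int.castRingHom (ZMod 7)) (Delz ^ Ns s))) =
      (PowerSeries.map (Int.castRingHom (ZMod 7)) E4z ^ 4 +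
        PowerSeries.map (Int.castRingHom (ZMod 7)) E4z) *
        PowerSeries.map (Int.castRingHom (ZMod 7)) (Delz ^ Ns s) := by
  have h12 : (12 : PowerSeries (ZMod 7)) = -2 := by
    have h := congrArg (PowerSeries.C : ZMod 7 → PowerSeries (ZMod 7))
      (show (12 : ZMod 7) = -2 by decide)
    rw [map_neg, map_ofNat, map_ofNat] at h
    exact h
  have h := congrArg (PowerSeries.map (Int.castRingHom (ZMod 7))) ramZ2
  rw [map_mul, ← Dq_map, map_sub, map_pow, map_ofNat, h12, rl_E2] at h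
  rw [rl_D1, Dq_mul, rl_D1, rl_E2]
  linear_combination (-(PowerSeries.map (Int.castRingHom (ZMod 7)) (Delz ^ Ns s))) * h

private theorem rl_main (s : ℕ) (k : ℤ) (a : PowerSeries ℤ) (c : ZMod 7) (e : ℕ) (hM : Mf k a)
    (h0 : PowerSeries.coeff 0 a = 0) (hc : c ≠ 0)
    (h : ∀ m : ℕ, ((PowerSeries.coeff m a : ℤ) : ZMod 7) =
        c * (m : ZMod 7) ^ e * ((PowerSeries.coeff m (Delz ^ Ns s) : ℤ) : ZMod 7)) :
    ∃ (f : CuspForm 𝒮ℒ k) (a : PowerSeries ℤ) (c : ZMod 7) (e : ℕ),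
      PowerSeries.map (Int.castRingHom ℂ) a = qExpansion 1 f ∧ c ≠ 0 ∧
      ∀ m : ℕ, ((PowerSeries.coeff m a : ℤ) : ZMod 7) =
        c * (m : ZMod 7) ^ e * ((PowerSeries.coeff m (Delz ^ Ns s) : ℤ) : ZMod 7) := by
  obtain ⟨f, hf⟩ := hM
  refine ⟨ModularForm.toCuspForm f ?_, a, c, e, ?_, hc, h⟩
  · rw [hf, PowerSeries.coeff_map, h0, map_zero]
  · exact hf.symm

theorem realize (s : ℕ) (k : ℤ) (hk : Even k) (hk2 : 12 * (Ns s : ℤ) + 16 ≤ k) :
    ∃ (f : CuspForm 𝒮ℒ k) (a : PowerSeries ℤ) (c : ZMod 7) (e : ℕ),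
      PowerSeries.map (Int.castRingHom ℂ) a = qExpansion 1 f ∧ c ≠ 0 ∧
      ∀ m : ℕ, ((PowerSeries.coeff m a : ℤ) : ZMod 7) =
        c * (m : ZMod 7) ^ e * ((PowerSeries.coeff m (Delz ^ Ns s) : ℤ) : ZMod 7) := by
  have hN : 1 ≤ Ns s := by
    have := eight_Ns s
    omega
  have hz : PowerSeries.coeff 0 (Delz ^ Ns s) = 0 := by
    rw [PowerSeries.coeff_zero_eq_constantCoeff_apply, map_pow,
      ← PowerSeries.coeff_zero_eq_constantCoeff_apply, coeff_zero_Delz, zero_pow (by omega)]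
  have hz' : ∀ g : PowerSeries ℤ, PowerSeries.coeff 0 (Delz ^ Ns s * g) = 0 := by
    intro g
    rw [PowerSeries.coeff_zero_eq_constantCoeff_apply, map_mul,
      ← PowerSeries.coeff_zero_eq_constantCoeff_apply, hz, zero_mul]
  have hcase : ∃ r : ℕ, k = 12 * (Ns s : ℤ) + 6 * r ∨ k = 12 * (Ns s : ℤ) + (8 + 6 * r) ∨
      k = 12 * (Ns s : ℤ) + (16 + 6 * r) := by
    obtain ⟨t, ht⟩ := hk
    have h3 : (k - 12 * (Ns s : ℤ)) % 6 = 0 ∨ (k - 12 * (Ns s : ℤ)) % 6 = 2 ∨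
      (k - 12 * (Ns s : ℤ)) % 6 = 4 := by omega
    rcases h3 with h3 | h3 | h3
    · exact ⟨((k - 12 * (Ns s : ℤ)) / 6).toNat, by omega⟩
    · exact ⟨((k - 12 * (Ns s : ℤ) - 8) / 6).toNat, by omega⟩
    · exact ⟨((k - 12 * (Ns s : ℤ) - 16) / 6).toNat, by omega⟩
  have h6 : ∀ r : ℕ, PowerSeries.map (Int.castRingHom (ZMod 7)) (E6z ^ r) = 1 := by
    intro r
    rw [map_pow, rl_E6, one_pow]
  have hco : ∀ (g : PowerSeries ℤ) (m : ℕ), ((PowerSeries.coeff m g : ℤ) : ZMod 7) =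
      PowerSeries.coeff m (PowerSeries.map (Int.castRingHom (ZMod 7)) g) := by
    intro g m
    rw [PowerSeries.coeff_map, eq_intCast]
  obtain ⟨r, h | h | h⟩ := hcase
  · refine rl_main s k (Delz ^ Ns s * E6z ^ r) 1 0 ?_ (hz' _) (by decide) fun m => ?_
    · have h1 := Mf_mul (Mf_pow Mf_Delz (Ns s)) (Mf_pow Mf_E6z r)
      have e : (Ns s : ℤ) * 12 + (r : ℤ) * 6 = k := by rw [h]; ring
      rw [e] at h1
      exact h1
    · rw [hco, hco, map_mul (PowerSeries.map (Int.castRingHom (ZMod 7))) (Delz ^ Ns s), h6, mul_one,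
        pow_zero, one_mul, one_mul]
  · refine rl_main s k (Delz ^ Ns s * (E4z ^ 2 * E6z ^ r)) 1 1 ?_ (hz' _) (by decide) fun m => ?_
    · have h1 := Mf_mul (Mf_pow Mf_Delz (Ns s)) (Mf_mul (Mf_pow Mf_E4z 2) (Mf_pow Mf_E6z r))
      have e : (Ns s : ℤ) * 12 + (((2 : ℕ) : ℤ) * 4 + (r : ℤ) * 6) = k := by
        rw [h]; push_cast; ring
      rw [e] at h1
      exact h1
    · rw [hco, hco, map_mul (PowerSeries.map (Int.castRingHom (ZMod 7))) (Delz ^ Ns s),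
        map_mul (PowerSeries.map (Int.castRingHom (ZMod 7))) (E4z ^ 2), h6, mul_one,
        map_pow (PowerSeries.map (Int.castRingHom (ZMod 7))) E4z, ← rl_E2, mul_comm, ← rl_D1,
        coeff_Dq, pow_one, one_mul]
  · refine rl_main s k (Delz ^ Ns s * ((E4z ^ 4 + E4z * E6z ^ 2) * E6z ^ r)) 2 2 ?_ (hz' _)
      (by decide) fun m => ?_
    · have h2 := Mf_mul Mf_E4z (Mf_pow Mf_E6z 2)
      have e2 : (4 : ℤ) + ((2 : ℕ) : ℤ) * 6 = ((4 : ℕ) : ℤ) * 4 := by norm_num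
      rw [e2] at h2
      have h1 := Mf_mul (Mf_pow Mf_Delz (Ns s)) (Mf_mul (Mf_add (Mf_pow Mf_E4z 4) h2)
        (Mf_pow Mf_E6z r))
      have e : (Ns s : ℤ) * 12 + (((4 : ℕ) : ℤ) * 4 + (r : ℤ) * 6) = k := by
        rw [h]; push_cast; ring
      rw [e] at h1
      exact h1
    · have h2 := congrArg (PowerSeries.coeff m) (rl_D2 s)
      have h3 : (2 : PowerSeries (ZMod 7)) = PowerSeries.C (2 : ZMod 7) := (map_ofNat _ 2).symm
      rw [h3, PowerSeries.coeff_C_mul, coeff_Dq, coeff_Dq] at h2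
      rw [hco, hco, map_mul (PowerSeries.map (Int.castRingHom (ZMod 7))) (Delz ^ Ns s),
        map_mul (PowerSeries.map (Int.castRingHom (ZMod 7))) (E4z ^ 4 + E4z * E6z ^ 2), h6, mul_one,
        map_add, map_mul (PowerSeries.map (Int.castRingHom (ZMod 7))) E4z, h6, mul_one,
        map_pow (PowerSeries.map (Int.castRingHom (ZMod 7))) E4z,
        mul_comm, ← h2]
      ring

end Pool.Agent.Lib.MP_06b9d2_nt
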