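import Pool.Agent.Lib.MP_06b9d2_nt.MD.Coef
import Pool.Agent.Lib.MP_06b9d2_nt.MD.Crit
import Pool.Agent.Lib.MP_06b9d2_nt.MD.Real

/-!
Module MD-Low (MP_06b9d2_nt, Maeda). The lower bound for the degree of the minimal polynomial of `T_2`.

`low_s`: `realize`, `coef_zero`, `coef_ne`, `crit` with `p = 7`, `J = 7 ^ s - 1`; `(2 ^ j : ZMod 7) ≠ 0`.
`low`: `k ≥ 12` (`CuspForm.rank_eq_zero_of_weight_lt_twelve`; the space is not trivial). The degree is at least `1` (`minpoly.natDegree_pos`, `fin_cusp`, `Nontrivial`). If `k < 28`: `√k / 24 ≤ 1`. Otherwise let `s` be maximal with `12 N_s + 16 ≤ k` (`12 N_0 + 16 = 28`; `Nat.findGreatest`, or induction; `N_s ≥ s`): `k < 12 N_{s+1} + 16`, and `8 N_{s+1} = 1 + 7 ^ (2 s + 3) = 1 + 343 * 49 ^ s`, so `2 k < 3 (1 + 343 * 49 ^ s) + 32 ≤ 2 * 576 * 49 ^ s` (`1029 * 49 ^ s + 35 ≤ 1152 * 49 ^ s`), `√k ≤ 24 * 7 ^ s` and `low_s` gives degree `≥ 7 ^ s`.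
-/

namespace Pool.Agent.Lib.MP_06b9d2_nt

open UpperHalfPlane
open scoped MatrixGroups ModularForm

private theorem low_two_ne : (2 : ZMod 7) ≠ 0 := by decide

theorem low_s (s : ℕ) (k : ℤ) (hk : Even k) (hk2 : 12 * (Ns s : ℤ) + 16 ≤ k)
    {T : CuspForm 𝒮ℒ k →ₗ[ℂ] CuspForm 𝒮ℒ k} (hT : IsHecke k 2 T) :
    7 ^ s ≤ (minpoly ℂ T).natDegree := by
  have hF : Fact (Nat.Prime 7) := ⟨by norm_num⟩
  obtain ⟨f, a, c, e, h1, hc, h2⟩ := realize s k hk hk2
  have h7 : 0 < 7 ^ s := by positivity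
  obtain ⟨J, hJ⟩ : ∃ J, J + 1 = 7 ^ s := ⟨7 ^ s - 1, by omega⟩
  have hk1 : 1 ≤ k := by
    have : (0 : ℤ) ≤ Ns s := by positivity
    linarith
  have h := crit hk1 hT f a h1 7 J (by
    intro j hj
    rw [h2, coef_zero s j (by omega), mul_zero]) (by
    rw [h2]
    refine mul_ne_zero (mul_ne_zero hc (pow_ne_zero _ ?_)) (coef_ne s J hJ)
    push_cast
    exact pow_ne_zero _ low_two_ne)
  omega

theorem low (k : ℤ) (hk : Even k) [Nontrivial (CuspForm 𝒮ℒ k)]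
    {T : CuspForm 𝒮ℒ k →ₗ[ℂ] CuspForm 𝒮ℒ k} (hT : IsHecke k 2 T) :
    Real.sqrt k / 24 ≤ ((minpoly ℂ T).natDegree : ℝ) := by
  have hfin : Module.Finite ℂ (CuspForm 𝒮ℒ k) := fin_cusp k
  have hk12 : 12 ≤ k := by
    by_contra hc
    have h1 := CuspForm.rank_eq_zero_of_weight_lt_twelve (k := k) (by omega)
    have h2 := rank_pos (R := ℂ) (M := CuspForm 𝒮ℒ k)
    rw [h1] at h2
    exact lt_irrefl _ h2
  have hdeg : 1 ≤ (minpoly ℂ T).natDegree := by
    have hint : IsIntegral ℂ T := Algebra.IsIntegral.isIntegral T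
    exact minpoly.natDegree_pos hint
  have hk0 : (0 : ℝ) ≤ k := by
    have : (12 : ℝ) ≤ k := by exact_mod_cast hk12
    linarith
  rcases lt_or_ge k 28 with h28 | h28
  · have h1 : Real.sqrt k ≤ 24 := by
      rw [Real.sqrt_le_left (by norm_num)]
      have : (k : ℝ) ≤ 28 := by exact_mod_cast h28.le
      linarith
    have h2 : (1 : ℝ) ≤ ((minpoly ℂ T).natDegree : ℝ) := by exact_mod_cast hdeg
    linarith
  · have hex : ∃ s : ℕ, 12 * (Ns s : ℤ) + 16 ≤ k ∧ k < 12 * (Ns (s + 1) : ℤ) + 16 := by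
      have hN0 : Ns 0 = 1 := by decide
      by_contra hc
      push Not at hc
      have hall : ∀ s : ℕ, 12 * (Ns s : ℤ) + 16 ≤ k := by
        intro s
        induction s with
        | zero => rw [hN0]; push_cast; linarith
        | succ s ih => exact hc s ih
      have hgrow : ∀ s : ℕ, (s : ℤ) ≤ Ns s := by
        intro s
        have h8 := eight_Ns s
        rw [pow_succ] at h8
        have h49 : 2 * s < 7 ^ (2 * s) := (2 * s).lt_pow_self (by norm_num)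
        have : s ≤ Ns s := by
          generalize 7 ^ (2 * s) = y at h8 h49
          omega
        exact_mod_cast this
      have h1 := hall k.toNat
      have h2 := hgrow k.toNat
      have h3 : (k.toNat : ℤ) = k := Int.toNat_of_nonneg (by linarith)
      rw [h3] at h2
      linarith
    obtain ⟨s, hs1, hs2⟩ := hex
    have h7 := low_s s k hk hs1 hT
    have h8 := eight_Ns (s + 1)
    have hpow : 7 ^ (2 * (s + 1) + 1) = 343 * (7 ^ s) ^ 2 := by
      rw [← pow_mul, show 2 * (s + 1) + 1 = 3 + s * 2 by ring, pow_add]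
      norm_num
    rw [hpow] at h8
    have h8z : 8 * (Ns (s + 1) : ℤ) = 1 + 343 * ((7 : ℤ) ^ s) ^ 2 := by exact_mod_cast h8
    have h1 : 1 ≤ ((7 : ℤ) ^ s) ^ 2 := one_le_pow₀ (one_le_pow₀ (by norm_num))
    have h9 : k ≤ 576 * ((7 : ℤ) ^ s) ^ 2 := by linarith
    have h10 : (k : ℝ) ≤ (24 * (7 : ℝ) ^ s) ^ 2 := by
      have : (k : ℝ) ≤ 576 * ((7 : ℝ) ^ s) ^ 2 := by exact_mod_cast h9
      calc (k : ℝ) ≤ 576 * ((7 : ℝ) ^ s) ^ 2 := this
        _ = (24 * (7 : ℝ) ^ s) ^ 2 := by ring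
    have h11 : Real.sqrt k ≤ 24 * (7 : ℝ) ^ s := Real.sqrt_le_iff.2 ⟨by positivity, h10⟩
    have h12 : (7 : ℝ) ^ s ≤ ((minpoly ℂ T).natDegree : ℝ) := by exact_mod_cast h7
    linarith

end Pool.Agent.Lib.MP_06b9d2_nt
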