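import Pool.Agent.Lib.MP_06b9d2_nt.MD.Defs

/-!
Module MD-Luc (MP_06b9d2_nt, Maeda). The Lucas sequences.

`lU_add`, `lV_add`: induction on `n` (two steps; `lU (m + n + 2) = lU (m + n + 1) - 2 lU (m + n)` etc.). With `n = 1`: `2 lU (m + 1) = lU m + lV m`, `2 lV (m + 1) = lV m - 7 lU m`.
`lUV_norm`: induction with these: `4 (lV (n + 1) ^ 2 + 7 lU (n + 1) ^ 2) = (V - 7 U) ^ 2 + 7 (U + V) ^ 2 = 8 (V ^ 2 + 7 U ^ 2)`.
`lUV_odd`: induction, two steps (`lU (n + 2) ≡ lU (n + 1)` modulo `2`).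
`lUV_unique`: induction on `n ≥ 1`. `n = 1`: `a ^ 2 + 7 c ^ 2 = 8` with `c` odd, so `c ^ 2 = 1`, `a ^ 2 = 1`. Step `n → n + 1` (`n ≥ 1`, `a ^ 2 + 7 c ^ 2 = 2 ^ (n + 3)`): `a, c` odd, so `4 ∣ a - c` or `4 ∣ a + c`; replace `c` by `- c` in the second case. Let `c' = (c - a) / 4`, `a' = (a + 7 c) / 4 = c + ... ` (`4 a' = a + 7 c`, `4 c' = c - a`, `4 ∣ a + 7 c` because `a + 7 c = (a - c) + 8 c`).
Then `a' ^ 2 + 7 c' ^ 2 = (a ^ 2 + 7 c ^ 2) / 2 = 2 ^ (n + 2)`, `2 a = a' - 7 c'`, `2 c = a' + c'`. `a'`, `c'` have the same parity. If both are even, `a' = 2 x`, `c' = 2 y`, then `c = x + y` is odd, so `x ^ 2 + 7 y ^ 2` is odd, but it is `2 ^ n`, `n ≥ 1`: contradiction. So both are odd and by induction `a' ^ 2 = lV n ^ 2`, `c' ^ 2 = lU n ^ 2`, i.e. `a' = ± lV n`, `c' = ± lU n` (`sq_eq_sq_iff_eq_or_eq_neg`).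
Equal signs: `2 c = ± (lV n + lU n) = ± 2 lU (n + 1)`, `2 a = ± (lV n - 7 lU n) = ± 2 lV (n + 1)`: done. Opposite signs: `2 c = ± (lV n - lU n)`, and `lV n - lU n = - 4 lU (n - 1)` (from `2 lU n = lU (n - 1) + lV (n - 1)`, `2 lV n = lV (n - 1) - 7 lU (n - 1)`), so `c` is even: contradiction.
-/

namespace Pool.Agent.Lib.MP_06b9d2_nt

private theorem Luc_U0 : lU 0 = 0 := rfl
private theorem Luc_U1 : lU 1 = 1 := rfl
private theorem Luc_V0 : lV 0 = 2 := rfl
private theorem Luc_V1 : lV 1 = 1 := rfl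
private theorem Luc_Us (n : ℕ) : lU (n + 2) = lU (n + 1) - 2 * lU n := rfl
private theorem Luc_Vs (n : ℕ) : lV (n + 2) = lV (n + 1) - 2 * lV n := rfl

private theorem Luc_step (m : ℕ) : 2 * lU (m + 1) = lU m + lV m ∧
    2 * lV (m + 1) = lV m - 7 * lU m := by
  induction m using Nat.twoStepInduction with
  | zero => simp [Luc_U0, Luc_U1, Luc_V0, Luc_V1]
  | one => simp [Luc_Us, Luc_Vs, Luc_U0, Luc_U1, Luc_V0, Luc_V1]
  | more m h1 h2 =>
    obtain ⟨a1, a2⟩ := h1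
    obtain ⟨b1, b2⟩ := h2
    have c1 := Luc_Us m
    have c2 := Luc_Us (m + 1)
    have d1 := Luc_Vs m
    have d2 := Luc_Vs (m + 1)
    have e1 : m + 1 + 1 = m + 2 := rfl
    have e2 : m + 2 + 1 = m + 1 + 2 := rfl
    rw [e1] at *
    rw [e2]
    constructor <;> linarith

theorem lU_add (m n : ℕ) : 2 * lU (m + n) = lU m * lV n + lV m * lU n := by
  induction n using Nat.twoStepInduction with
  | zero => rw [Luc_V0, Luc_U0, Nat.add_zero]; ring
  | one => rw [Luc_V1, Luc_U1, (Luc_step m).1]; ring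
  | more n h1 h2 =>
    have c : lU (m + (n + 2)) = lU (m + (n + 1)) - 2 * lU (m + n) := Luc_Us (m + n)
    rw [c, Luc_Us n, Luc_Vs n]
    linear_combination h2 - 2 * h1

theorem lV_add (m n : ℕ) : 2 * lV (m + n) = lV m * lV n - 7 * (lU m * lU n) := by
  induction n using Nat.twoStepInduction with
  | zero => rw [Luc_V0, Luc_U0, Nat.add_zero]; ring
  | one => rw [Luc_V1, Luc_U1, (Luc_step m).2]; ring
  | more n h1 h2 =>
    have c : lV (m + (n + 2)) = lV (m + (n + 1)) - 2 * lV (m + n) := Luc_Vs (m + n)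
    rw [c, Luc_Us n, Luc_Vs n]
    linear_combination h2 - 2 * h1

theorem lUV_norm (n : ℕ) : lV n ^ 2 + 7 * lU n ^ 2 = 2 ^ (n + 2) := by
  induction n with
  | zero => rw [Luc_V0, Luc_U0]; norm_num
  | succ n ih =>
    obtain ⟨h1, h2⟩ := Luc_step n
    have e : 4 * (lV (n + 1) ^ 2 + 7 * lU (n + 1) ^ 2) = 4 * (2 * (lV n ^ 2 + 7 * lU n ^ 2)) := by
      linear_combination (2 * lV (n + 1) + (lV n - 7 * lU n)) * h2 +
        7 * (2 * lU (n + 1) + (lU n + lV n)) * h1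
    have e2 : lV (n + 1) ^ 2 + 7 * lU (n + 1) ^ 2 = 2 * (lV n ^ 2 + 7 * lU n ^ 2) := by
      linarith
    rw [e2, ih]
    ring

theorem lUV_odd (n : ℕ) (hn : 1 ≤ n) : Odd (lU n) ∧ Odd (lV n) := by
  have h : ∀ m : ℕ, (Odd (lU (m + 1)) ∧ Odd (lV (m + 1))) := by
    intro m
    induction m with
    | zero => exact ⟨by rw [Luc_U1]; exact odd_one, by rw [Luc_V1]; exact odd_one⟩
    | succ m ih =>
      rw [Luc_Us m, Luc_Vs m]
      exact ⟨ih.1.sub_even (even_two_mul _), ih.2.sub_even (even_two_mul _)⟩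
  obtain ⟨m, rfl⟩ : ∃ m, n = m + 1 := ⟨n - 1, by omega⟩
  exact h m

private theorem Luc_uni (n : ℕ) : ∀ a c : ℤ, Odd a → Odd c →
    a ^ 2 + 7 * c ^ 2 = 2 ^ (n + 1 + 2) → a ^ 2 = lV (n + 1) ^ 2 ∧ c ^ 2 = lU (n + 1) ^ 2 := by
  induction n with
  | zero =>
    intro a c ha hc h
    rw [Luc_U1, Luc_V1]
    have hc1 : 1 ≤ c ^ 2 := by
      have : c ≠ 0 := by rintro rfl; exact absurd hc (by decide)
      nlinarith [Int.one_le_abs this, sq_abs c]
    have ha0 : 0 ≤ a ^ 2 := sq_nonneg a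
    norm_num at h
    have : c ^ 2 = 1 := by nlinarith
    constructor
    · rw [this] at h; linarith
    · rw [this]; norm_num
  | succ n ih =>
    -- the case `4 ∣ a - c`
    have key : ∀ a c : ℤ, Odd a → Odd c → (4 : ℤ) ∣ c - a →
        a ^ 2 + 7 * c ^ 2 = 2 ^ (n + 1 + 1 + 2) →
        a ^ 2 = lV (n + 1 + 1) ^ 2 ∧ c ^ 2 = lU (n + 1 + 1) ^ 2 := by
      intro a c ha hc h4 h
      obtain ⟨c', hc'⟩ := h4
      obtain ⟨a', ha'⟩ : ∃ a', a + 7 * c = 4 * a' := ⟨2 * c - c', by linarith⟩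
      have e1 : 2 * a = a' - 7 * c' := by linarith
      have e2 : 2 * c = a' + c' := by linarith
      have hn : a' ^ 2 + 7 * c' ^ 2 = 2 ^ (n + 1 + 2) := by
        have h5 : 4 * (a ^ 2 + 7 * c ^ 2) = 8 * (a' ^ 2 + 7 * c' ^ 2) := by
          linear_combination (2 * a + (a' - 7 * c')) * e1 + 7 * (2 * c + (a' + c')) * e2
        have h6 : (2 : ℤ) ^ (n + 1 + 1 + 2) = 2 * 2 ^ (n + 1 + 2) := by ring
        rw [h, h6] at h5
        linarith
      have hpar : Odd a' ∧ Odd c' := by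
        rcases Int.even_or_odd c' with hev | hod
        · exfalso
          obtain ⟨y, hy⟩ := hev
          have hx : a' = 2 * (c - y) := by linarith
          have h7 : (c - y) ^ 2 + 7 * y ^ 2 = 2 ^ (n + 1) := by
            have h8 : (2 : ℤ) ^ (n + 1 + 2) = 4 * 2 ^ (n + 1) := by ring
            rw [hx, hy, h8] at hn
            linarith [hn]
          have h9 : Even ((c - y) ^ 2 + 7 * y ^ 2) := by
            rw [h7, pow_succ]
            exact even_two.mul_left _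
          have h10 : Odd ((c - y) ^ 2 + 7 * y ^ 2) := by
            have e : (c - y) ^ 2 + 7 * y ^ 2 = c ^ 2 + 2 * (4 * y ^ 2 - c * y) := by ring
            rw [e]
            exact (hc.pow).add_even (even_two_mul _)
          exact (Int.not_even_iff_odd.2 h10) h9
        · refine ⟨?_, hod⟩
          have e : a' = 2 * c - c' := by linarith
          rw [e]
          exact (even_two_mul c).sub_odd hod
      obtain ⟨s1, s2⟩ := ih a' c' hpar.1 hpar.2 hn
      obtain ⟨t1, t2⟩ := Luc_step (n + 1)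
      have sE : n + 1 + 1 = n + 2 := rfl
      rcases sq_eq_sq_iff_eq_or_eq_neg.1 s1 with r1 | r1 <;>
        rcases sq_eq_sq_iff_eq_or_eq_neg.1 s2 with r2 | r2
      · have a1 : a = lV (n + 1 + 1) := by rw [r1, r2] at e1; linarith
        have a2 : c = lU (n + 1 + 1) := by rw [r1, r2] at e2; linarith
        rw [a1, a2]
        exact ⟨rfl, rfl⟩
      · exfalso
        obtain ⟨u1, u2⟩ := Luc_step n
        have : c = 2 * (- lU n) := by
          rw [r1, r2] at e2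
          linarith
        rw [this] at hc
        exact (Int.not_even_iff_odd.2 hc) (even_two_mul _)
      · exfalso
        obtain ⟨u1, u2⟩ := Luc_step n
        have : c = 2 * (lU n) := by
          rw [r1, r2] at e2
          linarith
        rw [this] at hc
        exact (Int.not_even_iff_odd.2 hc) (even_two_mul _)
      · have a1 : a = - lV (n + 1 + 1) := by rw [r1, r2] at e1; linarith
        have a2 : c = - lU (n + 1 + 1) := by rw [r1, r2] at e2; linarith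
        rw [a1, a2]
        exact ⟨by ring, by ring⟩
    intro a c ha hc h
    have hdis : (4 : ℤ) ∣ c - a ∨ (4 : ℤ) ∣ -c - a := by
      obtain ⟨x, hx⟩ := ha
      obtain ⟨y, hy⟩ := hc
      omega
    rcases hdis with h4 | h4
    · exact key a c ha hc h4 h
    · have := key a (-c) ha hc.neg h4 (by rw [← h]; ring)
      rw [neg_sq] at this
      exact this

theorem lUV_unique (n : ℕ) (hn : 1 ≤ n) (a c : ℤ) (ha : Odd a) (hc : Odd c)
    (h : a ^ 2 + 7 * c ^ 2 = 2 ^ (n + 2)) : a ^ 2 = lV n ^ 2 ∧ c ^ 2 = lU n ^ 2 := by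
  obtain ⟨m, rfl⟩ : ∃ m, n = m + 1 := ⟨n - 1, by omega⟩
  exact Luc_uni m a c ha hc h

end Pool.Agent.Lib.MP_06b9d2_nt
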