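import Pool.Agent.Lib.MP_06b9d2_nt.MD.Low
import Pool.Agent.Lib.MP_06b9d2_nt.MD.Eig

/-!
Module MD-Main (MP_06b9d2_nt, Maeda). The theorem: `low` and `eig`.
-/

namespace Pool.Agent.Lib.MP_06b9d2_nt

open UpperHalfPlane MeasureTheory
open scoped MatrixGroups ModularForm ENNReal

theorem main (k : ℤ) (hk : Even k) [Module.Finite ℂ (CuspForm 𝒮ℒ k)]
    [Nontrivial (CuspForm 𝒮ℒ k)] (T : CuspForm 𝒮ℒ k →ₗ[ℂ] CuspForm 𝒮ℒ k) (hT : IsHecke k 2 T) :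
    Real.sqrt k / 24 ≤ ((LinearMap.charpoly T).roots.toFinset.card : ℝ) :=
  (low k hk hT).trans (by exact_mod_cast eig hT)

end Pool.Agent.Lib.MP_06b9d2_nt
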