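import Pool.Agent.Lib.MP_06b9d2_nt.MD.Defs

/-!
Module MD-Mat (MP_06b9d2_nt, Maeda). Integral matrices of determinant `2`.

`dl_bij`: for `A = (a b; c d)` with `a d - b c = 2`: modulo `2` the columns `(a, c)`, `(b, d)` are linearly dependent and not both `0` (otherwise `4 ∣ det`): exactly one of the following holds: `a, c` even; `b, d` even; `a ≡ b`, `c ≡ d` modulo `2`. Accordingly `A = γ * dl j` with `γ = (a/2 b; c/2 d)` for `dl 0 = (2 0; 0 1)`, `γ = (a b/2; c d/2)` for `dl 1 = (1 0; 0 2)`, `γ = (a (b - a)/2; c (d - c)/2)` for `dl 2 = (1 1; 0 2)`. Surjective: this. Injective: if `γ * dl j = γ' * dl j'` then `j = j'` by the exclusion (look at the columns modulo `2`: the columns of `γ` are not `0` modulo `2`), and then `γ = γ'` (`dl j` has nonzero determinant; compare the entries). `Matrix.ext`, `Fin.forall_fin_two`, `Matrix.mul_fin_two`; `FixedDetMatrix.ext'`, `smul_coe` (`Mathlib/LinearAlgebra/Matrix/FixedDetMatrices.lean`).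
`adj_adj`: `Matrix.adjugate_fin_two`. `gl_smul`: `Matrix.GeneralLinearGroup.ext`. `gl_adj`: the product `gl A * gl (adj A)` is the scalar matrix `2`, which acts trivially on `ℍ` and under which a function is multiplied by `|4| ^ (k - 1) * 2 ^ (-k) = 2 ^ (k - 2)` (next module).
-/

namespace Pool.Agent.Lib.MP_06b9d2_nt

open UpperHalfPlane MeasureTheory
open scoped MatrixGroups ModularForm ENNReal

theorem dl_par (a b c d : ℤ) (h : a * d - b * c = 2) :
    (∃ x y, a = x * 2 ∧ c = y * 2) ∨ (∃ x y, b = x * 2 ∧ d = y * 2) ∨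
      (∃ x y, b = a + x * 2 ∧ d = c + y * 2) := by
  have h1 : Even (a * d - b * c) := ⟨1, by omega⟩
  rw [Int.even_sub, Int.even_mul, Int.even_mul] at h1
  by_cases ha : Even a
  · by_cases hc : Even c
    · left
      obtain ⟨x, hx⟩ := ha
      obtain ⟨y, hy⟩ := hc
      exact ⟨x, y, by omega, by omega⟩
    · have hb : Even b := by tauto
      by_cases hd : Even d
      · right; left
        obtain ⟨x, hx⟩ := hb
        obtain ⟨y, hy⟩ := hd
        exact ⟨x, y, by omega, by omega⟩
      · right; right
        have e1 : Even (b - a) := by rw [Int.even_sub]; tauto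
        have e2 : Even (d - c) := by rw [Int.even_sub]; tauto
        obtain ⟨x, hx⟩ := e1
        obtain ⟨y, hy⟩ := e2
        exact ⟨x, y, by omega, by omega⟩
  · by_cases hc : Even c
    · have hd : Even d := by tauto
      by_cases hb : Even b
      · right; left
        obtain ⟨x, hx⟩ := hb
        obtain ⟨y, hy⟩ := hd
        exact ⟨x, y, by omega, by omega⟩
      · right; right
        have e1 : Even (b - a) := by rw [Int.even_sub]; tauto
        have e2 : Even (d - c) := by rw [Int.even_sub]; tauto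
        obtain ⟨x, hx⟩ := e1
        obtain ⟨y, hy⟩ := e2
        exact ⟨x, y, by omega, by omega⟩
    · by_cases hb : Even b
      · have hd : Even d := by tauto
        right; left
        obtain ⟨x, hx⟩ := hb
        obtain ⟨y, hy⟩ := hd
        exact ⟨x, y, by omega, by omega⟩
      · have hd : ¬ Even d := by tauto
        right; right
        have e1 : Even (b - a) := by rw [Int.even_sub]; tauto
        have e2 : Even (d - c) := by rw [Int.even_sub]; tauto
        obtain ⟨x, hx⟩ := e1
        obtain ⟨y, hy⟩ := e2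
        exact ⟨x, y, by omega, by omega⟩

theorem dl_bij : Function.Bijective (fun p : SL(2, ℤ) × Fin 3 => (p.1 • dl p.2 : M2)) := by
  constructor
  · rintro ⟨g, j⟩ ⟨g', j'⟩ h
    have h1 : (g • dl j : M2).1 = (g' • dl j' : M2).1 := congrArg Subtype.val h
    rw [FixedDetMatrices.smul_coe, FixedDetMatrices.smul_coe] at h1
    have e00 := congrFun (congrFun h1 0) 0
    have e01 := congrFun (congrFun h1 0) 1
    have e10 := congrFun (congrFun h1 1) 0
    have e11 := congrFun (congrFun h1 1) 1
    have hd := g.det_coe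
    have hd' := g'.det_coe
    rw [Matrix.det_fin_two] at hd hd'
    simp only [Matrix.mul_apply, Fin.sum_univ_two] at e00 e01 e10 e11
    have key : j = j' ∧ ((g : Matrix (Fin 2) (Fin 2) ℤ) 0 0 = (g' : Matrix (Fin 2) (Fin 2) ℤ) 0 0 ∧
        (g : Matrix (Fin 2) (Fin 2) ℤ) 0 1 = (g' : Matrix (Fin 2) (Fin 2) ℤ) 0 1 ∧
        (g : Matrix (Fin 2) (Fin 2) ℤ) 1 0 = (g' : Matrix (Fin 2) (Fin 2) ℤ) 1 0 ∧
        (g : Matrix (Fin 2) (Fin 2) ℤ) 1 1 = (g' : Matrix (Fin 2) (Fin 2) ℤ) 1 1) := by
      generalize (g : Matrix (Fin 2) (Fin 2) ℤ) 0 0 = a at *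
      generalize (g : Matrix (Fin 2) (Fin 2) ℤ) 0 1 = b at *
      generalize (g : Matrix (Fin 2) (Fin 2) ℤ) 1 0 = c at *
      generalize (g : Matrix (Fin 2) (Fin 2) ℤ) 1 1 = d at *
      generalize (g' : Matrix (Fin 2) (Fin 2) ℤ) 0 0 = a' at *
      generalize (g' : Matrix (Fin 2) (Fin 2) ℤ) 0 1 = b' at *
      generalize (g' : Matrix (Fin 2) (Fin 2) ℤ) 1 0 = c' at *
      generalize (g' : Matrix (Fin 2) (Fin 2) ℤ) 1 1 = d' at *
      fin_cases j <;> fin_cases j' <;> simp [dl] at e00 e01 e10 e11 ⊢
      · exact ⟨e00, e01, e10, e11⟩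
      · subst e00 e10
        have : 2 * (a * d' - b' * c) = 1 := by linarith
        omega
      · subst e00 e10
        have : 2 * (a * d' - b' * c) = 1 := by linarith
        omega
      · subst e00 e10
        have : 2 * (a' * d - b * c') = 1 := by linarith
        omega
      · exact ⟨e00, e01, e10, e11⟩
      · have h1 : a' = 2 * (b - b') := by linarith
        have h2 : c' = 2 * (d - d') := by linarith
        have : 2 * ((b - b') * d' - b' * (d - d')) = 1 := by
          rw [h1, h2] at hd'
          linarith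
        omega
      · subst e00 e10
        have : 2 * (a' * d - b * c') = 1 := by linarith
        omega
      · have h1 : a = 2 * (b' - b) := by linarith
        have h2 : c = 2 * (d' - d) := by linarith
        have : 2 * ((b' - b) * d - b * (d' - d)) = 1 := by
          rw [h1, h2] at hd
          linarith
        omega
      · exact ⟨e00, by omega, e10, by omega⟩
    obtain ⟨k1, k2, k3, k4, k5⟩ := key
    refine Prod.ext (Subtype.ext ?_) k1
    ext i k
    fin_cases i <;> fin_cases k <;> simpa
  · intro A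
    have hA := A.2
    rw [Matrix.det_fin_two] at hA
    rcases dl_par _ _ _ _ hA with ⟨x, y, h1, h2⟩ | ⟨x, y, h1, h2⟩ | ⟨x, y, h1, h2⟩
    · refine ⟨(⟨!![x, A.1 0 1; y, A.1 1 1], ?_⟩, 0), ?_⟩
      · rw [Matrix.det_fin_two]
        rw [h1, h2] at hA
        simp
        linarith
      · apply Subtype.ext
        show (_ • dl 0 : M2).1 = _
        rw [FixedDetMatrices.smul_coe]
        ext i k
        fin_cases i <;> fin_cases k <;> simp [dl, Matrix.mul_apply, Fin.sum_univ_two, h1, h2]
    · refine ⟨(⟨!![A.1 0 0, x; A.1 1 0, y], ?_⟩, 1), ?_⟩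
      · rw [Matrix.det_fin_two]
        rw [h1, h2] at hA
        simp
        linarith
      · apply Subtype.ext
        show (_ • dl 1 : M2).1 = _
        rw [FixedDetMatrices.smul_coe]
        ext i k
        fin_cases i <;> fin_cases k <;> simp [dl, Matrix.mul_apply, Fin.sum_univ_two, h1, h2]
    · refine ⟨(⟨!![A.1 0 0, x; A.1 1 0, y], ?_⟩, 2), ?_⟩
      · rw [Matrix.det_fin_two]
        rw [h1, h2] at hA
        simp
        linarith
      · apply Subtype.ext
        show (_ • dl 2 : M2).1 = _
        rw [FixedDetMatrices.smul_coe]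
        ext i k
        fin_cases i <;> fin_cases k <;> simp [dl, Matrix.mul_apply, Fin.sum_univ_two, h1, h2]

theorem adj_adj (A : M2) : adj (adj A) = A := by
  apply Subtype.ext
  simp only [adj]
  rw [Matrix.adjugate_fin_two, Matrix.adjugate_fin_two]
  ext i j
  fin_cases i <;> fin_cases j <;> simp

theorem gl_smul (γ : SL(2, ℤ)) (A : M2) :
    gl (γ • A) = Matrix.SpecialLinearGroup.mapGL ℝ γ * gl A := by
  apply Matrix.GeneralLinearGroup.ext
  intro i j
  simp [gl, FixedDetMatrices.smul_coe, Matrix.GeneralLinearGroup.mkOfDetNeZero, Matrix.mul_apply]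

theorem gl_adj (A : M2) (z : ℍ) : gl A • (gl (adj A) • z) = z := by
  rw [smul_smul]
  have h : gl A * gl (adj A) = Matrix.GeneralLinearGroup.scalar (Fin 2) (Units.mk0 (2 : ℝ) (by norm_num)) := by
    apply Matrix.GeneralLinearGroup.ext
    have hA := A.2
    rw [Matrix.det_fin_two] at hA
    have hA' : (A.1 0 0 : ℝ) * A.1 1 1 - A.1 0 1 * A.1 1 0 = 2 := by exact_mod_cast hA
    have h2 : (adj A).1 = !![A.1 1 1, -A.1 0 1; -A.1 1 0, A.1 0 0] := by
      show A.1.adjugate = _
      rw [Matrix.adjugate_fin_two]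
    intro i j
    simp only [gl, Matrix.GeneralLinearGroup.mkOfDetNeZero]
    fin_cases i <;> fin_cases j <;> simp [Matrix.mul_apply, Fin.sum_univ_two, h2] <;> linarith
  rw [h, UpperHalfPlane.glScalar_smul]

theorem det_gl (A : M2) : ((gl A).det : ℝ) = 2 := by
  have h : (A.1.map (Int.castRingHom ℝ)).det = 2 := by
    have := (RingHom.map_det (Int.castRingHom ℝ) A.1).symm
    rw [A.2] at this
    simpa using this
  simpa [gl, Matrix.GeneralLinearGroup.mkOfDetNeZero] using h

end Pool.Agent.Lib.MP_06b9d2_nt
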