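import Pool.Agent.Lib.MP_06b9d2_nt.MD.Vol
import Pool.Agent.Lib.MP_06b9d2_nt.MD.Mat

/-!
Module MD-Unf (MP_06b9d2_nt, Maeda). Unfolding.

`wt_gl`: for `A = γ • dl j`: `∑_{A : M2} wt (gl A • z) = ∑_j ∑_γ wt (γ • (gl (dl j) • z)) = 3` (`dl_bij`, `gl_smul`, `wt_sum`; `Equiv.ofBijective`, `ENNReal.tsum_prod` after `Equiv.tsum_eq`).
`unfold_sum`: put `F A z = ((wt z).toReal * (wt (gl A • z)).toReal) • Φ A z`. (1) `∑_A ∫ ‖F A z‖ < ∞`: in `ℝ≥0∞`: `∫⁻ ‖F A z‖ₑ ≤ C ∫⁻ wt z * wt (gl A • z)`, and `∑_A ∫⁻ wt z * wt (gl A • z) = ∫⁻ wt z * ∑_A wt (gl A • z) = 3 ∫⁻ wt z < ∞` (`lintegral_tsum`, `M2` is countable; `wt_gl`, `wt_int`). So `MeasureTheory.hasSum_integral_of_summable_integral_norm` gives: `HasSum (fun A => ∫ F A z) (∫ ∑'_A F A z)`.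
(2) Pointwise `∑'_A F A z = (wt z).toReal • ∑_j Φ (dl j) z`: by the bijection `∑'_A = ∑_j ∑'_γ`, `Φ (γ • dl j) = Φ (dl j)`, and `∑'_γ (wt (γ • w)).toReal = 1` (`ENNReal.tsum_toReal_eq`, `wt_sum`, `wt_le`) with `w = gl (dl j) • z`. (Summability: `Summable` over `SL(2, ℤ) × Fin 3`, e.g. `HasSum` for each `j` and `hasSum_sum`, or `HasSum.prod_fiberwise`/`tsum_prod'` with absolute summability.)
Measurability: `wt_meas`, the action of `gl A` is continuous, `hm`.
-/

namespace Pool.Agent.Lib.MP_06b9d2_nt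

open UpperHalfPlane MeasureTheory
open scoped MatrixGroups ModularForm ENNReal

/-- the bijection of `dl_bij`, the index `j` first -/
noncomputable def Unf_e : Fin 3 × SL(2, ℤ) ≃ M2 :=
  (Equiv.prodComm _ _).trans (Equiv.ofBijective _ dl_bij)

theorem Unf_e_apply (j : Fin 3) (γ : SL(2, ℤ)) : Unf_e (j, γ) = γ • dl j := rfl

theorem Unf_gl (j : Fin 3) (γ : SL(2, ℤ)) (z : ℍ) :
    gl (γ • dl j) • z = γ • (gl (dl j) • z) := by
  rw [gl_smul, mul_smul]
  rfl

theorem wt_gl (z : ℍ) : ∑' A : M2, wt (gl A • z) = 3 := by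
  rw [← Unf_e.tsum_eq (fun A : M2 => wt (gl A • z))]
  have h1 : ∀ p : Fin 3 × SL(2, ℤ), wt (gl (Unf_e p) • z) = wt (p.2 • (gl (dl p.1) • z)) := by
    rintro ⟨j, γ⟩
    rw [Unf_e_apply, Unf_gl]
  rw [tsum_congr h1,
    ENNReal.tsum_prod (f := fun (j : Fin 3) (γ : SL(2, ℤ)) => wt (γ • (gl (dl j) • z)))]
  simp only [wt_sum, tsum_fintype, Finset.sum_const, Finset.card_univ, Fintype.card_fin,
    nsmul_eq_mul, mul_one]
  norm_num

theorem Unf_meas (A : M2) : Measurable (fun z : ℍ => wt (gl A • z)) :=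
  wt_meas.comp (continuous_const_smul (gl A)).measurable

theorem Unf_wt_ne_top (z : ℍ) : wt z ≠ ∞ := ne_top_of_le_ne_top ENNReal.one_ne_top (wt_le z)

theorem Unf_toReal_le (z : ℍ) : (wt z).toReal ≤ 1 := by
  have h1 := ENNReal.toReal_mono ENNReal.one_ne_top (wt_le z)
  rwa [ENNReal.toReal_one] at h1

instance Unf_countable : Countable M2 := by
  have : Countable (Matrix (Fin 2) (Fin 2) ℤ) := inferInstanceAs (Countable (Fin 2 → Fin 2 → ℤ))
  exact inferInstanceAs (Countable {A : Matrix (Fin 2) (Fin 2) ℤ // A.det = 2})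

theorem Unf_meas2 (A : M2) : Measurable (fun z : ℍ => wt z * wt (gl A • z)) :=
  wt_meas.mul (Unf_meas A)

theorem Unf_hasSum_one (w : ℍ) : HasSum (fun γ : SL(2, ℤ) => (wt (γ • w)).toReal) 1 := by
  have h1 : ∑' γ : SL(2, ℤ), wt (γ • w) ≠ ∞ := by
    rw [wt_sum]
    exact ENNReal.one_ne_top
  have h2 := ENNReal.hasSum_toReal h1
  rwa [← ENNReal.tsum_toReal_eq (fun γ => Unf_wt_ne_top _), wt_sum, ENNReal.toReal_one] at h2

theorem Unf_summable_wt (z : ℍ) : Summable (fun A : M2 => (wt (gl A • z)).toReal) := by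
  refine ENNReal.summable_toReal ?_
  rw [wt_gl]
  norm_num

theorem Unf_tsum_lint : ∑' A : M2, ∫⁻ z : ℍ, wt z * wt (gl A • z) ≠ ∞ := by
  rw [← lintegral_tsum fun A => (Unf_meas2 A).aemeasurable]
  have h1 : ∀ z : ℍ, ∑' A : M2, wt z * wt (gl A • z) = wt z * 3 := by
    intro z
    rw [ENNReal.tsum_mul_left, wt_gl]
  rw [lintegral_congr h1, lintegral_mul_const _ wt_meas]
  exact ENNReal.mul_ne_top wt_int.ne (by norm_num)

theorem Unf_int_eq (A : M2) : ∫ z : ℍ, (wt z).toReal * (wt (gl A • z)).toReal =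
    (∫⁻ z : ℍ, wt z * wt (gl A • z)).toReal := by
  rw [← integral_toReal (Unf_meas2 A).aemeasurable]
  · refine integral_congr_ae (Filter.Eventually.of_forall fun z => ?_)
    exact ENNReal.toReal_mul.symm
  · refine Filter.Eventually.of_forall fun z => ?_
    exact (ENNReal.mul_ne_top (Unf_wt_ne_top _) (Unf_wt_ne_top _)).lt_top

theorem Unf_integrable (A : M2) :
    Integrable (fun z : ℍ => (wt z).toReal * (wt (gl A • z)).toReal) := by
  have h1 : Integrable (fun z : ℍ => (wt z).toReal) :=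
    integrable_toReal_of_lintegral_ne_top wt_meas.aemeasurable wt_int.ne
  refine h1.mono' ((wt_meas.ennreal_toReal.mul (Unf_meas A).ennreal_toReal).aestronglyMeasurable)
    (Filter.Eventually.of_forall fun z => ?_)
  rw [Real.norm_of_nonneg (mul_nonneg ENNReal.toReal_nonneg ENNReal.toReal_nonneg)]
  exact mul_le_of_le_one_right ENNReal.toReal_nonneg (Unf_toReal_le _)

theorem unfold_sum (Φ : M2 → ℍ → ℂ) (hm : ∀ A, Measurable (Φ A)) (C : ℝ)
    (hC : ∀ A z, ‖Φ A z‖ ≤ C) (hΦ : ∀ (γ : SL(2, ℤ)) (A : M2), Φ (γ • A) = Φ A) :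
    HasSum (fun A : M2 => ∫ z : ℍ, ((wt z).toReal * (wt (gl A • z)).toReal) • Φ A z)
      (∫ z : ℍ, (wt z).toReal • ∑ j : Fin 3, Φ (dl j) z) := by
  have hC0 : ∀ A z, ‖((wt z).toReal * (wt (gl A • z)).toReal) • Φ A z‖ ≤
      ((wt z).toReal * (wt (gl A • z)).toReal) * C := by
    intro A z
    rw [norm_smul, Real.norm_of_nonneg (mul_nonneg ENNReal.toReal_nonneg ENNReal.toReal_nonneg)]
    exact mul_le_mul_of_nonneg_left (hC A z) (mul_nonneg ENNReal.toReal_nonneg ENNReal.toReal_nonneg)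
  have hFint : ∀ A : M2,
      Integrable (fun z : ℍ => ((wt z).toReal * (wt (gl A • z)).toReal) • Φ A z) := by
    intro A
    refine ((Unf_integrable A).mul_const C).mono' ?_ (Filter.Eventually.of_forall (hC0 A))
    exact ((wt_meas.ennreal_toReal.mul (Unf_meas A).ennreal_toReal).smul (hm A)).aestronglyMeasurable
  have hFsum : Summable (fun A : M2 =>
      ∫ z : ℍ, ‖((wt z).toReal * (wt (gl A • z)).toReal) • Φ A z‖) := by
    have h1 : Summable (fun A : M2 => (∫⁻ z : ℍ, wt z * wt (gl A • z)).toReal * C) :=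
      (ENNReal.summable_toReal Unf_tsum_lint).mul_right C
    refine Summable.of_nonneg_of_le (fun A => integral_nonneg fun z => norm_nonneg _) (fun A => ?_) h1
    rw [← Unf_int_eq, ← integral_mul_const]
    exact integral_mono (hFint A).norm ((Unf_integrable A).mul_const C) (hC0 A)
  have h2 := hasSum_integral_of_summable_integral_norm hFint hFsum
  have h3 : ∀ z : ℍ, ∑' A : M2, ((wt z).toReal * (wt (gl A • z)).toReal) • Φ A z =
      (wt z).toReal • ∑ j : Fin 3, Φ (dl j) z := by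
    intro z
    have hs : Summable (fun A : M2 => ((wt z).toReal * (wt (gl A • z)).toReal) • Φ A z) := by
      refine Summable.of_norm_bounded (((Unf_summable_wt z).mul_left (wt z).toReal).mul_right C) ?_
      intro A
      exact hC0 A z
    have h4 : ∀ j : Fin 3, HasSum (fun γ : SL(2, ℤ) =>
        ((wt z).toReal * (wt (gl (Unf_e (j, γ)) • z)).toReal) • Φ (Unf_e (j, γ)) z)
        ((wt z).toReal • Φ (dl j) z) := by
      intro j
      have h5 := ((Unf_hasSum_one (gl (dl j) • z)).mul_left (wt z).toReal).smul_const (Φ (dl j) z)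
      rw [mul_one] at h5
      refine h5.congr_fun ?_
      intro γ
      rw [Unf_e_apply, Unf_gl, hΦ]
    rw [← Unf_e.tsum_eq (fun A : M2 => ((wt z).toReal * (wt (gl A • z)).toReal) • Φ A z)]
    have hs' : Summable (fun p : Fin 3 × SL(2, ℤ) =>
        ((wt z).toReal * (wt (gl (Unf_e p) • z)).toReal) • Φ (Unf_e p) z) :=
      (Unf_e.summable_iff (f := fun A : M2 =>
        ((wt z).toReal * (wt (gl A • z)).toReal) • Φ A z)).2 hs
    rw [Summable.tsum_prod' hs' (fun j => (h4 j).summable), tsum_fintype, Finset.smul_sum]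
    exact Finset.sum_congr rfl fun j _ => (h4 j).tsum_eq
  rwa [integral_congr_ae (Filter.Eventually.of_forall h3)] at h2

end Pool.Agent.Lib.MP_06b9d2_nt
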