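import Pool.Agent.Lib.MP_06b9d2_nt.MD.Bnd
import Pool.Agent.Lib.MP_06b9d2_nt.MD.Unf

/-!
Module MD-Self (MP_06b9d2_nt, Maeda). `T_2` is self-adjoint.

`Φ A = petersson k (f ∣[k] gl A) g`, `Ψ A = petersson k f (g ∣[k] gl A)`: `slash_smul`, `pet_bnd`, `cont_slash` (with `petersson_continuous`) give the hypotheses of `unfold_sum`. `hecke_slash`: `petersson k (T f) g z = ∑_j Φ (dl j) z` (`petersson` is additive in the first argument, `map_sum` of the conjugation) and `petersson k f (T g) z = ∑_j Ψ (dl j) z`.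
So `ip k (T f) g = ∑'_A ∫ wt z wt (gl A z) Φ A z`, `ip k f (T g) = ∑'_A ∫ wt z wt (gl A z) Ψ A z`. The measure is invariant (`UpperHalfPlane` instance `SMulInvariantMeasure (GL (Fin 2) ℝ) ℍ volume`; `MeasureTheory.integral_smul_eq_self` or `measurePreserving_smul`): substituting `z = gl (adj A) • w`: `∫ wt z wt (gl A z) Φ A z = ∫ wt (gl (adj A) w) wt (gl A (gl (adj A) w)) Φ A (gl (adj A) w) = ∫ wt (gl (adj A) w) wt w Ψ (adj A) w` (`gl_adj`, `pet_adj`). So the first family at `A` is the second at `adj A`; `adj` is a bijection of `M2` (`adj_adj`): `Equiv.hasSum_iff`/`Equiv.tsum_eq`, `HasSum.unique`.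
-/

namespace Pool.Agent.Lib.MP_06b9d2_nt

open UpperHalfPlane MeasureTheory
open scoped MatrixGroups ModularForm ENNReal

theorem self_adj {k : ℤ} {T : CuspForm 𝒮ℒ k →ₗ[ℂ] CuspForm 𝒮ℒ k} (hT : IsHecke k 2 T)
    (f g : CuspForm 𝒮ℒ k) : ip k (T f) g = ip k f (T g) := by
  obtain ⟨C, hC⟩ := pet_bnd f g
  have hf : Continuous (f : ℍ → ℂ) := (CuspFormClass.holo f).continuous
  have hg : Continuous (g : ℍ → ℂ) := (CuspFormClass.holo g).continuous
  have h1 := unfold_sum (fun A => petersson k ((f : ℍ → ℂ) ∣[k] gl A) g)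
    (fun A => (petersson_continuous k (cont_slash f A) hg).measurable) C (fun A z => (hC A z).1)
    (fun γ A => by simp only [slash_smul])
  have h2 := unfold_sum (fun A => petersson k f ((g : ℍ → ℂ) ∣[k] gl A))
    (fun A => (petersson_continuous k hf (cont_slash g A)).measurable) C (fun A z => (hC A z).2)
    (fun γ A => by simp only [slash_smul])
  have e1 : ip k (T f) g = ∫ z : ℍ, (wt z).toReal •
      ∑ j : Fin 3, petersson k ((f : ℍ → ℂ) ∣[k] gl (dl j)) g z := by
    unfold ip
    refine integral_congr_ae (Filter.Eventually.of_forall fun z => ?_)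
    simp only [petersson, hecke_slash hT f, Finset.sum_apply, map_sum, Finset.sum_mul]
  have e2 : ip k f (T g) = ∫ z : ℍ, (wt z).toReal •
      ∑ j : Fin 3, petersson k f ((g : ℍ → ℂ) ∣[k] gl (dl j)) z := by
    unfold ip
    refine integral_congr_ae (Filter.Eventually.of_forall fun z => ?_)
    simp only [petersson, hecke_slash hT g, Finset.sum_apply, Finset.mul_sum, Finset.sum_mul]
  have key : ∀ A : M2, (∫ z : ℍ, ((wt z).toReal * (wt (gl A • z)).toReal) •
      petersson k ((f : ℍ → ℂ) ∣[k] gl A) g z) =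
      ∫ z : ℍ, ((wt z).toReal * (wt (gl (adj A) • z)).toReal) •
        petersson k f ((g : ℍ → ℂ) ∣[k] gl (adj A)) z := by
    intro A
    rw [← integral_smul_eq_self (μ := (volume : Measure ℍ)) (fun z : ℍ =>
      ((wt z).toReal * (wt (gl A • z)).toReal) •
      petersson k ((f : ℍ → ℂ) ∣[k] gl A) g z) (g := gl (adj A))]
    refine integral_congr_ae (Filter.Eventually.of_forall fun w => ?_)
    simp only [gl_adj, pet_adj]
    rw [mul_comm ((wt (gl (adj A) • w)).toReal)]
  let e : M2 ≃ M2 := ⟨adj, adj, adj_adj, adj_adj⟩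
  have h3 := (Equiv.hasSum_iff e).2 h2
  rw [e1, e2]
  refine h1.unique ?_
  refine h3.congr_fun ?_
  intro A
  exact key A

end Pool.Agent.Lib.MP_06b9d2_nt
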