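import Pool.Agent.Lib.MP_06b9d2_nt.MD.Mat
import Pool.Agent.Lib.MP_06b9d2_nt.MD.HeckeQ

/-!
Module MD-Slash (MP_06b9d2_nt, Maeda). The slash action of matrices of determinant `2` and the Petersson function.

`slash_smul`: `gl_smul`, `SlashAction.slash_mul`, and `f ∣[k] mapGL ℝ γ = f` (`SlashInvariantForm.slash_action_eqn` / `slash_action_eq'`, `mapGL ℝ γ ∈ 𝒮ℒ`).
`slash_scalar`: `(f ∣[k] gl A) ∣[k] gl (adj A) = f ∣[k] (gl A * gl (adj A))`, the matrix is `(2 0; 0 2)`: `ModularForm.slash_def` / `ModularForm.slash_apply`: `σ = id` (positive determinant `4`), `|4| ^ (k - 1) * 2 ^ (-k) = 2 ^ (k - 2)`.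
`hecke_slash`: `hecke_val`; `(f ∣[k] gl (dl 0)) τ = f (2 τ) * 2 ^ (k - 1) * 1 ^ (-k)`, `(f ∣[k] gl (dl 1)) τ = f (τ / 2) * 2 ^ (k - 1) * 2 ^ (-k)`, `(f ∣[k] gl (dl 2)) τ = f ((τ + 1) / 2) * 2 ^ (k - 1) * 2 ^ (-k)` (`UpperHalfPlane.num`, `denom`, `coe_smul_of_det_pos`).
`pet_adj`: `petersson_slash k (f ∣[k] gl A) g (gl (adj A)) w`: the left side is `petersson k ((f ∣[k] gl A) ∣[k] gl (adj A)) (g ∣[k] gl (adj A)) w = 2 ^ (k - 2) * petersson k f (g ∣[k] gl (adj A)) w` (`slash_scalar`; the conjugate of the real number `2 ^ (k - 2)` is itself), the right side `|2| ^ (k - 2) * petersson k (f ∣[k] gl A) g (gl (adj A) • w)`; cancel.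
-/

namespace Pool.Agent.Lib.MP_06b9d2_nt

open UpperHalfPlane MeasureTheory
open scoped MatrixGroups ModularForm ENNReal

theorem slash_smul {k : ℤ} (f : CuspForm 𝒮ℒ k) (γ : SL(2, ℤ)) (A : M2) :
    (f : ℍ → ℂ) ∣[k] gl (γ • A) = (f : ℍ → ℂ) ∣[k] gl A := by
  have h : (f : ℍ → ℂ) ∣[k] (Matrix.SpecialLinearGroup.mapGL ℝ γ) = f :=
    SlashInvariantForm.slash_action_eqn (Γ := 𝒮ℒ) f _ (MonoidHom.mem_range.2 ⟨γ, rfl⟩)
  rw [gl_smul, SlashAction.slash_mul, h]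

private theorem sig_pos {g : GL (Fin 2) ℝ} (hg : 0 < g.det.val) (z : ℂ) : σ g z = z := by
  simp only [σ, if_pos hg, ContinuousAlgEquiv.refl_apply]

private theorem gl_coe (A : M2) (i j : Fin 2) : (gl A) i j = ((A.1 i j : ℤ) : ℝ) := rfl

theorem slash_scalar (k : ℤ) (f : ℍ → ℂ) (A : M2) :
    (f ∣[k] gl A) ∣[k] gl (adj A) = (2 : ℂ) ^ (k - 2) • f := by
  rw [← SlashAction.slash_mul]
  have hdet : ((gl A * gl (adj A)).det : ℝ) = 4 := by
    rw [map_mul, Units.val_mul, det_gl, det_gl]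
    norm_num
  have hA := A.2
  rw [Matrix.det_fin_two] at hA
  have hAr : ((A.1 0 0 : ℤ) : ℝ) * ((A.1 1 1 : ℤ) : ℝ) - ((A.1 0 1 : ℤ) : ℝ) * ((A.1 1 0 : ℤ) : ℝ)
      = 2 := by
    exact_mod_cast hA
  have e10 : (gl A * gl (adj A)) 1 0 = 0 := by
    rw [Units.val_mul, Matrix.mul_apply, Fin.sum_univ_two]
    simp only [gl_coe, adj, Matrix.adjugate_fin_two]
    simp
    ring
  have e11 : (gl A * gl (adj A)) 1 1 = 2 := by
    rw [Units.val_mul, Matrix.mul_apply, Fin.sum_univ_two]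
    simp only [gl_coe, adj, Matrix.adjugate_fin_two]
    simp
    linarith
  ext τ
  rw [ModularForm.slash_apply, sig_pos (by rw [hdet]; norm_num), hdet, SemigroupAction.mul_smul,
    gl_adj]
  have hden : denom (gl A * gl (adj A)) τ = 2 := by
    rw [denom, e10, e11]
    simp
  rw [hden, Pi.smul_apply, smul_eq_mul, mul_assoc, mul_comm]
  congr 1
  have h4 : ((|(4 : ℝ)| : ℝ) : ℂ) = 2 * 2 := by
    norm_num
  rw [h4, mul_zpow, ← zpow_add₀ (two_ne_zero), ← zpow_add₀ (two_ne_zero)]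
  congr 1
  ring

private theorem slash_dl (k : ℤ) (f : ℍ → ℂ) (A : M2) (τ : ℍ) (w : ℂ) (d : ℂ)
    (h0 : A.1 1 0 = 0) (hd : ((A.1 1 1 : ℤ) : ℂ) = d)
    (hw : (((A.1 0 0 : ℤ) : ℂ) * τ + ((A.1 0 1 : ℤ) : ℂ)) / d = w) :
    (f ∣[k] gl A) τ = f (ofComplex w) * 2 ^ (k - 1) * d ^ (-k) := by
  have hp : 0 < (gl A).det.val := by
    rw [det_gl]
    norm_num
  have hden : denom (gl A) τ = d := by
    rw [denom, gl_coe, gl_coe, h0, ← hd]
    simp
  have hco : ((gl A • τ : ℍ) : ℂ) = w := by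
    rw [coe_smul_of_det_pos hp, hden, num, gl_coe, gl_coe, ← hw]
    simp
  have hpt : ofComplex w = gl A • τ := by
    rw [← hco, ofComplex_apply]
  rw [ModularForm.slash_apply, sig_pos hp, det_gl, hden, hpt]
  congr 2
  norm_num

theorem hecke_slash {k : ℤ} {T : CuspForm 𝒮ℒ k →ₗ[ℂ] CuspForm 𝒮ℒ k} (hT : IsHecke k 2 T)
    (f : CuspForm 𝒮ℒ k) : (T f : ℍ → ℂ) = ∑ j : Fin 3, (f : ℍ → ℂ) ∣[k] gl (dl j) := by
  ext τ
  rw [Finset.sum_apply, Fin.sum_univ_three, hecke_val hT f τ,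
    slash_dl k f (dl 0) τ (2 * (τ : ℂ)) 1 (by simp [dl]) (by simp [dl]) (by simp [dl]),
    slash_dl k f (dl 1) τ ((τ : ℂ) / 2) 2 (by simp [dl]) (by simp [dl])
      (by simp [dl]),
    slash_dl k f (dl 2) τ (((τ : ℂ) + 1) / 2) 2 (by simp [dl]) (by simp [dl])
      (by simp [dl])]
  have h2 : (2 : ℂ) ^ (k - 1) * 2 ^ (-k) = 1 / 2 := by
    rw [← zpow_add₀ (by norm_num : (2 : ℂ) ≠ 0), show k - 1 + -k = -1 by ring]
    norm_num
  rw [one_zpow, mul_one, mul_assoc (f _ : ℂ), mul_assoc (f _ : ℂ) _ ((2 : ℂ) ^ (-k)), h2]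
  ring

theorem pet_adj (k : ℤ) (f g : ℍ → ℂ) (A : M2) (w : ℍ) :
    petersson k (f ∣[k] gl A) g (gl (adj A) • w) = petersson k f (g ∣[k] gl (adj A)) w := by
  have h := petersson_slash k (f ∣[k] gl A) g (gl (adj A)) w
  rw [slash_scalar, sig_pos (by rw [det_gl]; norm_num), det_gl] at h
  have h1 : petersson k ((2 : ℂ) ^ (k - 2) • f) (g ∣[k] gl (adj A)) w =
      (2 : ℂ) ^ (k - 2) * petersson k f (g ∣[k] gl (adj A)) w := by
    simp only [petersson, Pi.smul_apply, smul_eq_mul, map_mul, map_zpow₀, Complex.conj_ofNat]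
    ring
  have h2 : ((|(2 : ℝ)| : ℝ) : ℂ) = 2 := by
    norm_num
  rw [h1, h2] at h
  exact (mul_left_cancel₀ (zpow_ne_zero _ two_ne_zero) h).symm

end Pool.Agent.Lib.MP_06b9d2_nt
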