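import Pool.Agent.Lib.MP_06b9d2_nt.MD.Defs

/-!
Module MD-WtA (MP_06b9d2_nt, Maeda). The weight function.

`cN_ne_top`: finitely many `γ` with `γ z ∈ 𝒟` (`ModularGroup.fd`). By `ModularGroup.exists_max_im` the imaginary parts `(γ z).im` are bounded by some `y`, so `γ z ∈ ModularGroup.truncatedFundamentalDomain y`, which is compact (`isCompact_truncatedFundamentalDomain`), and the action is properly discontinuous (`properlyDiscontinuousSL2ZRange` in `Mathlib/NumberTheory/ModularForms/ProperlyDiscontinuous.lean` for the image in `GL (Fin 2) ℝ`; `Matrix.SpecialLinearGroup.mapGL ℝ` is injective). `tsum` of the indicator is a finite sum of ones (`tsum_eq_sum` / `ENNReal.tsum_const`/ `Summable` of finite support).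
`cN_ne_zero`: `ModularGroup.exists_smul_mem_fd` and `ENNReal.le_tsum`: `1 ≤ cN z`. `cN_smul`: `Equiv.tsum_eq (Equiv.mulRight γ)`, `mul_smul`.
`wt_sum`: `∑_γ wt (γ z) = ∑_γ indicator (γ z) / cN (γ z) = (∑_γ indicator (γ z)) * (cN z)⁻¹ = 1` (`ENNReal.tsum_mul_right`, `ENNReal.mul_inv_cancel`). `wt_meas`: `ModularGroup.isClosed_fd` (measurable), the action of `γ` is continuous, a countable `tsum` of measurable functions (`Measurable.ennreal_tsum`); `Measurable.div`. `wt_le`, `wt_ne_zero`: clear.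
-/

namespace Pool.Agent.Lib.MP_06b9d2_nt

open UpperHalfPlane MeasureTheory
open scoped MatrixGroups ModularForm ENNReal

private theorem fin_fd (z : ℍ) : {γ : SL(2, ℤ) | γ • z ∈ ModularGroup.fd}.Finite := by
  obtain ⟨g, hg⟩ := ModularGroup.exists_max_im z
  have h1 := ProperlyDiscontinuousSMul.finite_disjoint_inter_image (Γ := 𝒮ℒ) (T := ℍ)
    (K := {z}) (L := ModularGroup.truncatedFundamentalDomain (g • z).im) isCompact_singleton
    (ModularGroup.isCompact_truncatedFundamentalDomain _)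
  have h2 : (Subtype.val '' {γ : 𝒮ℒ | ((γ • ·) '' {z} ∩
      ModularGroup.truncatedFundamentalDomain (g • z).im).Nonempty}).Finite := h1.image _
  refine (h2.preimage (f := Matrix.SpecialLinearGroup.mapGL ℝ)
    (Matrix.SpecialLinearGroup.mapGL_injective.injOn)).subset ?_
  intro γ hγ
  refine ⟨⟨Matrix.SpecialLinearGroup.mapGL ℝ γ, ⟨γ, rfl⟩⟩, ?_, rfl⟩
  exact ⟨γ • z, ⟨z, rfl, rfl⟩, hγ, hg γ⟩

theorem cN_ne_top (z : ℍ) : cN z ≠ ∞ := by
  have h := fin_fd z
  unfold cN
  rw [tsum_eq_sum (s := h.toFinset)]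
  · refine (ENNReal.sum_lt_top.2 fun γ _ => ?_).ne
    refine lt_of_le_of_lt (Set.indicator_le_self' (fun _ _ => bot_le) _) ENNReal.one_lt_top
  · intro γ hγ
    refine Set.indicator_of_notMem (fun h' => hγ ?_) _
    exact h.mem_toFinset.2 h'

theorem one_le_cN (z : ℍ) : 1 ≤ cN z := by
  obtain ⟨g, hg⟩ := ModularGroup.exists_smul_mem_fd z
  unfold cN
  refine le_trans ?_ (ENNReal.le_tsum g)
  rw [Set.indicator_of_mem hg]

theorem cN_smul (γ : SL(2, ℤ)) (z : ℍ) : cN (γ • z) = cN z := by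
  unfold cN
  refine Eq.trans (tsum_congr fun g => ?_) ((Equiv.mulRight γ).tsum_eq
    (fun g : SL(2, ℤ) => ModularGroup.fd.indicator (fun _ => (1 : ℝ≥0∞)) (g • z)))
  rw [Equiv.coe_mulRight, mul_smul]

theorem wt_sum (z : ℍ) : ∑' γ : SL(2, ℤ), wt (γ • z) = 1 := by
  have h1 : ∀ γ : SL(2, ℤ), wt (γ • z) =
      ModularGroup.fd.indicator (fun _ => (1 : ℝ≥0∞)) (γ • z) * (cN z)⁻¹ := by
    intro γ
    unfold wt
    rw [cN_smul, div_eq_mul_inv]
  rw [tsum_congr h1, ENNReal.tsum_mul_right]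
  refine ENNReal.mul_inv_cancel ?_ (cN_ne_top z)
  exact (lt_of_lt_of_le one_pos (one_le_cN z)).ne'

theorem wt_meas : Measurable wt := by
  have hc0 : Countable (Matrix (Fin 2) (Fin 2) ℤ) :=
    inferInstanceAs (Countable (Fin 2 → Fin 2 → ℤ))
  have hc : Countable SL(2, ℤ) :=
    inferInstanceAs (Countable {A : Matrix (Fin 2) (Fin 2) ℤ // A.det = 1})
  have hfd : MeasurableSet ModularGroup.fd := ModularGroup.isClosed_fd.measurableSet
  have h1 : Measurable (ModularGroup.fd.indicator (fun _ => (1 : ℝ≥0∞))) :=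
    measurable_const.indicator hfd
  have h2 : Measurable cN := by
    unfold cN
    refine Measurable.tsum fun γ => ?_
    have hγ : Continuous fun z : ℍ => γ • z :=
      continuous_const_smul (Matrix.SpecialLinearGroup.mapGL ℝ γ)
    exact h1.comp hγ.measurable
  exact h1.div h2

theorem wt_le (z : ℍ) : wt z ≤ 1 := by
  unfold wt
  refine ENNReal.div_le_of_le_mul ?_
  rw [one_mul]
  exact le_trans (Set.indicator_le_self' (fun _ _ => bot_le) _) (one_le_cN z)

theorem wt_ne_zero (z : ℍ) (hz : z ∈ ModularGroup.fd) : wt z ≠ 0 := by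
  unfold wt
  rw [Set.indicator_of_mem hz]
  exact ENNReal.div_ne_zero.2 ⟨one_ne_zero, cN_ne_top z⟩

end Pool.Agent.Lib.MP_06b9d2_nt
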